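import Mathlib

/-!
# Frames: bases indexed by `0, …, d`, extended by zero to `ℤ`
-/

set_option autoImplicit false

namespace Pool.LT

open Module

universe u v

variable {K : Type u} {V : Type v} [Field K] [AddCommGroup V] [Module K V]

/-- `e 0, …, e d` is a basis and `e i = 0` for the other integers `i` -/
structure Frame (K : Type u) {V : Type v} [Field K] [AddCommGroup V] [Module K V]
    (d : ℕ) (e : ℤ → V) : Prop where
  out : ∀ i : ℤ, ¬ (0 ≤ i ∧ i ≤ d) → e i = 0
  indep : LinearIndependent K (fun i : Fin (d + 1) => e (i : ℤ))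
  span : ⊤ ≤ Submodule.span K (Set.range fun i : Fin (d + 1) => e (i : ℤ))

namespace Frame

variable {d : ℕ} {e : ℤ → V}

/-- the basis of a frame -/
noncomputable def basis (F : Frame K d e) : Basis (Fin (d + 1)) K V :=
  Basis.mk F.indep F.span

theorem basis_apply (F : Frame K d e) (i : Fin (d + 1)) : F.basis i = e (i : ℤ) := by
  unfold basis
  rw [Basis.mk_apply]

/-- the coordinates -/
noncomputable def coord (F : Frame K d e) (j : ℤ) : V →ₗ[K] K :=
  if h : 0 ≤ j ∧ j ≤ d then F.basis.coord ⟨j.toNat, by omega⟩ else 0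

theorem coord_self (F : Frame K d e) {j : ℤ} (h0 : 0 ≤ j) (h1 : j ≤ d) : F.coord j (e j) = 1 := by
  unfold coord
  rw [dif_pos ⟨h0, h1⟩]
  have h2 : e j = F.basis ⟨j.toNat, by omega⟩ := by
    rw [F.basis_apply]
    congr 1
    simp only
    omega
  rw [h2, Basis.coord_apply, Basis.repr_self, Finsupp.single_eq_same]

theorem coord_ne (F : Frame K d e) {j k : ℤ} (h : j ≠ k) : F.coord j (e k) = 0 := by
  unfold coord
  by_cases hk : 0 ≤ k ∧ k ≤ d
  · by_cases hj : 0 ≤ j ∧ j ≤ d
    · rw [dif_pos hj]
      have h2 : e k = F.basis ⟨k.toNat, by omega⟩ := by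
        rw [F.basis_apply]
        congr 1
        simp only
        omega
      rw [h2, Basis.coord_apply, Basis.repr_self, Finsupp.single_apply, if_neg]
      intro h3
      rw [Fin.mk.injEq] at h3
      omega
    · rw [dif_neg hj]
      rfl
  · rw [F.out k hk, map_zero]

theorem coord_out (F : Frame K d e) {j : ℤ} (h : ¬ (0 ≤ j ∧ j ≤ d)) : F.coord j = 0 := by
  unfold coord
  rw [dif_neg h]

theorem ext (F : Frame K d e) {M N : End K V}
    (h : ∀ i : ℤ, 0 ≤ i → i ≤ d → M (e i) = N (e i)) : M = N := by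
  refine F.basis.ext fun i => ?_
  rw [F.basis_apply]
  exact h i (by positivity) (by have := i.2; omega)

theorem ext_fun (F : Frame K d e) {f g : V →ₗ[K] K}
    (h : ∀ i : ℤ, 0 ≤ i → i ≤ d → f (e i) = g (e i)) : f = g := by
  refine F.basis.ext fun i => ?_
  rw [F.basis_apply]
  exact h i (by positivity) (by have := i.2; omega)

theorem vec_ext (F : Frame K d e) {x y : V}
    (h : ∀ i : ℤ, 0 ≤ i → i ≤ d → F.coord i x = F.coord i y) : x = y := by
  refine F.basis.ext_elem fun i => ?_
  have h1 := h i (by positivity) (by have := i.2; omega)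
  unfold coord at h1
  rw [dif_pos ⟨by positivity, by have := i.2; omega⟩] at h1
  simpa [Basis.coord_apply] using h1

theorem ne_zero (F : Frame K d e) {i : ℤ} (h0 : 0 ≤ i) (h1 : i ≤ d) : e i ≠ 0 := by
  intro h
  have := F.coord_self h0 h1
  rw [h, map_zero] at this
  exact zero_ne_one this

theorem finrank (F : Frame K d e) : Module.finrank K V = d + 1 := by
  rw [Module.finrank_eq_card_basis F.basis, Fintype.card_fin]

/-- the frame of a basis -/
noncomputable def ofB (b : Basis (Fin (d + 1)) K V) (i : ℤ) : V :=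
  if h : 0 ≤ i ∧ i ≤ d then b ⟨i.toNat, by omega⟩ else 0

theorem ofB_apply (b : Basis (Fin (d + 1)) K V) (i : Fin (d + 1)) : ofB b (i : ℤ) = b i := by
  unfold ofB
  rw [dif_pos ⟨by positivity, by have := i.2; omega⟩]
  congr 1

theorem of_basis (b : Basis (Fin (d + 1)) K V) : Frame K d (ofB b) := by
  have h1 : (fun i : Fin (d + 1) => ofB b (i : ℤ)) = b := by
    funext i
    exact ofB_apply b i
  refine ⟨fun i h => ?_, ?_, ?_⟩
  · unfold ofB
    rw [dif_neg h]
  · rw [h1]
    exact b.linearIndependent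
  · rw [h1, b.span_eq]

/-- the reversed frame -/
theorem rev (F : Frame K d e) : Frame K d (fun i => e (d - i)) := by
  have h1 : (fun i : Fin (d + 1) => e ((d : ℤ) - (i : ℤ))) = F.basis.reindex Fin.revPerm := by
    funext i
    rw [Basis.reindex_apply, F.basis_apply]
    congr 1
    simp only [Fin.revPerm_symm, Fin.revPerm_apply, Fin.val_rev]
    have := i.2
    omega
  refine ⟨fun i h => F.out _ (by omega), ?_, ?_⟩
  · rw [h1]
    exact (F.basis.reindex Fin.revPerm).linearIndependent
  · rw [h1, (F.basis.reindex Fin.revPerm).span_eq]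

/-- a family of `d + 1` linearly independent vectors is a frame -/
theorem of_indep (hd : Module.finrank K V = d + 1) (hout : ∀ i : ℤ, ¬ (0 ≤ i ∧ i ≤ d) → e i = 0)
    (h : LinearIndependent K (fun i : Fin (d + 1) => e (i : ℤ))) : Frame K d e := by
  refine ⟨hout, h, ?_⟩
  rw [h.span_eq_top_of_card_eq_finrank (by rw [Fintype.card_fin, hd])]

end Frame

/-- `M` is irreducible tridiagonal with respect to the frame `v` -/
structure TriE (d : ℕ) (v : ℤ → V) (M : End K V) (p m r : ℤ → K) : Prop where
  app : ∀ i : ℤ, M (v i) = p i • v (i - 1) + m i • v i + r i • v (i + 1)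
  hp : ∀ i : ℤ, 1 ≤ i → i ≤ d → p i ≠ 0
  hr : ∀ i : ℤ, 0 ≤ i → i < d → r i ≠ 0

/-- reversal -/
theorem TriE.rev {d : ℕ} {v : ℤ → V} {M : End K V} {p m r : ℤ → K} (h : TriE d v M p m r) :
    TriE d (fun i => v (d - i)) M (fun i => r (d - i)) (fun i => m (d - i)) (fun i => p (d - i)) := by
  refine ⟨fun i => ?_, fun i h1 h2 => h.hr ((d : ℤ) - i) (by omega) (by omega),
    fun i h1 h2 => h.hp ((d : ℤ) - i) (by omega) (by omega)⟩
  rw [h.app]
  rw [show (d : ℤ) - i - 1 = d - (i + 1) by ring, show (d : ℤ) - i + 1 = d - (i - 1) by ring]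
  abel

/-- coordinates of `M x` -/
theorem TriE.coord {d : ℕ} {v : ℤ → V} {M : End K V} {p m r : ℤ → K} (h : TriE d v M p m r)
    (F : Frame K d v) {k : ℤ} (h0 : 0 ≤ k) (h1 : k ≤ d) (x : V) :
    F.coord k (M x) = r (k - 1) * F.coord (k - 1) x + m k * F.coord k x +
      p (k + 1) * F.coord (k + 1) x := by
  have h2 : (F.coord k) ∘ₗ M = r (k - 1) • F.coord (k - 1) + m k • F.coord k +
      p (k + 1) • F.coord (k + 1) := by
    refine F.ext_fun fun i hi0 hi1 => ?_
    simp only [LinearMap.comp_apply, LinearMap.add_apply, LinearMap.smul_apply, h.app, map_add,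
      map_smul, smul_eq_mul]
    by_cases e1 : i = k - 1
    · subst e1
      rw [sub_add_cancel]
      simp (disch := omega) only [F.coord_self, F.coord_ne]
      ring
    · by_cases e2 : i = k
      · subst e2
        simp (disch := omega) only [F.coord_self, F.coord_ne]
        ring
      · by_cases e3 : i = k + 1
        · subst e3
          rw [add_sub_cancel_right]
          simp (disch := omega) only [F.coord_self, F.coord_ne]
          ring
        · simp (disch := omega) only [F.coord_ne]
          ring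
  have h3 := congrArg (fun f : V →ₗ[K] K => f x) h2
  simpa using h3

/-- coordinates of `A x` for `A` diagonal -/
theorem diag_coord {d : ℕ} {v : ℤ → V} {A : End K V} {θ : ℤ → K} (F : Frame K d v)
    (hA : ∀ i, A (v i) = θ i • v i) (k : ℤ) (x : V) :
    F.coord k (A x) = θ k * F.coord k x := by
  have h2 : (F.coord k) ∘ₗ A = θ k • F.coord k := by
    refine F.ext_fun fun i hi0 hi1 => ?_
    simp only [LinearMap.comp_apply, LinearMap.smul_apply, hA, map_smul, smul_eq_mul]
    by_cases e2 : i = k
    · subst e2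
      rfl
    · rw [F.coord_ne (Ne.symm e2)]
      ring
  have h3 := congrArg (fun f : V →ₗ[K] K => f x) h2
  simpa using h3

theorem TriE.shift {d : ℕ} {v : ℤ → V} {M : End K V} {p m r : ℤ → K} (h : TriE d v M p m r)
    (c : K) : TriE d v (M - c • 1) p (fun i => m i - c) r := by
  refine ⟨fun i => ?_, h.hp, h.hr⟩
  rw [LinearMap.sub_apply, h.app, LinearMap.smul_apply, Module.End.one_apply]
  module

end Pool.LT
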