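import Mathlib
import Pool.Agent.Work.MP_a7ee28_al_h73.Base

/-!
# Bands of the Askey-Wilson relations
-/

set_option autoImplicit false

namespace Pool.LT

open Module

universe u v

variable {K : Type u} {V : Type v} [Field K] [AddCommGroup V] [Module K V]

section bands

variable {d : ℕ} {e : ℤ → V} {A M : End K V} {θ a u m l : ℤ → K} {β ρ g w c : K}

/-- relation with `A` quadratic, band 3 -/
theorem band3 (F : Frame K d e) (hA : ∀ i, A (e i) = θ i • e i + a i • e (i - 1))
    (hM : ∀ i, M (e i) = u i • e (i - 1) + m i • e i + l (i + 1) • e (i + 1))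
    (hrel : A * A * M - β • (A * M * A) + M * A * A = ρ • M + g • (A * A) + w • A + c • 1)
    {i : ℤ} (h3 : 3 ≤ i) (hi : i ≤ d) (ha : a i ≠ 0) (ha1 : a (i - 1) ≠ 0)
    (ha2 : a (i - 2) ≠ 0) :
    u i / a i - β * (u (i - 1) / a (i - 1)) + u (i - 2) / a (i - 2) = 0 := by
  have h := congrArg (fun N : End K V => F.coord (i - 1 - 1 - 1) (N (e i))) hrel
  simp only [LinearMap.add_apply, LinearMap.sub_apply, LinearMap.smul_apply,
    Module.End.mul_apply, Module.End.one_apply, hA, hM, map_add, map_smul, map_sub,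
    sub_add_cancel, add_sub_cancel_right, smul_eq_mul] at h
  simp (disch := omega) only [F.coord_self, F.coord_ne] at h
  rw [show i - 1 - 1 = i - 2 by ring] at h
  field_simp
  linear_combination h

/-- relation with `A` quadratic, band 2 -/
theorem band2 (F : Frame K d e) (hA : ∀ i, A (e i) = θ i • e i + a i • e (i - 1))
    (hM : ∀ i, M (e i) = u i • e (i - 1) + m i • e i + l (i + 1) • e (i + 1))
    (hrel : A * A * M - β • (A * M * A) + M * A * A = ρ • M + g • (A * A) + w • A + c • 1)
    {i : ℤ} (h2 : 2 ≤ i) (hi : i ≤ d) (ha : a i ≠ 0) (ha1 : a (i - 1) ≠ 0) :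
    m i - β * m (i - 1) + m (i - 2) + (u i / a i) * (θ (i - 2) + θ (i - 1) - β * θ i) +
      (u (i - 1) / a (i - 1)) * (θ (i - 1) + θ i - β * θ (i - 2)) = g := by
  have h := congrArg (fun N : End K V => F.coord (i - 1 - 1) (N (e i))) hrel
  simp only [LinearMap.add_apply, LinearMap.sub_apply, LinearMap.smul_apply,
    Module.End.mul_apply, Module.End.one_apply, hA, hM, map_add, map_smul, map_sub,
    sub_add_cancel, add_sub_cancel_right, smul_eq_mul] at h
  simp (disch := omega) only [F.coord_self, F.coord_ne] at h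
  rw [show i - 1 - 1 = i - 2 by ring] at h
  field_simp
  linear_combination h

/-- relation with `A` quadratic, band 1 -/
theorem band1 (F : Frame K d e) (hA : ∀ i, A (e i) = θ i • e i + a i • e (i - 1))
    (hM : ∀ i, M (e i) = u i • e (i - 1) + m i • e i + l (i + 1) • e (i + 1))
    (hrel : A * A * M - β • (A * M * A) + M * A * A = ρ • M + g • (A * A) + w • A + c • 1)
    {i : ℤ} (h1 : 1 ≤ i) (hi : i ≤ d) (ha : a i ≠ 0)
    (hρ : θ (i - 1) ^ 2 + θ i ^ 2 - β * θ (i - 1) * θ i = ρ) :
    a (i + 1) * l (i + 1) - β * (a i * l i) + a (i - 1) * l (i - 1) +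
      m i * (θ (i - 1) + θ i - β * θ i) + m (i - 1) * (θ (i - 1) + θ i - β * θ (i - 1)) =
      g * (θ (i - 1) + θ i) + w := by
  have h := congrArg (fun N : End K V => F.coord (i - 1) (N (e i))) hrel
  simp only [LinearMap.add_apply, LinearMap.sub_apply, LinearMap.smul_apply,
    Module.End.mul_apply, Module.End.one_apply, hA, hM, map_add, map_smul, map_sub,
    sub_add_cancel, add_sub_cancel_right, smul_eq_mul] at h
  simp (disch := omega) only [F.coord_self, F.coord_ne] at h
  apply mul_left_cancel₀ ha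
  linear_combination h - u i * hρ

/-- relation with `M` quadratic, band 3 -/
theorem bandQ3 (F : Frame K d e) (hA : ∀ i, A (e i) = θ i • e i + a i • e (i - 1))
    (hM : ∀ i, M (e i) = u i • e (i - 1) + m i • e i + l (i + 1) • e (i + 1))
    (hrel : M * M * A - β • (M * A * M) + A * M * M = ρ • A + w • M + c • 1)
    {i : ℤ} (h3 : 3 ≤ i) (hi : i ≤ d) (ha : a i ≠ 0) (ha1 : a (i - 1) ≠ 0)
    (ha2 : a (i - 2) ≠ 0) :
    (u (i - 1) / a (i - 1)) * (u (i - 2) / a (i - 2) + u i / a i) =
      β * ((u (i - 2) / a (i - 2)) * (u i / a i)) := by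
  have h := congrArg (fun N : End K V => F.coord (i - 1 - 1 - 1) (N (e i))) hrel
  simp only [LinearMap.add_apply, LinearMap.sub_apply, LinearMap.smul_apply,
    Module.End.mul_apply, Module.End.one_apply, hA, hM, map_add, map_smul, map_sub,
    sub_add_cancel, add_sub_cancel_right, smul_eq_mul] at h
  simp (disch := omega) only [F.coord_self, F.coord_ne] at h
  rw [show i - 1 - 1 = i - 2 by ring] at h
  field_simp
  linear_combination h

/-- relation with `M` quadratic, band 2 -/
theorem bandQ2 (F : Frame K d e) (hA : ∀ i, A (e i) = θ i • e i + a i • e (i - 1))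
    (hM : ∀ i, M (e i) = u i • e (i - 1) + m i • e i + l (i + 1) • e (i + 1))
    (hrel : M * M * A - β • (M * A * M) + A * M * M = ρ • A + w • M + c • 1)
    {i : ℤ} (h2 : 2 ≤ i) (hi : i ≤ d) (ha : a i ≠ 0) (ha1 : a (i - 1) ≠ 0)
    (hθ : θ i - β * θ (i - 1) + θ (i - 2) = 0) :
    (u (i - 1) / a (i - 1)) * (m (i - 2) + m (i - 1) - β * m i) +
      (u i / a i) * (m (i - 1) + m i - β * m (i - 2)) = 0 := by
  have h := congrArg (fun N : End K V => F.coord (i - 1 - 1) (N (e i))) hrel
  simp only [LinearMap.add_apply, LinearMap.sub_apply, LinearMap.smul_apply,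
    Module.End.mul_apply, Module.End.one_apply, hA, hM, map_add, map_smul, map_sub,
    sub_add_cancel, add_sub_cancel_right, smul_eq_mul] at h
  simp (disch := omega) only [F.coord_self, F.coord_ne] at h
  rw [show i - 1 - 1 = i - 2 by ring] at h
  field_simp
  linear_combination h - u (i - 1) * u i * hθ

end bands

end Pool.LT
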