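import Mathlib
import Pool.Agent.Work.MP_a7ee28_al_h73.Base

/-!
# Distinct eigenvalues, irreducibility, order of the eigenvalues
-/

set_option autoImplicit false

namespace Pool.LT

open Module

universe u v

variable {K : Type u} {V : Type v} [Field K] [AddCommGroup V] [Module K V]

/-- eigenvectors of an irreducible tridiagonal map are determined by one coordinate -/
theorem TriE.ker_eq_zero {d : ℕ} {w : ℤ → V} {M : End K V} {p m r : ℤ → K}
    (F : Frame K d w) (h : TriE d w M p m r) {lam : K} {x : V} (hx : M x = lam • x)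
    (h0 : F.coord 0 x = 0) : x = 0 := by
  have h1 : ∀ n : ℕ, ∀ k : ℤ, k ≤ n → k ≤ d → F.coord k x = 0 := by
    intro n
    induction n with
    | zero =>
      intro k hk _
      rcases lt_or_eq_of_le hk with h' | h'
      · rw [F.coord_out (by omega)]
        rfl
      · rw [h']
        exact h0
    | succ n ih =>
      intro k hk hkd
      by_cases h' : k ≤ n
      · exact ih k h' hkd
      · have hkn : k = n + 1 := by push_cast at hk; omega
        have e1 := ih n le_rfl (by omega)
        have e2 := ih ((n : ℤ) - 1) (by omega) (by omega)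
        have e3 := h.coord F (k := (n : ℤ)) (by positivity) (by omega) x
        rw [hx, map_smul, smul_eq_mul, e1, e2, ← hkn] at e3
        have hp := h.hp k (by omega) hkd
        simp only [mul_zero, zero_add, add_zero] at e3
        rcases mul_eq_zero.1 e3.symm with h5 | h5
        · exact absurd h5 hp
        · exact h5
  refine F.vec_ext fun i hi0 hi1 => ?_
  rw [map_zero]
  exact h1 i.toNat i (by omega) hi1

/-- the eigenvalues are distinct -/
theorem distinct {d : ℕ} {v w : ℤ → V} {A : End K V} {θ p m r : ℤ → K} (Fv : Frame K d v)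
    (Fw : Frame K d w) (hA : ∀ i, A (v i) = θ i • v i) (hT : TriE d w A p m r)
    {i j : ℤ} (hi0 : 0 ≤ i) (hi1 : i ≤ d) (hj0 : 0 ≤ j) (hj1 : j ≤ d) (h : θ i = θ j) : i = j := by
  by_contra hij
  set a := Fw.coord 0 (v i) with ha
  set b := Fw.coord 0 (v j) with hb
  have h1 : b • v i - a • v j = 0 := by
    refine hT.ker_eq_zero Fw (lam := θ i) ?_ ?_
    · rw [map_sub, map_smul, map_smul, hA, hA, ← h]
      module
    · rw [map_sub, map_smul, map_smul, ← ha, ← hb, smul_eq_mul, smul_eq_mul]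
      ring
  have h2 := congrArg (Fv.coord i) h1
  rw [map_sub, map_smul, map_smul, map_zero, Fv.coord_self hi0 hi1, Fv.coord_ne hij, smul_eq_mul,
    smul_eq_mul, mul_one, mul_zero, sub_zero] at h2
  have h3 : v j = 0 := hT.ker_eq_zero Fw (hA j) h2
  exact Fv.ne_zero hj0 hj1 h3

/-- extraction of eigencomponents inside an invariant subspace -/
theorem extract {d : ℕ} {v : ℤ → V} {A : End K V} {θ : ℤ → K} (Fv : Frame K d v)
    (hA : ∀ i, A (v i) = θ i • v i)
    (hinj : ∀ i j : ℤ, 0 ≤ i → i ≤ d → 0 ≤ j → j ≤ d → θ i = θ j → i = j)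
    {W : Submodule K V} (hW : ∀ x ∈ W, A x ∈ W) {x : V} (hx : x ∈ W) {j : ℤ} (hj0 : 0 ≤ j)
    (hj1 : j ≤ d) (hc : Fv.coord j x ≠ 0) : v j ∈ W := by
  have h1 : ∀ S : Finset ℤ, ∃ y ∈ W, ∀ i, Fv.coord i y = (∏ k ∈ S, (θ i - θ k)) * Fv.coord i x := by
    intro S
    induction S using Finset.induction_on with
    | empty => exact ⟨x, hx, fun i => by simp⟩
    | insert k S hk ih =>
      obtain ⟨y, hy, hyc⟩ := ih
      refine ⟨A y - θ k • y, W.sub_mem (hW y hy) (W.smul_mem _ hy), fun i => ?_⟩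
      rw [map_sub, map_smul, diag_coord Fv hA, hyc, Finset.prod_insert hk, smul_eq_mul]
      ring
  obtain ⟨y, hy, hyc⟩ := h1 ((Finset.Icc 0 (d : ℤ)).erase j)
  have h2 : y = ((∏ k ∈ (Finset.Icc 0 (d : ℤ)).erase j, (θ j - θ k)) * Fv.coord j x) • v j := by
    refine Fv.vec_ext fun i hi0 hi1 => ?_
    rw [hyc, map_smul, smul_eq_mul]
    by_cases hij : i = j
    · subst hij
      rw [Fv.coord_self hi0 hi1, mul_one]
    · rw [Fv.coord_ne hij, mul_zero]
      rw [Finset.prod_eq_zero (i := i)]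
      · ring
      · simp only [Finset.mem_erase, Finset.mem_Icc]
        exact ⟨hij, hi0, hi1⟩
      · ring
  have h3 : (∏ k ∈ (Finset.Icc 0 (d : ℤ)).erase j, (θ j - θ k)) * Fv.coord j x ≠ 0 := by
    refine mul_ne_zero (Finset.prod_ne_zero_iff.2 fun k hk => ?_) hc
    simp only [Finset.mem_erase, Finset.mem_Icc] at hk
    intro h4
    exact hk.1 (hinj j k hj0 hj1 hk.2.1 hk.2.2 (sub_eq_zero.1 h4)).symm
  have h4 : v j = ((∏ k ∈ (Finset.Icc 0 (d : ℤ)).erase j, (θ j - θ k)) * Fv.coord j x)⁻¹ • y := by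
    rw [h2, smul_smul, inv_mul_cancel₀ h3, one_smul]
  rw [h4]
  exact W.smul_mem _ hy

/-- irreducibility -/
theorem irred {d : ℕ} {v : ℤ → V} {A B : End K V} {θ p m r : ℤ → K} (Fv : Frame K d v)
    (hA : ∀ i, A (v i) = θ i • v i)
    (hinj : ∀ i j : ℤ, 0 ≤ i → i ≤ d → 0 ≤ j → j ≤ d → θ i = θ j → i = j)
    (hB : TriE d v B p m r)
    {W : Submodule K V} (hWA : ∀ x ∈ W, A x ∈ W) (hWB : ∀ x ∈ W, B x ∈ W) (hW : W ≠ ⊥) :
    W = ⊤ := by
  obtain ⟨x, hx, hx0⟩ := Submodule.exists_mem_ne_zero_of_ne_bot hW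
  obtain ⟨j, hj0, hj1, hj⟩ : ∃ j : ℤ, 0 ≤ j ∧ j ≤ d ∧ v j ∈ W := by
    by_contra hcon
    push Not at hcon
    apply hx0
    refine Fv.vec_ext fun i hi0 hi1 => ?_
    rw [map_zero]
    by_contra hne
    exact hcon i hi0 hi1 (extract Fv hA hinj hWA hx hi0 hi1 hne)
  have hup : ∀ i : ℤ, 0 ≤ i → i < d → v i ∈ W → v (i + 1) ∈ W := by
    intro i hi0 hi1 hi
    refine extract Fv hA hinj hWA (hWB _ hi) (by omega) (by omega) ?_
    rw [hB.app, map_add, map_add, map_smul, map_smul, map_smul, Fv.coord_ne (by omega),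
      Fv.coord_ne (by omega), Fv.coord_self (by omega) (by omega)]
    simpa using hB.hr i hi0 hi1
  have hdown : ∀ i : ℤ, 0 ≤ i - 1 → i ≤ d → v i ∈ W → v (i - 1) ∈ W := by
    intro i hi0 hi1 hi
    refine extract Fv hA hinj hWA (hWB _ hi) (by omega) (by omega) ?_
    rw [hB.app, map_add, map_add, map_smul, map_smul, map_smul, Fv.coord_self (by omega) (by omega),
      Fv.coord_ne (by omega), Fv.coord_ne (by omega)]
    simpa using hB.hp i (by omega) hi1
  have h0 : v 0 ∈ W := by
    have h1 : ∀ n : ℕ, (n : ℤ) ≤ d → v n ∈ W → v 0 ∈ W := by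
      intro n
      induction n with
      | zero =>
        intro _ h
        exact_mod_cast h
      | succ n ih =>
        intro hn h
        have := hdown ((n + 1 : ℕ) : ℤ) (by push_cast; omega) hn h
        rw [show ((n + 1 : ℕ) : ℤ) - 1 = n by push_cast; ring] at this
        exact ih (by push_cast at hn; omega) this
    have h2 := h1 j.toNat (by omega)
    rw [show ((j.toNat : ℕ) : ℤ) = j by omega] at h2
    exact h2 hj
  have hall : ∀ n : ℕ, (n : ℤ) ≤ d → v n ∈ W := by
    intro n
    induction n with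
    | zero =>
      intro _
      exact_mod_cast h0
    | succ n ih =>
      intro hn
      have := hup (n : ℤ) (by positivity) (by push_cast at hn; omega) (ih (by push_cast at hn; omega))
      exact_mod_cast this
  rw [eq_top_iff]
  refine Fv.span.trans (Submodule.span_le.2 ?_)
  rintro _ ⟨i, rfl⟩
  exact hall i (by have := i.2; omega)

theorem Frame.sum_coord {d : ℕ} {v : ℤ → V} (F : Frame K d v) (x : V) :
    x = ∑ k : Fin (d + 1), F.coord (k : ℤ) x • v (k : ℤ) := by
  refine F.vec_ext fun i hi0 hi1 => ?_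
  rw [map_sum, Finset.sum_eq_single (⟨i.toNat, by omega⟩ : Fin (d + 1))]
  · rw [map_smul, smul_eq_mul]
    simp only
    rw [show ((i.toNat : ℕ) : ℤ) = i by omega, F.coord_self hi0 hi1, mul_one]
  · intro k _ hk
    rw [map_smul, F.coord_ne, smul_zero]
    intro h
    apply hk
    apply Fin.ext
    simp only
    omega
  · intro h
    exact absurd (Finset.mem_univ _) h

theorem Frame.rev_coord {d : ℕ} {v : ℤ → V} (F : Frame K d v) (k : ℤ) (x : V) :
    F.rev.coord k x = F.coord (d - k) x := by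
  have h : F.rev.coord k = F.coord (d - k) := by
    by_cases hk : 0 ≤ k ∧ k ≤ d
    · refine F.rev.ext_fun fun i hi0 hi1 => ?_
      by_cases hik : k = i
      · subst hik
        rw [F.rev.coord_self hk.1 hk.2, F.coord_self (by omega) (by omega)]
      · rw [F.rev.coord_ne hik, F.coord_ne (by omega)]
    · rw [F.rev.coord_out hk, F.coord_out (by omega)]
  rw [h]

section order

variable {d : ℕ} {e v : ℤ → V} {A B : End K V} {θ a θ' b η p m r : ℤ → K}

theorem order_aux (Fe : Frame K d e) (Fv : Frame K d v)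
    (hAe : ∀ i, A (e i) = θ i • e i + a i • e (i - 1))
    (hBe : ∀ i, B (e i) = θ' i • e i + b (i + 1) • e (i + 1))
    (hAv : ∀ i, A (v i) = η i • v i) (hBv : TriE d v B p m r)
    (hb : ∀ i : ℤ, 1 ≤ i → i ≤ d → b i ≠ 0)
    (h0 : ∀ k : ℤ, k ≠ 0 → Fv.coord k (e 0) = 0) (n : ℕ) :
    (n : ℤ) ≤ d → (∀ k : ℤ, (n : ℤ) < k → Fv.coord k (e n) = 0) ∧ Fv.coord n (e n) ≠ 0 ∧
      η n = θ n := by
  induction n with
  | zero =>
    intro hn
    have h1 : Fv.coord 0 (e 0) ≠ 0 := by
      intro h
      apply Fe.ne_zero (i := 0) le_rfl (by omega)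
      refine Fv.vec_ext fun i hi0 hi1 => ?_
      rw [map_zero]
      by_cases hi : i = 0
      · rw [hi]
        exact h
      · exact h0 i hi
    refine ⟨fun k hk => h0 k (by push_cast at hk; omega), h1, ?_⟩
    have h2 := congrArg (Fv.coord 0) (hAe 0)
    rw [Fe.out (0 - 1) (by omega), smul_zero, add_zero, diag_coord Fv hAv, map_smul,
      smul_eq_mul] at h2
    exact mul_right_cancel₀ h1 h2
  | succ n ih =>
    intro hn
    obtain ⟨i1, i2, i3⟩ := ih (by push_cast at hn; omega)
    have hbn := hb ((n : ℤ) + 1) (by omega) (by push_cast at hn; omega)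
    have h1 : e ((n : ℤ) + 1) = (b ((n : ℤ) + 1))⁻¹ • (B (e n) - θ' n • e n) := by
      rw [hBe, show θ' (n : ℤ) • e (n : ℤ) + b ((n : ℤ) + 1) • e ((n : ℤ) + 1) -
        θ' (n : ℤ) • e (n : ℤ) = b ((n : ℤ) + 1) • e ((n : ℤ) + 1) by abel, smul_smul,
        inv_mul_cancel₀ hbn, one_smul]
    have h2 : ∀ k : ℤ, ((n : ℤ) + 1) < k → Fv.coord k (e ((n : ℤ) + 1)) = 0 := by
      intro k hk
      by_cases hkd : k ≤ d
      · rw [h1, map_smul, map_sub, map_smul, hBv.coord Fv (by omega) hkd, i1 k (by omega),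
          i1 (k - 1) (by omega), i1 (k + 1) (by omega)]
        simp
      · rw [Fv.coord_out (by omega)]
        rfl
    have h3 : Fv.coord ((n : ℤ) + 1) (e ((n : ℤ) + 1)) ≠ 0 := by
      rw [h1, map_smul, map_sub, map_smul, hBv.coord Fv (by omega) (by push_cast at hn; omega),
        i1 ((n : ℤ) + 1) (by omega), i1 ((n : ℤ) + 1 + 1) (by omega), add_sub_cancel_right]
      simp only [mul_zero, add_zero, smul_eq_mul, sub_zero]
      exact mul_ne_zero (inv_ne_zero hbn) (mul_ne_zero
        (hBv.hr n (by positivity) (by push_cast at hn; omega)) i2)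
    push_cast
    refine ⟨h2, h3, ?_⟩
    have h4 := congrArg (Fv.coord ((n : ℤ) + 1)) (hAe ((n : ℤ) + 1))
    rw [diag_coord Fv hAv, map_add, map_smul, map_smul, smul_eq_mul, smul_eq_mul,
      add_sub_cancel_right, i1 ((n : ℤ) + 1) (by omega), mul_zero, add_zero] at h4
    exact mul_right_cancel₀ h3 h4

/-- `e 0` is proportional to `v 0` or `v d` -/
theorem order_zero (Fe : Frame K d e) (Fv : Frame K d v)
    (hAe : ∀ i, A (e i) = θ i • e i + a i • e (i - 1))
    (hBe : ∀ i, B (e i) = θ' i • e i + b (i + 1) • e (i + 1))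
    (hAv : ∀ i, A (v i) = η i • v i)
    (hinj : ∀ i j : ℤ, 0 ≤ i → i ≤ d → 0 ≤ j → j ≤ d → η i = η j → i = j)
    (hBv : TriE d v B p m r) :
    (∀ k : ℤ, k ≠ 0 → Fv.coord k (e 0) = 0) ∨ (∀ k : ℤ, k ≠ d → Fv.coord k (e 0) = 0) := by
  have hA0 : A (e 0) = θ 0 • e 0 := by
    rw [hAe, Fe.out (0 - 1) (by omega), smul_zero, add_zero]
  have hA1 : A (e 1) = θ 1 • e 1 + a 1 • e 0 := by
    rw [hAe, sub_self]
  obtain ⟨j, hj0, hj1, hj⟩ : ∃ j : ℤ, 0 ≤ j ∧ j ≤ d ∧ Fv.coord j (e 0) ≠ 0 := by
    by_contra hcon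
    push Not at hcon
    apply Fe.ne_zero (i := 0) le_rfl (by omega)
    refine Fv.vec_ext fun i hi0 hi1 => ?_
    rw [map_zero]
    exact hcon i hi0 hi1
  have hθ : η j = θ 0 := by
    have h2 := congrArg (Fv.coord j) hA0
    rw [diag_coord Fv hAv, map_smul, smul_eq_mul] at h2
    exact mul_right_cancel₀ hj h2
  have hother : ∀ k : ℤ, k ≠ j → Fv.coord k (e 0) = 0 := by
    intro k hk
    by_cases hkr : 0 ≤ k ∧ k ≤ d
    · by_contra hne
      have h2 := congrArg (Fv.coord k) hA0
      rw [diag_coord Fv hAv, map_smul, smul_eq_mul] at h2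
      have h3 := mul_right_cancel₀ hne h2
      exact hk (hinj k j hkr.1 hkr.2 hj0 hj1 (h3.trans hθ.symm))
    · rw [Fv.coord_out hkr]
      rfl
  by_cases hj0' : j = 0
  · left
    exact fun k hk => hother k (by omega)
  · by_cases hjd : j = d
    · right
      exact fun k hk => hother k (by omega)
    · exfalso
      -- coordinates of `B (e 0)` at `j ± 1`
      have key : ∀ k : ℤ, 0 ≤ k → k ≤ d → k ≠ j → Fv.coord k (B (e 0)) ≠ 0 → η k = θ 1 := by
        intro k hk0 hk1 hkj hne
        have h2 : A (A (B (e 0))) - (θ 0 + θ 1) • A (B (e 0)) + (θ 0 * θ 1) • B (e 0) = 0 := by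
          rw [hBe]
          simp only [map_add, map_smul, zero_add, hA0, hA1]
          module
        have h3 := congrArg (Fv.coord k) h2
        rw [map_add, map_sub, map_smul, map_smul, map_zero, diag_coord Fv hAv,
          diag_coord Fv hAv] at h3
        simp only [smul_eq_mul] at h3
        have h4 : (η k - θ 0) * (η k - θ 1) = 0 := by
          apply mul_right_cancel₀ hne
          linear_combination h3
        rcases mul_eq_zero.1 h4 with h5 | h5
        · exfalso
          apply hkj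
          exact hinj k j hk0 hk1 hj0 hj1 ((sub_eq_zero.1 h5).trans hθ.symm)
        · exact sub_eq_zero.1 h5
      have e1 : Fv.coord (j + 1) (B (e 0)) ≠ 0 := by
        rw [hBv.coord Fv (by omega) (by omega), hother (j + 1) (by omega),
          hother (j + 1 + 1) (by omega), add_sub_cancel_right]
        simpa using ⟨hBv.hr j hj0 (by omega), hj⟩
      have e2 : Fv.coord (j - 1) (B (e 0)) ≠ 0 := by
        rw [hBv.coord Fv (by omega) (by omega), hother (j - 1) (by omega),
          hother (j - 1 - 1) (by omega), sub_add_cancel]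
        simpa using ⟨hBv.hp j (by omega) hj1, hj⟩
      have e3 := key (j + 1) (by omega) (by omega) (by omega) e1
      have e4 := key (j - 1) (by omega) (by omega) (by omega) e2
      have e5 := hinj (j + 1) (j - 1) (by omega) (by omega) (by omega) (by omega) (e3.trans e4.symm)
      omega

/-- the frame of eigenvectors of `A`, in the order of `e` -/
theorem order (Fe : Frame K d e) (Fv : Frame K d v)
    (hAe : ∀ i, A (e i) = θ i • e i + a i • e (i - 1))
    (hBe : ∀ i, B (e i) = θ' i • e i + b (i + 1) • e (i + 1))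
    (hAv : ∀ i, A (v i) = η i • v i)
    (hinj : ∀ i j : ℤ, 0 ≤ i → i ≤ d → 0 ≤ j → j ≤ d → η i = η j → i = j)
    (hBv : TriE d v B p m r)
    (hb : ∀ i : ℤ, 1 ≤ i → i ≤ d → b i ≠ 0) :
    ∃ v' : ℤ → V, ∃ F' : Frame K d v', (v' = v ∨ v' = fun i => v (d - i)) ∧
      (∀ i, A (v' i) = θ i • v' i) ∧
      (∀ i j : ℤ, i < j → F'.coord j (e i) = 0) ∧
      (∀ i : ℤ, 0 ≤ i → i ≤ d → F'.coord i (e i) ≠ 0) := by
  have main : ∀ (w : ℤ → V) (Fw : Frame K d w) (η' p' m' r' : ℤ → K),
      (∀ i, A (w i) = η' i • w i) → TriE d w B p' m' r' →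
      (∀ k : ℤ, k ≠ 0 → Fw.coord k (e 0) = 0) →
      (∀ i, A (w i) = θ i • w i) ∧ (∀ i j : ℤ, i < j → Fw.coord j (e i) = 0) ∧
      (∀ i : ℤ, 0 ≤ i → i ≤ d → Fw.coord i (e i) ≠ 0) := by
    intro w Fw η' p' m' r' hAw hBw h0
    have h1 := fun (i : ℤ) (hi0 : 0 ≤ i) (hi1 : i ≤ d) =>
      order_aux Fe Fw hAe hBe hAw hBw hb h0 i.toNat (by omega)
    refine ⟨fun i => ?_, fun i j hij => ?_, fun i hi0 hi1 => ?_⟩
    · by_cases hi : 0 ≤ i ∧ i ≤ d
      · have h2 := (h1 i hi.1 hi.2).2.2
        rw [show ((i.toNat : ℕ) : ℤ) = i by omega] at h2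
        rw [hAw, h2]
      · rw [Fw.out i hi, map_zero, smul_zero]
    · by_cases hi : 0 ≤ i ∧ i ≤ d
      · have h2 := (h1 i hi.1 hi.2).1 j (by omega)
        rw [show ((i.toNat : ℕ) : ℤ) = i by omega] at h2
        exact h2
      · rw [Fe.out i hi, map_zero]
    · have h2 := (h1 i hi0 hi1).2.1
      rw [show ((i.toNat : ℕ) : ℤ) = i by omega] at h2
      exact h2
  rcases order_zero Fe Fv hAe hBe hAv hinj hBv with h | h
  · exact ⟨v, Fv, Or.inl rfl, main v Fv η p m r hAv hBv h⟩
  · refine ⟨fun i => v (d - i), Fv.rev, Or.inr rfl,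
      main _ Fv.rev (fun i => η (d - i)) _ _ _ (fun i => hAv _) hBv.rev fun k hk => ?_⟩
    rw [Fv.rev_coord]
    exact h _ (by omega)

/-- triangularity of the inverse -/
theorem inv_triangular (Fe : Frame K d e) (Fv : Frame K d v)
    (h : ∀ i j : ℤ, i < j → Fv.coord j (e i) = 0)
    (hne : ∀ i : ℤ, 0 ≤ i → i ≤ d → Fv.coord i (e i) ≠ 0) (n : ℕ) :
    ∀ i : ℤ, i ≤ n → ∀ j : ℤ, i < j → Fe.coord j (v i) = 0 := by
  induction n with
  | zero =>
    intro i hi j hij
    rcases lt_or_eq_of_le hi with h' | h'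
    · rw [Fv.out i (by omega), map_zero]
    · have hi0 : i = 0 := by simpa using h'
      subst hi0
      have h1 := congrArg (Fe.coord j) (Fv.sum_coord (e 0))
      rw [Fe.coord_ne (by omega), map_sum, Finset.sum_eq_single (0 : Fin (d + 1))] at h1
      · rw [map_smul, smul_eq_mul] at h1
        simp only [Fin.val_zero, Nat.cast_zero] at h1
        rcases mul_eq_zero.1 h1.symm with h2 | h2
        · exact absurd h2 (hne 0 le_rfl (by omega))
        · exact h2
      · intro k _ hk
        rw [map_smul, h 0 k, zero_smul]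
        have : (k : ℕ) ≠ 0 := fun h3 => hk (Fin.ext h3)
        omega
      · intro h2
        exact absurd (Finset.mem_univ _) h2
  | succ n ih =>
    intro i hi j hij
    by_cases hin : i ≤ n
    · exact ih i hin j hij
    · by_cases hid : i ≤ d
      · have h1 := congrArg (Fe.coord j) (Fv.sum_coord (e i))
        rw [Fe.coord_ne (by omega), map_sum,
          Finset.sum_eq_single (⟨i.toNat, by omega⟩ : Fin (d + 1))] at h1
        · rw [map_smul, smul_eq_mul] at h1
          simp only at h1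
          rw [show ((i.toNat : ℕ) : ℤ) = i by omega] at h1
          rcases mul_eq_zero.1 h1.symm with h2 | h2
          · exact absurd h2 (hne i (by omega) hid)
          · exact h2
        · intro k _ hk
          rw [map_smul, smul_eq_mul]
          have hki : (k : ℤ) ≠ i := by
            intro h3
            apply hk
            apply Fin.ext
            simp only
            omega
          rcases lt_or_gt_of_ne hki with h3 | h3
          · rw [ih (k : ℤ) (by push_cast at hi; omega) j (by omega), mul_zero]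
          · rw [h i k h3, zero_mul]
        · intro h2
          exact absurd (Finset.mem_univ _) h2
      · rw [Fv.out i (by omega), map_zero]

/-- Hessenberg form -/
theorem hess (Fe : Frame K d e) (Fv : Frame K d v)
    (h : ∀ i j : ℤ, i < j → Fv.coord j (e i) = 0)
    (hne : ∀ i : ℤ, 0 ≤ i → i ≤ d → Fv.coord i (e i) ≠ 0) {M : End K V}
    (hM : TriE d v M p m r) (i k : ℤ) (hik : i + 1 < k) : Fe.coord k (M (e i)) = 0 := by
  have h1 := congrArg (Fe.coord k) (Fv.sum_coord (M (e i)))
  rw [h1, map_sum]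
  refine Finset.sum_eq_zero fun j _ => ?_
  rw [map_smul, smul_eq_mul]
  by_cases hj : (j : ℤ) ≤ i + 1
  · rw [inv_triangular Fe Fv h hne (j : ℕ) j le_rfl k (by omega), mul_zero]
  · rw [hM.coord Fv (by positivity) (by have := j.2; omega), h i j (by omega),
      h i ((j : ℤ) - 1) (by omega), h i ((j : ℤ) + 1) (by omega)]
    ring

end order

end Pool.LT
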