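import Mathlib
import Pool.Agent.Work.MP_a7ee28_al_h73.Ord

/-!
# The irreducible module of dimension `d + 1`
-/

set_option autoImplicit false

namespace Pool.LT

open Module

universe u v

variable {K : Type u} {V : Type v} [Field K] [AddCommGroup V] [Module K V]

/-- `[n] = q ^ n - q ^ (-n)` -/
def br (q : K) (n : ℤ) : K := q ^ n - q ^ (-n)

/-- `q ^ (2 i - d)` -/
def ss (q : K) (d : ℕ) (i : ℤ) : K := q ^ (2 * i - (d : ℤ))

/-- the standard module -/
structure Std (d : ℕ) (q : K) (X Y Z : End K V) (e : ℤ → V) : Prop where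
  frame : Frame K d e
  hX : ∀ i, X (e i) = ss q d i • e i + br q (d + 1 - i) • e (i - 1)
  hY : ∀ i, Y (e i) = (ss q d i)⁻¹ • e i
  hZ : ∀ i, Z (e i) = ss q d i • e i - (q * ss q d i * br q (i + 1)) • e (i + 1)

section basics

variable {q : K}

theorem zpow_ne_one (_hq : q ≠ 0) (hroot : ∀ n : ℕ, 0 < n → q ^ n ≠ 1) {n : ℤ} (hn : n ≠ 0) :
    q ^ n ≠ 1 := by
  intro h
  rcases lt_or_gt_of_ne hn with h1 | h1
  · have h2 := hroot (-n).toNat (by omega)
    apply h2
    rw [← zpow_natCast, show (((-n).toNat : ℕ) : ℤ) = -n by omega, zpow_neg, h, inv_one]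
  · have h2 := hroot n.toNat (by omega)
    apply h2
    rw [← zpow_natCast, show ((n.toNat : ℕ) : ℤ) = n by omega, h]

theorem zpow_inj (hq : q ≠ 0) (hroot : ∀ n : ℕ, 0 < n → q ^ n ≠ 1) {m n : ℤ}
    (h : q ^ m = q ^ n) : m = n := by
  by_contra hne
  apply zpow_ne_one hq hroot (sub_ne_zero.2 hne)
  rw [zpow_sub₀ hq, h, div_self (zpow_ne_zero _ hq)]

theorem br_ne_zero (hq : q ≠ 0) (hroot : ∀ n : ℕ, 0 < n → q ^ n ≠ 1) {n : ℤ} (hn : n ≠ 0) :
    br q n ≠ 0 := by
  intro h
  unfold br at h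
  have := zpow_inj hq hroot (sub_eq_zero.1 h)
  omega

theorem br_zero : br q 0 = 0 := by
  unfold br
  simp

theorem ss_ne_zero (hq : q ≠ 0) (d : ℕ) (i : ℤ) : ss q d i ≠ 0 := zpow_ne_zero _ hq

theorem ss_succ (hq : q ≠ 0) (d : ℕ) (i : ℤ) : ss q d (i + 1) = q ^ 2 * ss q d i := by
  unfold ss
  rw [show 2 * (i + 1) - (d : ℤ) = 2 + (2 * i - d) by ring, zpow_add₀ hq]
  norm_cast

theorem ss_pred (hq : q ≠ 0) (d : ℕ) (i : ℤ) : ss q d (i - 1) = ss q d i / q ^ 2 := by
  have := ss_succ hq d (i - 1)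
  rw [sub_add_cancel] at this
  rw [this]
  field_simp

end basics

section module

variable {d : ℕ} {q : K} {X Xi Y Z : End K V}

/-- the relations, pointwise -/
structure Rels (q : K) (X Xi Y Z : End K V) : Prop where
  hq : q ≠ 0
  hroot : ∀ n : ℕ, 0 < n → q ^ n ≠ 1
  inv1 : ∀ v, X (Xi v) = v
  inv2 : ∀ v, Xi (X v) = v
  xy : ∀ v, q • X (Y v) - q⁻¹ • Y (X v) = (q - q⁻¹) • v
  yz : ∀ v, q • Y (Z v) - q⁻¹ • Z (Y v) = (q - q⁻¹) • v
  zx : ∀ v, q • Z (X v) - q⁻¹ • X (Z v) = (q - q⁻¹) • v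

/-- `ν_z` -/
def nz (q : K) (X Y : End K V) : End K V := q • (1 - X * Y)

/-- `ν_x` -/
def nx (q : K) (Y Z : End K V) : End K V := q • (1 - Y * Z)

theorem Rels.nz_eq (h : Rels q X Xi Y Z) (v : V) : nz q X Y v = q⁻¹ • (v - Y (X v)) := by
  have h1 := h.xy v
  unfold nz
  simp only [LinearMap.smul_apply, LinearMap.sub_apply, Module.End.one_apply, Module.End.mul_apply]
  linear_combination (norm := module) (-1 : K) • h1

theorem Rels.nz_X (h : Rels q X Xi Y Z) (v : V) : nz q X Y (X v) = q ^ 2 • X (nz q X Y v) := by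
  rw [h.nz_eq v]
  unfold nz
  simp only [LinearMap.smul_apply, LinearMap.sub_apply, Module.End.one_apply,
    Module.End.mul_apply, map_smul, map_sub]
  have := h.hq
  match_scalars <;> field_simp

theorem Rels.nz_Y (h : Rels q X Xi Y Z) (v : V) : Y (nz q X Y v) = q ^ 2 • nz q X Y (Y v) := by
  rw [h.nz_eq (Y v)]
  unfold nz
  simp only [LinearMap.smul_apply, LinearMap.sub_apply, Module.End.one_apply,
    Module.End.mul_apply, map_smul, map_sub]
  have := h.hq
  match_scalars <;> field_simp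

theorem Rels.nx_eq (h : Rels q X Xi Y Z) (v : V) : nx q Y Z v = q⁻¹ • (v - Z (Y v)) := by
  have h1 := h.yz v
  unfold nx
  simp only [LinearMap.smul_apply, LinearMap.sub_apply, Module.End.one_apply, Module.End.mul_apply]
  linear_combination (norm := module) (-1 : K) • h1

theorem Rels.nx_Y (h : Rels q X Xi Y Z) (v : V) : nx q Y Z (Y v) = q ^ 2 • Y (nx q Y Z v) := by
  rw [h.nx_eq v]
  unfold nx
  simp only [LinearMap.smul_apply, LinearMap.sub_apply, Module.End.one_apply,
    Module.End.mul_apply, map_smul, map_sub]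
  have := h.hq
  match_scalars <;> field_simp

theorem Rels.nz_nx (h : Rels q X Xi Y Z) (v : V) :
    nz q X Y (nx q Y Z v) = q⁻¹ ^ 2 • nx q Y Z (nz q X Y v) +
      (1 - q⁻¹ ^ 2) • (v - Y (Y v)) := by
  have h1 := h.xy (Z (Y v))
  have h2 := congrArg Y (h.zx (Y v))
  have h3 := congrArg (fun u => Y (Z u)) (h.xy v)
  have h4 := h.xy v
  have h5 := h.yz v
  have hq := h.hq
  rw [h.nx_eq v, h.nz_eq v]
  unfold nx nz
  simp only [LinearMap.smul_apply, LinearMap.sub_apply, Module.End.one_apply,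
    Module.End.mul_apply, map_smul, map_sub] at h1 h2 h3 h4 h5 ⊢
  have hqi : q * q⁻¹ = 1 := mul_inv_cancel₀ hq
  linear_combination (norm := skip) q⁻¹ • h1 - q⁻¹ • h2 + q⁻¹ • h3 - q⁻¹ • h4 + q⁻¹ • h5
  match_scalars <;> field_simp <;> ring

theorem Rels.ker_nz [FiniteDimensional K V] (h : Rels q X Xi Y Z)
    (hd : 0 < Module.finrank K V) : LinearMap.ker (nz q X Y) ≠ ⊥ := by
  have h1 : nz q X Y * X = q ^ 2 • (X * nz q X Y) := by
    ext v
    exact h.nz_X v
  have h2 := congrArg LinearMap.det h1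
  rw [LinearMap.det_smul] at h2
  have h3 : LinearMap.det (nz q X Y * X) = LinearMap.det (nz q X Y) * LinearMap.det X :=
    map_mul _ _ _
  have h4 : LinearMap.det (X * nz q X Y) = LinearMap.det X * LinearMap.det (nz q X Y) :=
    map_mul _ _ _
  rw [h3, h4] at h2
  have h5 : LinearMap.det X ≠ 0 := by
    have h6 : X * Xi = 1 := by
      ext v
      exact h.inv1 v
    have h7 := congrArg LinearMap.det h6
    rw [map_mul, map_one] at h7
    intro h8
    rw [h8, zero_mul] at h7
    exact zero_ne_one h7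
  have h6 : LinearMap.det (nz q X Y) = 0 := by
    by_contra hne
    have h7 : (q ^ 2) ^ Module.finrank K V = 1 := by
      apply mul_right_cancel₀ (mul_ne_zero h5 hne)
      rw [one_mul]
      linear_combination -h2
    rw [← pow_mul] at h7
    exact h.hroot _ (by positivity) h7
  exact (LinearMap.bot_lt_ker_of_det_eq_zero h6).ne'

/-- a highest weight vector -/
theorem Rels.exists_vector [FiniteDimensional K V] (h : Rels q X Xi Y Z) {A : End K V}
    {a0 a1 a2 a3 : K} (hA : A = a0 • 1 + a1 • X + a2 • Y + a3 • (X * Y)) {v : ℤ → V} {θ : ℤ → K}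
    (Fv : Frame K d v) (hAv : ∀ i, A (v i) = θ i • v i)
    (hinj : ∀ i j : ℤ, 0 ≤ i → i ≤ d → 0 ≤ j → j ≤ d → θ i = θ j → i = j) :
    ∃ x : K, ∃ v0 : V, x ≠ 0 ∧ v0 ≠ 0 ∧ Y v0 = x • v0 ∧ nz q X Y v0 = 0 := by
  have hq := h.hq
  have hker := h.ker_nz (by rw [Fv.finrank]; omega)
  have hXY : ∀ x, nz q X Y x = 0 → X (Y x) = x := by
    intro x hx
    unfold nz at hx
    simp only [LinearMap.smul_apply, LinearMap.sub_apply, Module.End.one_apply,
      Module.End.mul_apply] at hx
    have := (smul_eq_zero.1 hx).resolve_left hq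
    exact (sub_eq_zero.1 this).symm
  have hYX : ∀ x, nz q X Y x = 0 → Y (X x) = x := by
    intro x hx
    rw [h.nz_eq] at hx
    have := (smul_eq_zero.1 hx).resolve_left (inv_ne_zero hq)
    exact (sub_eq_zero.1 this).symm
  have hX : ∀ x, nz q X Y x = 0 → nz q X Y (X x) = 0 := by
    intro x hx
    rw [h.nz_X, hx, map_zero, smul_zero]
  have hY : ∀ x, nz q X Y x = 0 → nz q X Y (Y x) = 0 := by
    intro x hx
    have h1 := h.nz_Y x
    rw [hx, map_zero] at h1
    exact (smul_eq_zero.1 h1.symm).resolve_left (pow_ne_zero _ hq)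
  have hAx : ∀ x, A x = a0 • x + a1 • X x + a2 • Y x + a3 • X (Y x) := by
    intro x
    rw [hA]
    simp only [LinearMap.add_apply, LinearMap.smul_apply, Module.End.one_apply,
      Module.End.mul_apply]
  obtain ⟨x, hx, hx0⟩ := Submodule.exists_mem_ne_zero_of_ne_bot hker
  obtain ⟨j, hj0, hj1, hj⟩ : ∃ j : ℤ, 0 ≤ j ∧ j ≤ d ∧ v j ∈ LinearMap.ker (nz q X Y) := by
    by_contra hcon
    push Not at hcon
    apply hx0
    refine Fv.vec_ext fun i hi0 hi1 => ?_
    rw [map_zero]
    by_contra hne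
    refine hcon i hi0 hi1 (extract Fv hAv hinj (fun y hy => ?_) hx hi0 hi1 hne)
    rw [LinearMap.mem_ker] at hy ⊢
    rw [hAx, map_add, map_add, map_add, map_smul, map_smul, map_smul, map_smul, hXY y hy, hy,
      hX y hy, hY y hy]
    simp
  rw [LinearMap.mem_ker] at hj
  have hAX : A (X (v j)) = θ j • X (v j) := by
    have h1 := congrArg X (hAv j)
    rw [map_smul] at h1
    rw [← h1, hAx, hAx, map_add, map_add, map_add, map_smul, map_smul, map_smul, map_smul,
      hXY _ (hX _ hj), hXY _ hj, hYX _ hj]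
  have hvj : v j ≠ 0 := Fv.ne_zero hj0 hj1
  have hXv : X (v j) = Fv.coord j (X (v j)) • v j := by
    refine Fv.vec_ext fun i hi0 hi1 => ?_
    rw [map_smul, smul_eq_mul]
    by_cases hij : i = j
    · subst hij
      rw [Fv.coord_self hi0 hi1, mul_one]
    · rw [Fv.coord_ne hij, mul_zero]
      by_contra hne
      have h2 := congrArg (Fv.coord i) hAX
      rw [diag_coord Fv hAv, map_smul, smul_eq_mul] at h2
      exact hij (hinj i j hi0 hi1 hj0 hj1 (mul_right_cancel₀ hne h2))
  set c := Fv.coord j (X (v j)) with hc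
  have hYv : c • Y (v j) = v j := by
    have h1 := hYX _ hj
    rw [hXv, map_smul] at h1
    exact h1
  have hc0 : c ≠ 0 := by
    intro h0
    rw [h0, zero_smul] at hYv
    exact hvj hYv.symm
  refine ⟨c⁻¹, v j, inv_ne_zero hc0, hvj, ?_, hj⟩
  nth_rw 2 [← hYv]
  rw [smul_smul, inv_mul_cancel₀ hc0, one_smul]

section tower

variable {x : K} {v0 : V}

/-- the vectors `ν_x ^ n v₀` -/
noncomputable def fv (q : K) (Y Z : End K V) (v0 : V) (n : ℕ) : V := ((nx q Y Z) ^ n) v0

theorem fv_succ (n : ℕ) : fv q Y Z v0 (n + 1) = nx q Y Z (fv q Y Z v0 n) := by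
  unfold fv
  rw [pow_succ', Module.End.mul_apply]

/-- eigenvalues of `Y` -/
noncomputable def yv (q x : K) (n : ℕ) : K := x * (q⁻¹ ^ 2) ^ n

theorem Rels.Y_fv (h : Rels q X Xi Y Z) (hY : Y v0 = x • v0) (n : ℕ) :
    Y (fv q Y Z v0 n) = yv q x n • fv q Y Z v0 n := by
  have hq := h.hq
  induction n with
  | zero =>
    unfold fv yv
    simpa using hY
  | succ n ih =>
    have h1 := h.nx_Y (fv q Y Z v0 n)
    rw [ih, map_smul, ← fv_succ] at h1
    have h2 : Y (fv q Y Z v0 (n + 1)) = q⁻¹ ^ 2 • (yv q x n • fv q Y Z v0 (n + 1)) := by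
      rw [h1, smul_smul, ← mul_pow, inv_mul_cancel₀ hq, one_pow, one_smul]
    rw [h2, smul_smul]
    unfold yv
    rw [pow_succ]
    congr 1
    ring

theorem Rels.Z_fv (h : Rels q X Xi Y Z) (hY : Y v0 = x • v0) (n : ℕ) :
    yv q x n • Z (fv q Y Z v0 n) = fv q Y Z v0 n - q • fv q Y Z v0 (n + 1) := by
  have hq := h.hq
  rw [fv_succ, h.nx_eq, h.Y_fv hY, map_smul, smul_smul, mul_inv_cancel₀ hq, one_smul]
  abel

/-- the constants -/
noncomputable def cv (q x : K) (n : ℕ) : K :=
  (1 - (q⁻¹ ^ 2) ^ n) * (1 - x ^ 2 * q ^ 2 * (q⁻¹ ^ 2) ^ n)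

theorem cv_succ (hq : q ≠ 0) (n : ℕ) :
    cv q x (n + 1) = q⁻¹ ^ 2 * cv q x n + (1 - q⁻¹ ^ 2) * (1 - yv q x n ^ 2) := by
  unfold cv yv
  rw [pow_succ]
  have h1 : q⁻¹ ^ 2 * q ^ 2 = 1 := by
    rw [← mul_pow, inv_mul_cancel₀ hq, one_pow]
  generalize q⁻¹ ^ 2 = r at *
  generalize r ^ n = R
  linear_combination (R ^ 2 * r * x ^ 2 - R ^ 2 * x ^ 2) * h1

theorem cv_zero : cv q x 0 = 0 := by
  unfold cv
  simp

theorem Rels.nz_fv (h : Rels q X Xi Y Z) (hY : Y v0 = x • v0) (h0 : nz q X Y v0 = 0) (n : ℕ) :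
    nz q X Y (fv q Y Z v0 (n + 1)) = cv q x (n + 1) • fv q Y Z v0 n := by
  have hq := h.hq
  induction n with
  | zero =>
    rw [fv_succ, h.nz_nx, cv_succ hq, cv_zero]
    unfold fv yv
    simp only [pow_zero, Module.End.one_apply, h0, hY, map_smul, map_zero, smul_zero, zero_add,
      mul_zero, mul_one]
    module
  | succ n ih =>
    rw [fv_succ (n := n + 1), h.nz_nx, ih, map_smul, ← fv_succ, h.Y_fv hY, map_smul, h.Y_fv hY,
      cv_succ hq (n + 1)]
    module

theorem Rels.X_fv (h : Rels q X Xi Y Z) (hY : Y v0 = x • v0) (h0 : nz q X Y v0 = 0) (n : ℕ) :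
    yv q x (n + 1) • X (fv q Y Z v0 (n + 1)) =
      fv q Y Z v0 (n + 1) - (q⁻¹ * cv q x (n + 1)) • fv q Y Z v0 n := by
  have hq := h.hq
  have h1 := h.nz_fv hY h0 n
  unfold nz at h1
  simp only [LinearMap.smul_apply, LinearMap.sub_apply, Module.End.one_apply,
    Module.End.mul_apply, h.Y_fv hY, map_smul] at h1
  rw [mul_smul, ← h1, smul_smul q⁻¹ q, inv_mul_cancel₀ hq, one_smul]
  abel

theorem Rels.X_fv0 (h : Rels q X Xi Y Z) (hY : Y v0 = x • v0) (h0 : nz q X Y v0 = 0) :
    x • X v0 = v0 := by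
  have hq := h.hq
  unfold nz at h0
  simp only [LinearMap.smul_apply, LinearMap.sub_apply, Module.End.one_apply,
    Module.End.mul_apply, hY, map_smul] at h0
  have := (smul_eq_zero.1 h0).resolve_left hq
  exact (sub_eq_zero.1 this).symm

theorem yv_inj (hq : q ≠ 0) (hroot : ∀ n : ℕ, 0 < n → q ^ n ≠ 1) (hx : x ≠ 0) {m n : ℕ}
    (h : yv q x m = yv q x n) : m = n := by
  unfold yv at h
  have h1 := mul_left_cancel₀ hx h
  rw [← pow_mul, ← pow_mul, inv_pow, inv_pow] at h1
  have h2 := inv_injective h1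
  have h3 := zpow_inj hq hroot (m := ((2 * m : ℕ) : ℤ)) (n := ((2 * n : ℕ) : ℤ))
    (by rw [zpow_natCast, zpow_natCast, h2])
  omega

theorem yv_ne_zero (hq : q ≠ 0) (hx : x ≠ 0) (n : ℕ) : yv q x n ≠ 0 := by
  unfold yv
  exact mul_ne_zero hx (pow_ne_zero _ (pow_ne_zero _ (inv_ne_zero hq)))

/-- the vectors `f₀, …, f_d` are nonzero and `f_{d+1} = 0` -/
theorem Rels.tower (h : Rels q X Xi Y Z) (hx : x ≠ 0) (hv : v0 ≠ 0) (hY : Y v0 = x • v0)
    (h0 : nz q X Y v0 = 0) (hd : Module.finrank K V = d + 1)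
    (hirr : ∀ W : Submodule K V,
      (∀ w ∈ W, X w ∈ W ∧ Xi w ∈ W ∧ Y w ∈ W ∧ Z w ∈ W) → W = ⊥ ∨ W = ⊤) :
    (∀ n, n ≤ d → fv q Y Z v0 n ≠ 0) ∧ fv q Y Z v0 (d + 1) = 0 ∧
      LinearIndependent K (fun i : Fin (d + 1) => fv q Y Z v0 i) := by
  have hfd : FiniteDimensional K V := FiniteDimensional.of_finrank_pos (by omega)
  have hq := h.hq
  have hroot := h.hroot
  set f := fv q Y Z v0 with hf
  have hindep : ∀ N : ℕ, (∀ n, n < N → f n ≠ 0) → LinearIndependent K (fun i : Fin N => f i) := by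
    intro N hN
    refine Module.End.eigenvectors_linearIndependent' Y (fun i : Fin N => yv q x i)
      (fun i j hij => Fin.ext (yv_inj hq hroot hx hij)) _ fun i => ?_
    exact ⟨Module.End.mem_eigenspace_iff.2 (h.Y_fv hY i), hN i i.2⟩
  have hmono : ∀ n k, f n = 0 → f (n + k) = 0 := by
    intro n k hn
    induction k with
    | zero => exact hn
    | succ k ih =>
      rw [← add_assoc, hf, fv_succ, ← hf, ih, map_zero]
  have hex : ∃ n, f n = 0 := by
    by_contra hcon
    push Not at hcon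
    have h1 := hindep (d + 2) (fun n _ => hcon n)
    have h2 := h1.fintype_card_le_finrank
    rw [Fintype.card_fin, hd] at h2
    omega
  classical
  set N := Nat.find hex with hN
  have hfN : f N = 0 := Nat.find_spec hex
  have hlt : ∀ n, n < N → f n ≠ 0 := fun n hn => Nat.find_min hex hn
  have hNpos : 0 < N := by
    rcases Nat.eq_zero_or_pos N with h1 | h1
    · exfalso
      rw [h1] at hfN
      apply hv
      simpa [hf, fv] using hfN
    · exact h1
  have hyne := yv_ne_zero (q := q) hq hx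
  -- the span is invariant
  set W : Submodule K V := Submodule.span K (Set.range fun i : Fin N => f i) with hW
  have hmem : ∀ n, f n ∈ W := by
    intro n
    by_cases hn : n < N
    · exact Submodule.subset_span ⟨⟨n, hn⟩, rfl⟩
    · have h1 := hmono N (n - N) hfN
      rw [show N + (n - N) = n by omega] at h1
      rw [h1]
      exact W.zero_mem
  have hinv : ∀ T : End K V, (∀ n, T (f n) ∈ W) → ∀ w ∈ W, T w ∈ W := by
    intro T hT w hw
    refine Submodule.span_induction (p := fun w _ => T w ∈ W) ?_ ?_ ?_ ?_ hw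
    · rintro _ ⟨i, rfl⟩
      exact hT i
    · rw [map_zero]
      exact W.zero_mem
    · intro a b _ _ ha hb
      rw [map_add]
      exact W.add_mem ha hb
    · intro a b _ hb
      rw [map_smul]
      exact W.smul_mem _ hb
  have hdiv : ∀ (n : ℕ) (u : V), yv q x n • u ∈ W → u ∈ W := by
    intro n u hu
    have := W.smul_mem (yv q x n)⁻¹ hu
    rwa [smul_smul, inv_mul_cancel₀ (hyne n), one_smul] at this
  have hWX : ∀ w ∈ W, X w ∈ W := by
    refine hinv X fun n => ?_
    rcases n with - | n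
    · have h1 := h.X_fv0 hY h0
      have h2 : f 0 = v0 := by simp [hf, fv]
      apply hdiv 0
      rw [h2]
      unfold yv
      rw [pow_zero, mul_one, h1, ← h2]
      exact hmem 0
    · apply hdiv (n + 1)
      rw [h.X_fv hY h0 n]
      exact W.sub_mem (hmem _) (W.smul_mem _ (hmem _))
  have hWY : ∀ w ∈ W, Y w ∈ W := by
    refine hinv Y fun n => ?_
    rw [h.Y_fv hY n]
    exact W.smul_mem _ (hmem _)
  have hWZ : ∀ w ∈ W, Z w ∈ W := by
    refine hinv Z fun n => ?_
    apply hdiv n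
    rw [h.Z_fv hY n]
    exact W.sub_mem (hmem _) (W.smul_mem _ (hmem _))
  have hWXi : ∀ w ∈ W, Xi w ∈ W := by
    intro w hw
    have hXinj : Function.Injective (X.restrict hWX) := by
      intro a b hab
      have h1 := congrArg Subtype.val hab
      simp only [LinearMap.coe_restrict_apply] at h1
      have h2 := congrArg Xi h1
      rw [h.inv2, h.inv2] at h2
      exact Subtype.ext h2
    have hXsurj := LinearMap.injective_iff_surjective.1 hXinj
    obtain ⟨u, hu⟩ := hXsurj ⟨w, hw⟩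
    have h1 := congrArg Subtype.val hu
    simp only [LinearMap.coe_restrict_apply] at h1
    rw [← h1, h.inv2]
    exact u.2
  have htop : W = ⊤ := by
    rcases hirr W fun w hw => ⟨hWX w hw, hWXi w hw, hWY w hw, hWZ w hw⟩ with h1 | h1
    · exfalso
      have h2 := hmem 0
      rw [h1, Submodule.mem_bot] at h2
      exact hlt 0 hNpos h2
    · exact h1
  have hNd : N = d + 1 := by
    have h1 := hindep N hlt
    have h2 := finrank_span_eq_card h1
    rw [← hW, htop, finrank_top, hd, Fintype.card_fin] at h2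
    exact h2.symm
  refine ⟨fun n hn => hlt n (by omega), ?_, ?_⟩
  · rw [← hNd]
    exact hfN
  · exact hindep (d + 1) fun n hn => hlt n (by omega)

/-- normalising constants -/
noncomputable def gv (q : K) (n : ℕ) : K := ∏ k ∈ Finset.range n, (br q ((k : ℤ) + 1))⁻¹

theorem gv_succ (hq : q ≠ 0) (hroot : ∀ n : ℕ, 0 < n → q ^ n ≠ 1) (n : ℕ) :
    gv q (n + 1) * br q ((n : ℤ) + 1) = gv q n := by
  unfold gv
  rw [Finset.prod_range_succ, mul_assoc, inv_mul_cancel₀, mul_one]
  exact br_ne_zero hq hroot (by omega)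

theorem gv_ne_zero (hq : q ≠ 0) (hroot : ∀ n : ℕ, 0 < n → q ^ n ≠ 1) (n : ℕ) : gv q n ≠ 0 := by
  unfold gv
  refine Finset.prod_ne_zero_iff.2 fun k _ => inv_ne_zero (br_ne_zero hq hroot (by omega))

/-- the standard basis -/
noncomputable def ev (q : K) (Y Z : End K V) (v0 : V) (i : ℤ) : V :=
  if 0 ≤ i then gv q i.toNat • fv q Y Z v0 i.toNat else 0

theorem ev_nat (n : ℕ) : ev q Y Z v0 (n : ℤ) = gv q n • fv q Y Z v0 n := by
  unfold ev
  rw [if_pos (by positivity)]
  simp

theorem ev_neg {i : ℤ} (hi : i < 0) : ev q Y Z v0 i = 0 := by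
  unfold ev
  rw [if_neg (by omega)]

theorem Rels.exists_std (h : Rels q X Xi Y Z) (hd : Module.finrank K V = d + 1)
    (hirr : ∀ W : Submodule K V,
      (∀ w ∈ W, X w ∈ W ∧ Xi w ∈ W ∧ Y w ∈ W ∧ Z w ∈ W) → W = ⊥ ∨ W = ⊤) {A : End K V}
    {a0 a1 a2 a3 : K} (hA : A = a0 • 1 + a1 • X + a2 • Y + a3 • (X * Y)) {v : ℤ → V} {θ : ℤ → K}
    (Fv : Frame K d v) (hAv : ∀ i, A (v i) = θ i • v i)
    (hinj : ∀ i j : ℤ, 0 ≤ i → i ≤ d → 0 ≤ j → j ≤ d → θ i = θ j → i = j) :
    ∃ ε : K, ε * ε = 1 ∧ ∃ e : ℤ → V, Std d q (ε • X) (ε • Y) (ε • Z) e := by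
  have hfd : FiniteDimensional K V := FiniteDimensional.of_finrank_pos (by omega)
  have hq := h.hq
  have hroot := h.hroot
  obtain ⟨x, v0, hx, hv0, hY, h0⟩ := h.exists_vector hA Fv hAv hinj
  obtain ⟨hne, hzero, hindep⟩ := h.tower hx hv0 hY h0 hd hirr
  have hc : cv q x (d + 1) = 0 := by
    have h1 := h.nz_fv hY h0 d
    rw [hzero, map_zero] at h1
    exact (smul_eq_zero.1 h1.symm).resolve_right (hne d le_rfl)
  have hx2 : x ^ 2 * (q⁻¹ ^ 2) ^ d = 1 := by
    unfold cv at hc
    rcases mul_eq_zero.1 hc with h1 | h1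
    · exfalso
      have h2 : q ^ (2 * (d + 1)) = 1 := by
        have h3 : (q⁻¹ ^ 2) ^ (d + 1) = 1 := (sub_eq_zero.1 h1).symm
        rw [← pow_mul, inv_pow] at h3
        exact inv_eq_one.1 h3
      exact hroot _ (by omega) h2
    · have h2 : x ^ 2 * q ^ 2 * (q⁻¹ ^ 2) ^ (d + 1) = 1 := (sub_eq_zero.1 h1).symm
      have h3 : q⁻¹ ^ 2 * q ^ 2 = 1 := by rw [← mul_pow, inv_mul_cancel₀ hq, one_pow]
      rw [pow_succ] at h2
      linear_combination h2 - x ^ 2 * (q⁻¹ ^ 2) ^ d * h3
  set ε : K := x * q⁻¹ ^ d with hε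
  have hεε : ε * ε = 1 := by
    rw [← hx2, hε, ← pow_mul, mul_comm 2 d, pow_mul]
    ring
  have hss : ∀ n : ℕ, yv q x n * ss q d n = ε := by
    intro n
    unfold yv ss
    rw [hε, mul_assoc]
    congr 1
    rw [← pow_mul, inv_pow, inv_pow, ← zpow_natCast, ← zpow_natCast, ← zpow_neg, ← zpow_neg,
      ← zpow_add₀ hq]
    congr 1
    push_cast
    ring
  have hsy : ∀ n : ℕ, (ε * ss q d n) * yv q x n = 1 := by
    intro n
    rw [← hεε]
    linear_combination ε * hss n
  refine ⟨ε, hεε, ev q Y Z v0, ?_⟩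
  have hfr : Frame K d (ev q Y Z v0) := by
    refine Frame.of_indep hd (fun i hi => ?_) ?_
    · by_cases hi0 : 0 ≤ i
      · obtain ⟨n, rfl⟩ := Int.eq_ofNat_of_zero_le hi0
        rw [ev_nat]
        have h1 : ∀ k : ℕ, fv q Y Z v0 (d + 1 + k) = 0 := by
          intro k
          induction k with
          | zero => exact hzero
          | succ k ih => rw [← add_assoc, fv_succ, ih, map_zero]
        have h2 := h1 (n - (d + 1))
        rw [show d + 1 + (n - (d + 1)) = n by omega] at h2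
        rw [h2, smul_zero]
      · exact ev_neg (by omega)
    · have h1 := hindep.units_smul (fun i : Fin (d + 1) => Units.mk0 (gv q i) (gv_ne_zero hq hroot i))
      convert h1 using 1
      funext i
      exact ev_nat i
  refine ⟨hfr, fun i => ?_, fun i => ?_, fun i => ?_⟩
  · -- X
    by_cases hi0 : 0 ≤ i
    · obtain ⟨n, rfl⟩ := Int.eq_ofNat_of_zero_le hi0
      rw [ev_nat, LinearMap.smul_apply, map_smul]
      rcases n with - | n
      · rw [ev_neg (by norm_num), smul_zero, add_zero]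
        have h1 := h.X_fv0 hY h0
        have h2 : fv q Y Z v0 0 = v0 := by simp [fv]
        have h3 := hsy 0
        have h5 : yv q x 0 = x := by unfold yv; simp
        rw [h5] at h3
        have h4 : X v0 = (ε * ss q d (0 : ℕ)) • v0 := by
          nth_rw 2 [← h1]
          rw [smul_smul, h3, one_smul]
        rw [h2, h4, smul_smul, smul_smul, smul_smul]
        congr 1
        linear_combination (gv q 0 * ss q d (0 : ℕ)) * hεε
      · have h1 := h.X_fv hY h0 n
        have h4 : X (fv q Y Z v0 (n + 1)) = (ε * ss q d ((n + 1 : ℕ) : ℤ)) •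
            (fv q Y Z v0 (n + 1) - (q⁻¹ * cv q x (n + 1)) • fv q Y Z v0 n) := by
          rw [← h1, smul_smul, hsy (n + 1), one_smul]
        have h5 : (((n + 1 : ℕ) : ℤ)) - 1 = (n : ℤ) := by push_cast; ring
        rw [h5, ev_nat, h4, ← gv_succ hq hroot n]
        have h6 : br q ((d : ℤ) + 1 - ((n + 1 : ℕ) : ℤ)) * br q ((n : ℤ) + 1) =
            - (ss q d ((n + 1 : ℕ) : ℤ) * (q⁻¹ * cv q x (n + 1))) := by
          unfold br ss cv
          have hx2' : x ^ 2 = q ^ (2 * (d : ℤ)) := by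
            have e1 : q ^ (2 * (d : ℤ)) * (q⁻¹ ^ 2) ^ d = 1 := by
              rw [← pow_mul, inv_pow, ← zpow_natCast, ← zpow_neg, ← zpow_add₀ hq]
              push_cast
              rw [show 2 * (d : ℤ) + -(2 * d) = 0 by ring, zpow_zero]
            have e2 : (q⁻¹ ^ 2) ^ d ≠ 0 := pow_ne_zero _ (pow_ne_zero _ (inv_ne_zero hq))
            apply mul_right_cancel₀ e2
            rw [hx2, e1]
          rw [hx2']
          have e3 : (q⁻¹ ^ 2) ^ (n + 1) = q ^ (-(2 * (n : ℤ) + 2)) := by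
            rw [← pow_mul, inv_pow, ← zpow_natCast, ← zpow_neg]
            congr 1
          rw [e3]
          have hd' : q ^ (d : ℤ) ≠ 0 := zpow_ne_zero _ hq
          have hn' : q ^ (n : ℤ) ≠ 0 := zpow_ne_zero _ hq
          have f1 : q ^ ((d : ℤ) + 1 - ((n + 1 : ℕ) : ℤ)) = q ^ (d : ℤ) / q ^ (n : ℤ) := by
            rw [← zpow_sub₀ hq]
            congr 1
            push_cast
            ring
          have f2 : q ^ (-((d : ℤ) + 1 - ((n + 1 : ℕ) : ℤ))) = q ^ (n : ℤ) / q ^ (d : ℤ) := by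
            rw [← zpow_sub₀ hq]
            congr 1
            push_cast
            ring
          have f3 : q ^ ((n : ℤ) + 1) = q ^ (n : ℤ) * q := by
            rw [zpow_add_one₀ hq]
          have f4 : q ^ (-((n : ℤ) + 1)) = (q ^ (n : ℤ) * q)⁻¹ := by
            rw [zpow_neg, f3]
          have f5 : q ^ (2 * (((n + 1 : ℕ) : ℤ)) - (d : ℤ)) =
              (q ^ (n : ℤ) * q) ^ 2 / q ^ (d : ℤ) := by
            rw [← f3, zpow_sub₀ hq, ← zpow_natCast, ← zpow_mul]
            congr 2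
            push_cast
            ring
          have f6 : q ^ (-(2 * (n : ℤ) + 2)) = ((q ^ (n : ℤ) * q) ^ 2)⁻¹ := by
            rw [← f3, zpow_neg, ← zpow_natCast, ← zpow_mul]
            congr 2
            push_cast
            ring
          have f7 : q ^ (2 * (d : ℤ)) = (q ^ (d : ℤ)) ^ 2 := by
            rw [← zpow_natCast, ← zpow_mul]
            congr 1
            push_cast
            ring
          rw [f1, f2, f3, f4, f5, f6, f7]
          generalize q ^ (d : ℤ) = D at *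
          generalize q ^ (n : ℤ) = N at *
          field_simp
          ring
        have h7 : br q ((d : ℤ) + 1 - ((n + 1 : ℕ) : ℤ)) * (gv q (n + 1) * br q ((n : ℤ) + 1)) =
            - (gv q (n + 1) * (ss q d ((n + 1 : ℕ) : ℤ) * (q⁻¹ * cv q x (n + 1)))) := by
          linear_combination gv q (n + 1) * h6
        rw [smul_smul (br q _), h7]
        generalize ss q d ((n + 1 : ℕ) : ℤ) = S
        match_scalars
        · linear_combination (gv q (n + 1) * S) * hεε
        · linear_combination (-gv q (n + 1) * S * (q⁻¹ * cv q x (n + 1))) * hεε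
    · rw [ev_neg (by omega), ev_neg (i := i - 1) (by omega)]
      simp
  · -- Y
    by_cases hi0 : 0 ≤ i
    · obtain ⟨n, rfl⟩ := Int.eq_ofNat_of_zero_le hi0
      rw [ev_nat, LinearMap.smul_apply, map_smul, h.Y_fv hY, smul_smul, smul_smul, smul_smul]
      congr 1
      have h1 := ss_ne_zero hq d n
      have h2 := hss n
      field_simp
      linear_combination gv q n * ε * h2 + gv q n * hεε
    · rw [ev_neg (by omega)]
      simp
  · -- Z
    by_cases hi0 : 0 ≤ i
    · obtain ⟨n, rfl⟩ := Int.eq_ofNat_of_zero_le hi0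
      have h1 := h.Z_fv hY n
      have h4 : Z (fv q Y Z v0 n) = (ε * ss q d (n : ℤ)) •
          (fv q Y Z v0 n - q • fv q Y Z v0 (n + 1)) := by
        rw [← h1, smul_smul, hsy n, one_smul]
      have h5 : ((n : ℤ)) + 1 = ((n + 1 : ℕ) : ℤ) := by push_cast; ring
      have h6 := gv_succ hq hroot n
      rw [h5] at h6
      rw [ev_nat, LinearMap.smul_apply, map_smul, h4, h5, ev_nat]
      generalize br q ((n + 1 : ℕ) : ℤ) = B at h6 ⊢
      match_scalars
      · linear_combination (gv q n * ss q d (n : ℤ)) * hεε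
      · linear_combination (-gv q n * ss q d (n : ℤ) * q) * hεε + (q * ss q d (n : ℤ)) * h6
    · by_cases hi1 : i + 1 < 0
      · rw [ev_neg (by omega), ev_neg hi1]
        simp
      · have hi2 : i + 1 = 0 := by omega
        rw [ev_neg (by omega), hi2, br_zero]
        simp

end tower

end module

end Pool.LT
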