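import Mathlib
import Pool.Agent.Work.MP_a7ee28_al_h73.Mod
import Pool.Agent.Work.MP_a7ee28_al_h73.Comp

/-!
# The split form of the pair, and the maps `C₁`, `C₂`
-/

set_option autoImplicit false

namespace Pool.LT

open Module

universe u v

variable {K : Type u} {V : Type v} [Field K] [AddCommGroup V] [Module K V]

/-- `q^(d+1) + q^(-d-1)` -/
def QQ (q : K) (d : ℕ) : K := q ^ ((d : ℤ) + 1) + q ^ (-((d : ℤ) + 1))

/-- `φ(t) = (Q - t - 1/t)(τ - x₁y₁ t - x₂y₂/t)` -/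
def ph (Q τ x1 x2 y1 y2 t : K) : K := (Q - t - t⁻¹) * (τ - x1 * y1 * t - x2 * y2 * t⁻¹)

/-- split form -/
structure SD (d : ℕ) (q x1 x2 y1 y2 τ : K) (a b : ℤ → K) (e : ℤ → V) (A B : End K V) : Prop where
  hq : q ≠ 0
  hroot : ∀ n : ℕ, 0 < n → q ^ n ≠ 1
  frame : Frame K d e
  hA : ∀ i, A (e i) = (x1 * ss q d i + x2 * (ss q d i)⁻¹) • e i + a i • e (i - 1)
  hB : ∀ i, B (e i) = (y1 * ss q d i + y2 * (ss q d i)⁻¹) • e i + b (i + 1) • e (i + 1)
  hab : ∀ i, a i * b i = ph (QQ q d) τ x1 x2 y1 y2 (ss q d i / q)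
  ha : ∀ i : ℤ, 1 ≤ i → i ≤ d → a i ≠ 0
  hb : ∀ i : ℤ, 1 ≤ i → i ≤ d → b i ≠ 0

theorem ss_rev {q : K} (d : ℕ) (i : ℤ) : ss q d (d - i) = (ss q d i)⁻¹ := by
  unfold ss
  rw [← zpow_neg]
  congr 1
  ring

section

variable {d : ℕ} {q x1 x2 y1 y2 τ : K} {a b : ℤ → K} {e : ℤ → V} {A B : End K V}

/-- reversal exchanges the roles of `A` and `B` -/
theorem SD.rev (h : SD d q x1 x2 y1 y2 τ a b e A B) :
    SD d q y2 y1 x2 x1 τ (fun i => b (d + 1 - i)) (fun i => a (d + 1 - i)) (fun i => e (d - i))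
      B A := by
  have hq := h.hq
  refine ⟨h.hq, h.hroot, h.frame.rev, fun i => ?_, fun i => ?_, fun i => ?_, fun i h1 h2 => ?_,
    fun i h1 h2 => ?_⟩
  · rw [h.hB, ss_rev, inv_inv, show (d : ℤ) - i + 1 = d + 1 - i by ring,
      show (d : ℤ) + 1 - i = d - (i - 1) by ring]
    congr 2
    ring
  · rw [h.hA, ss_rev, inv_inv, show (d : ℤ) + 1 - (i + 1) = d - i by ring,
      show (d : ℤ) - i - 1 = d - (i + 1) by ring]
    congr 2
    ring
  · have h1 := h.hab (d + 1 - i)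
    have h2 : ss q d (d + 1 - i) / q = (ss q d i / q)⁻¹ := by
      rw [show (d : ℤ) + 1 - i = d - (i - 1) by ring, ss_rev, ss_pred hq]
      field_simp
    rw [h2] at h1
    rw [mul_comm, h1]
    unfold ph
    rw [inv_inv]
    ring
  · exact h.hb _ (by omega) (by omega)
  · exact h.ha _ (by omega) (by omega)

/-- the constant in `C₁` and `C₂` -/
def kap (d : ℕ) (q x1 x2 y1 y2 τ : K) : K :=
  -(q - q⁻¹) * (τ * QQ q d + (x1 + x2) * (y1 + y2))

/-- the first solution -/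
noncomputable def C1 (d : ℕ) (q x1 x2 y1 y2 τ : K) (A B : End K V) : End K V :=
  q • (A * B) - q⁻¹ • (B * A) + kap d q x1 x2 y1 y2 τ • 1

/-- the second solution -/
noncomputable def C2 (d : ℕ) (q x1 x2 y1 y2 τ : K) (A B : End K V) : End K V :=
  q • (B * A) - q⁻¹ • (A * B) + kap d q x1 x2 y1 y2 τ • 1

theorem C1_rev : C1 d q y2 y1 x2 x1 τ B A = C2 d q x1 x2 y1 y2 τ A B := by
  unfold C1 C2 kap
  rw [show (y2 + y1) * (x2 + x1) = (x1 + x2) * (y1 + y2) by ring]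

theorem C2_rev : C2 d q y2 y1 x2 x1 τ B A = C1 d q x1 x2 y1 y2 τ A B := by
  unfold C1 C2 kap
  rw [show (y2 + y1) * (x2 + x1) = (x1 + x2) * (y1 + y2) by ring]

/-- `[2] = q² - q⁻²` -/
def b2 (q : K) : K := q ^ 2 - q⁻¹ ^ 2

theorem C1_apply (h : SD d q x1 x2 y1 y2 τ a b e A B) (i : ℤ) :
    C1 d q x1 x2 y1 y2 τ A B (e i) =
      (b2 q * y1 * (ss q d i / q) * a i) • e (i - 1) +
      (b2 q * (q + q⁻¹) * x1 * y1 * ss q d i ^ 2 -
        b2 q * (τ + QQ q d * (x1 * y1)) * ss q d i) • e i +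
      (b2 q * x1 * (q * ss q d i) * b (i + 1)) • e (i + 1) := by
  have hq := h.hq
  have hs := ss_ne_zero hq d i
  have h1 := h.hab i
  have h2 := h.hab (i + 1)
  rw [ss_succ hq] at h2
  unfold C1 kap b2
  simp only [LinearMap.add_apply, LinearMap.sub_apply, LinearMap.smul_apply,
    Module.End.mul_apply, Module.End.one_apply, h.hA, h.hB, map_add, map_smul, sub_add_cancel,
    add_sub_cancel_right, ss_succ hq, ss_pred hq]
  unfold ph at h1 h2
  generalize ss q d i = s at *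
  generalize QQ q d = Q at *
  match_scalars
  · linear_combination (norm := skip) q * h2 - q⁻¹ * h1
    field_simp
    ring
  · field_simp
    ring
  · field_simp
    ring

theorem C2_apply (h : SD d q x1 x2 y1 y2 τ a b e A B) (i : ℤ) :
    C2 d q x1 x2 y1 y2 τ A B (e i) =
      (b2 q * y2 * (q / ss q d i) * a i) • e (i - 1) +
      (b2 q * (q + q⁻¹) * x2 * y2 * (ss q d i)⁻¹ ^ 2 -
        b2 q * (τ + QQ q d * (x2 * y2)) * (ss q d i)⁻¹) • e i +
      (b2 q * x2 * (q * ss q d i)⁻¹ * b (i + 1)) • e (i + 1) := by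
  have h1 := C1_apply h.rev (d - i)
  rw [C1_rev] at h1
  simp only [ss_rev] at h1
  rw [show (d : ℤ) - (d - i) = i by ring, show (d : ℤ) - (d - i - 1) = i + 1 by ring,
    show (d : ℤ) - (d - i + 1) = i - 1 by ring, show (d : ℤ) + 1 - (d - i) = i + 1 by ring,
    show (d : ℤ) + 1 - (d - i + 1) = i by ring] at h1
  rw [h1]
  have hq := h.hq
  have hs := ss_ne_zero hq d i
  match_scalars <;> field_simp

end

end Pool.LT
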