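import Mathlib
import Pool.Agent.Work.MP_a7ee28_al_h73.Split

/-!
# Solving the linear relations
-/

set_option autoImplicit false

namespace Pool.LT

open Module

universe u v

section scalars

variable {K : Type u} [Field K] {q : K}

theorem rec_sol (hq : q ≠ 0) (h4 : q ^ 4 ≠ 1) {S f : ℤ → K} (hS : ∀ i, S (i + 1) = q ^ 2 * S i)
    (hS0 : ∀ i, S i ≠ 0) {n N : ℤ}
    (hf : ∀ i, n + 2 ≤ i → i ≤ N → f i - (q ^ 2 + q⁻¹ ^ 2) * f (i - 1) + f (i - 2) = 0) :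
    ∃ c1 c2 : K, ∀ i, n ≤ i → i ≤ N → f i = c1 * S i + c2 * (S i)⁻¹ := by
  have hδ : q ^ 4 - 1 ≠ 0 := sub_ne_zero.2 h4
  have hs := hS0 n
  refine ⟨(q ^ 2 * f (n + 1) - f n) / (S n * (q ^ 4 - 1)),
    S n * q ^ 2 * (q ^ 2 * f n - f (n + 1)) / (q ^ 4 - 1), ?_⟩
  set c1 := (q ^ 2 * f (n + 1) - f n) / (S n * (q ^ 4 - 1)) with hc1
  set c2 := S n * q ^ 2 * (q ^ 2 * f n - f (n + 1)) / (q ^ 4 - 1) with hc2
  have hb : ∀ k : ℕ, (n + (k : ℤ) ≤ N → f (n + k) = c1 * S (n + k) + c2 * (S (n + k))⁻¹) ∧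
      (n + (k : ℤ) + 1 ≤ N → f (n + k + 1) = c1 * S (n + k + 1) + c2 * (S (n + k + 1))⁻¹) := by
    intro k
    induction k with
    | zero =>
      simp only [Nat.cast_zero, add_zero]
      refine ⟨fun _ => ?_, fun _ => ?_⟩
      · rw [hc1, hc2]
        field_simp
        ring
      · rw [hS n, hc1, hc2]
        field_simp
        ring
    | succ k ih =>
      have e1 : n + ((k + 1 : ℕ) : ℤ) = n + k + 1 := by push_cast; ring
      rw [e1]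
      refine ⟨ih.2, fun hk => ?_⟩
      have h1 := ih.1 (by omega)
      have h2 := ih.2 (by omega)
      have h3 := hf (n + k + 1 + 1) (by omega) hk
      rw [show n + (k : ℤ) + 1 + 1 - 1 = n + k + 1 by ring,
        show n + (k : ℤ) + 1 + 1 - 2 = n + k by ring, h1, h2, hS (n + k)] at h3
      rw [hS (n + k + 1), hS (n + k)]
      have hk0 := hS0 (n + k)
      have h4 : f (n + k + 1 + 1) = (q ^ 2 + q⁻¹ ^ 2) * (c1 * (q ^ 2 * S (n + k)) +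
          c2 * (q ^ 2 * S (n + k))⁻¹) - (c1 * S (n + k) + c2 * (S (n + k))⁻¹) := by
        linear_combination h3
      rw [h4]
      field_simp
      ring
  intro i h1 h2
  have h3 := (hb (i - n).toNat).1 (by omega)
  rw [show n + (((i - n).toNat : ℕ) : ℤ) = i by omega] at h3
  exact h3

theorem van3 (hq : q ≠ 0) (h4 : q ^ 4 ≠ 1) (h8 : q ^ 8 ≠ 1) {s A B C : K} (hs : s ≠ 0)
    (E1 : A * s ^ 2 + B + C * s⁻¹ ^ 2 = 0)
    (E2 : A * (q ^ 2 * s) ^ 2 + B + C * (q ^ 2 * s)⁻¹ ^ 2 = 0)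
    (E3 : A * (q ^ 2 * (q ^ 2 * s)) ^ 2 + B + C * (q ^ 2 * (q ^ 2 * s))⁻¹ ^ 2 = 0) :
    A = 0 ∧ C = 0 := by
  have h4' : q ^ 4 - 1 ≠ 0 := sub_ne_zero.2 h4
  have h8' : q ^ 8 - 1 ≠ 0 := sub_ne_zero.2 h8
  have e1 : A * s ^ 4 * q ^ 4 - C = 0 := by
    have h1 : (q ^ 4 - 1) * (A * s ^ 4 * q ^ 4 - C) = 0 := by
      have h2 : (A * s ^ 2 + B + C * s⁻¹ ^ 2 - (A * (q ^ 2 * s) ^ 2 + B + C * (q ^ 2 * s)⁻¹ ^ 2)) *
          (-(s ^ 2 * q ^ 4)) = 0 := by rw [E1, E2]; ring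
      rw [← h2]
      field_simp
      ring
    exact (mul_eq_zero.1 h1).resolve_left h4'
  have e2 : A * s ^ 4 * q ^ 12 - C = 0 := by
    have h1 : (q ^ 4 - 1) * (A * s ^ 4 * q ^ 12 - C) = 0 := by
      have h2 : (A * (q ^ 2 * s) ^ 2 + B + C * (q ^ 2 * s)⁻¹ ^ 2 -
          (A * (q ^ 2 * (q ^ 2 * s)) ^ 2 + B + C * (q ^ 2 * (q ^ 2 * s))⁻¹ ^ 2)) *
          (-(s ^ 2 * q ^ 8)) = 0 := by rw [E2, E3]; ring
      rw [← h2]
      field_simp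
      ring
    exact (mul_eq_zero.1 h1).resolve_left h4'
  have hA : A = 0 := by
    have h1 : (s ^ 4 * q ^ 4 * (q ^ 8 - 1)) * A = 0 := by linear_combination e2 - e1
    exact (mul_eq_zero.1 h1).resolve_left
      (mul_ne_zero (mul_ne_zero (pow_ne_zero _ hs) (pow_ne_zero _ hq)) h8')
  refine ⟨hA, ?_⟩
  rw [hA] at e1
  linear_combination -e1

theorem van4 (hq : q ≠ 0) (h2 : q ^ 2 ≠ 1) (h4 : q ^ 4 ≠ 1) (h6 : q ^ 6 ≠ 1) (h8 : q ^ 8 ≠ 1)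
    {s A B C D : K} (hs : s ≠ 0)
    (E0 : A * s ^ 2 + B * s + C * s⁻¹ + D * s⁻¹ ^ 2 = 0)
    (E1 : A * (q ^ 2 * s) ^ 2 + B * (q ^ 2 * s) + C * (q ^ 2 * s)⁻¹ + D * (q ^ 2 * s)⁻¹ ^ 2 = 0)
    (E2 : A * (q ^ 4 * s) ^ 2 + B * (q ^ 4 * s) + C * (q ^ 4 * s)⁻¹ + D * (q ^ 4 * s)⁻¹ ^ 2 = 0)
    (E3 : A * (q ^ 6 * s) ^ 2 + B * (q ^ 6 * s) + C * (q ^ 6 * s)⁻¹ + D * (q ^ 6 * s)⁻¹ ^ 2 = 0) :
    A = 0 ∧ B = 0 ∧ C = 0 ∧ D = 0 := by
  have h2' : q ^ 2 - 1 ≠ 0 := sub_ne_zero.2 h2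
  have h4' : q ^ 4 - 1 ≠ 0 := sub_ne_zero.2 h4
  have h6' : q ^ 6 - 1 ≠ 0 := sub_ne_zero.2 h6
  have h8' : q ^ 8 - 1 ≠ 0 := sub_ne_zero.2 h8
  have e1 : A * s ^ 4 * q ^ 8 + D = 0 := by
    have h1 : ((q ^ 2 - 1) * (q ^ 6 - 1)) * (A * s ^ 4 * q ^ 8 + D) = 0 := by
      have h3 : (A * s ^ 2 + B * s + C * s⁻¹ + D * s⁻¹ ^ 2 - (q ^ 2 + q⁻¹ ^ 2) *
          (A * (q ^ 2 * s) ^ 2 + B * (q ^ 2 * s) + C * (q ^ 2 * s)⁻¹ + D * (q ^ 2 * s)⁻¹ ^ 2) +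
          (A * (q ^ 4 * s) ^ 2 + B * (q ^ 4 * s) + C * (q ^ 4 * s)⁻¹ + D * (q ^ 4 * s)⁻¹ ^ 2)) *
          (s ^ 2 * q ^ 8) = 0 := by rw [E0, E1, E2]; ring
      rw [← h3]
      field_simp
      ring
    exact (mul_eq_zero.1 h1).resolve_left (mul_ne_zero h2' h6')
  have e2 : A * s ^ 4 * q ^ 16 + D = 0 := by
    have h1 : ((q ^ 2 - 1) * (q ^ 6 - 1)) * (A * s ^ 4 * q ^ 16 + D) = 0 := by
      have h3 : (A * (q ^ 2 * s) ^ 2 + B * (q ^ 2 * s) + C * (q ^ 2 * s)⁻¹ +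
          D * (q ^ 2 * s)⁻¹ ^ 2 - (q ^ 2 + q⁻¹ ^ 2) *
          (A * (q ^ 4 * s) ^ 2 + B * (q ^ 4 * s) + C * (q ^ 4 * s)⁻¹ + D * (q ^ 4 * s)⁻¹ ^ 2) +
          (A * (q ^ 6 * s) ^ 2 + B * (q ^ 6 * s) + C * (q ^ 6 * s)⁻¹ + D * (q ^ 6 * s)⁻¹ ^ 2)) *
          (s ^ 2 * q ^ 12) = 0 := by rw [E1, E2, E3]; ring
      rw [← h3]
      field_simp
      ring
    exact (mul_eq_zero.1 h1).resolve_left (mul_ne_zero h2' h6')
  have hA : A = 0 := by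
    have h1 : (s ^ 4 * q ^ 8 * (q ^ 8 - 1)) * A = 0 := by linear_combination e2 - e1
    exact (mul_eq_zero.1 h1).resolve_left
      (mul_ne_zero (mul_ne_zero (pow_ne_zero _ hs) (pow_ne_zero _ hq)) h8')
  have hD : D = 0 := by
    rw [hA] at e1
    linear_combination e1
  rw [hA, hD] at E0 E1
  have e3 : B * s ^ 2 + C = 0 := by
    have h1 : (B * s ^ 2 + C) = (0 * s ^ 2 + B * s + C * s⁻¹ + 0 * s⁻¹ ^ 2) * s := by
      field_simp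
      ring
    rw [h1, E0, zero_mul]
  have e4 : B * s ^ 2 * q ^ 4 + C = 0 := by
    have h1 : (B * s ^ 2 * q ^ 4 + C) = (0 * (q ^ 2 * s) ^ 2 + B * (q ^ 2 * s) +
        C * (q ^ 2 * s)⁻¹ + 0 * (q ^ 2 * s)⁻¹ ^ 2) * (q ^ 2 * s) := by
      field_simp
      ring
    rw [h1, E1, zero_mul]
  have hB : B = 0 := by
    have h1 : (s ^ 2 * (q ^ 4 - 1)) * B = 0 := by linear_combination e4 - e3
    exact (mul_eq_zero.1 h1).resolve_left (mul_ne_zero (pow_ne_zero _ hs) h4')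
  refine ⟨hA, hB, ?_, hD⟩
  rw [hB] at e3
  linear_combination e3

theorem cross {x y τ p r m : K} (hne : ¬ (x = 0 ∧ y = 0 ∧ τ = 0)) (h1 : p * y = r * x)
    (h2 : p * τ + m * x = 0) (h3 : r * τ + m * y = 0) :
    ∃ s : K, p = s * x ∧ r = s * y ∧ m = -(s * τ) := by
  by_cases hx : x = 0
  · by_cases hy : y = 0
    · have hτ : τ ≠ 0 := fun h => hne ⟨hx, hy, h⟩
      refine ⟨-m / τ, ?_, ?_, ?_⟩
      · rw [hx] at h2 ⊢
        have : p * τ = 0 := by linear_combination h2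
        rw [(mul_eq_zero.1 this).resolve_right hτ]
        ring
      · rw [hy] at h3 ⊢
        have : r * τ = 0 := by linear_combination h3
        rw [(mul_eq_zero.1 this).resolve_right hτ]
        ring
      · field_simp
    · refine ⟨r / y, ?_, ?_, ?_⟩
      · rw [hx] at h1 ⊢
        have : p * y = 0 := by linear_combination h1
        rw [(mul_eq_zero.1 this).resolve_right hy]
        ring
      · field_simp
      · field_simp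
        linear_combination h3
  · refine ⟨p / x, ?_, ?_, ?_⟩
    · field_simp
    · field_simp
      linear_combination -h1
    · field_simp
      linear_combination h2

end scalars

end Pool.LT
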