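import Mathlib
import Pool.Agent.Work.MP_a7ee28_al_h73.Seq

/-!
# Tridiagonal solutions of the linear relations with `A` and `B`
-/

set_option autoImplicit false

namespace Pool.LT

open Module

universe u v

variable {K : Type u} {V : Type v} [Field K] [AddCommGroup V] [Module K V]

/-- tridiagonal action -/
def Tri (e : ℤ → V) (M : End K V) (u m l : ℤ → K) : Prop :=
  ∀ i, M (e i) = u i • e (i - 1) + m i • e i + l (i + 1) • e (i + 1)

theorem Tri.rev {e : ℤ → V} {M : End K V} {u m l : ℤ → K} (d : ℕ) (h : Tri e M u m l) :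
    Tri (fun i => e (d - i)) M (fun i => l (d + 1 - i)) (fun i => m (d - i))
      (fun i => u (d + 1 - i)) := by
  intro i
  rw [h]
  beta_reduce
  rw [show (d : ℤ) - i + 1 = d + 1 - i by ring, show (d : ℤ) + 1 - (i + 1) = d - i by ring,
    show (d : ℤ) - (i - 1) = d + 1 - i by ring, show (d : ℤ) - (i + 1) = d - i - 1 by ring]
  abel

/-- the relation of degree two in `A` -/
def RelA (q : K) (A M : End K V) (ρ g w c : K) : Prop :=
  A * A * M - (q ^ 2 + q⁻¹ ^ 2) • (A * M * A) + M * A * A =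
    ρ • M + g • (A * A) + w • A + c • 1

section

variable {d : ℕ} {q x1 x2 y1 y2 τ : K} {a b : ℤ → K} {e : ℤ → V} {A B M : End K V}
  {u m l : ℤ → K} {ρ g w c : K}

theorem two_sub_ne (hq : q ≠ 0) (h2 : q ^ 2 ≠ 1) : 2 - (q ^ 2 + q⁻¹ ^ 2) ≠ 0 := by
  intro h
  have h1 : (q ^ 2 - 1) ^ 2 = 0 := by
    have : (q ^ 2 - 1) ^ 2 = -(2 - (q ^ 2 + q⁻¹ ^ 2)) * q ^ 2 := by
      field_simp
      ring
    rw [this, h]
    ring
  exact h2 (sub_eq_zero.1 (pow_eq_zero_iff two_ne_zero |>.1 h1))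

theorem qq_ne (hq : q ≠ 0) (h4 : q ^ 4 ≠ 1) : q + q⁻¹ ≠ 0 := by
  intro h
  apply h4
  have h1 : q ^ 2 = -1 := by
    have : q ^ 2 + 1 = (q + q⁻¹) * q := by field_simp
    rw [h, zero_mul] at this
    linear_combination this
  calc q ^ 4 = (q ^ 2) ^ 2 := by ring
    _ = 1 := by rw [h1]; ring

theorem A1 (h : SD d q x1 x2 y1 y2 τ a b e A B) (hM : Tri e M u m l)
    (hrel : RelA q A M ρ g w c) :
    ∃ r1 r2 mp mm : K,
      (∀ i : ℤ, 1 ≤ i → i ≤ d → u i = a i * (r1 * (ss q d i / q) + r2 * (ss q d i / q)⁻¹)) ∧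
      (∀ i : ℤ, 0 ≤ i → i ≤ d → m i = g / (2 - (q ^ 2 + q⁻¹ ^ 2)) +
        (q + q⁻¹) * (r1 * x1 * ss q d i ^ 2 + r2 * x2 * (ss q d i)⁻¹ ^ 2) +
        mp * ss q d i + mm * (ss q d i)⁻¹) := by
  have hq := h.hq
  have h2 := h.hroot 2 (by norm_num)
  have h4 := h.hroot 4 (by norm_num)
  have hβ := two_sub_ne hq h2
  obtain ⟨r1, r2, hr⟩ := rec_sol hq h4 (S := fun i => ss q d i / q) (f := fun i => u i / a i)
    (n := 1) (N := d) (fun i => by simp only [ss_succ hq]; ring)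
    (fun i => div_ne_zero (ss_ne_zero hq d i) hq)
    (fun i h1 h3 => band3 h.frame h.hA hM hrel (by omega) h3 (h.ha i (by omega) h3)
      (h.ha (i - 1) (by omega) (by omega)) (h.ha (i - 2) (by omega) (by omega)))
  set G := g / (2 - (q ^ 2 + q⁻¹ ^ 2)) with hG
  have hG' : g = G * (2 - (q ^ 2 + q⁻¹ ^ 2)) := by
    rw [hG, div_mul_cancel₀ _ hβ]
  obtain ⟨mp, mm, hm⟩ := rec_sol hq h4 (S := fun i => ss q d i)
    (f := fun i => m i - G - (q + q⁻¹) * (r1 * x1 * ss q d i ^ 2 + r2 * x2 * (ss q d i)⁻¹ ^ 2))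
    (n := 0) (N := d) (fun i => ss_succ hq d i) (fun i => ss_ne_zero hq d i) (by
      intro i h1 h3
      have hb := band2 h.frame h.hA hM hrel (i := i) (by omega) h3 (h.ha i (by omega) h3)
        (h.ha (i - 1) (by omega) (by omega))
      have e1 := hr i (by omega) h3
      have e2 := hr (i - 1) (by omega) (by omega)
      rw [e1, e2, hG'] at hb
      rw [show i - 2 = i - 1 - 1 by ring] at hb ⊢
      simp only [ss_pred hq] at hb ⊢
      have hs := ss_ne_zero hq d i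
      generalize ss q d i = s at *
      linear_combination (norm := skip) hb
      field_simp
      ring)
  refine ⟨r1, r2, mp, mm, fun i h1 h3 => ?_, fun i h1 h3 => ?_⟩
  · have := hr i h1 h3
    have ha := h.ha i h1 h3
    rw [← this]
    field_simp
  · have := hm i h1 h3
    linear_combination this

/-- the shape of a solution -/
structure Sol (d : ℕ) (q x1 x2 y1 y2 G r1 r2 p1 p2 mp mm : K) (a b u m l : ℤ → K) : Prop where
  hu : ∀ i : ℤ, 1 ≤ i → i ≤ d → u i = a i * (r1 * (ss q d i / q) + r2 * (ss q d i / q)⁻¹)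
  hl : ∀ i : ℤ, 1 ≤ i → i ≤ d → l i = b i * (p1 * (ss q d i / q) + p2 * (ss q d i / q)⁻¹)
  hm : ∀ i : ℤ, 0 ≤ i → i ≤ d → m i = G +
    (q + q⁻¹) * (r1 * x1 * ss q d i ^ 2 + r2 * x2 * (ss q d i)⁻¹ ^ 2) +
    mp * ss q d i + mm * (ss q d i)⁻¹
  e1 : r1 * x1 = p1 * y1
  e2 : r2 * x2 = p2 * y2

theorem ss_flip (hq : q ≠ 0) (i : ℤ) : ss q d (d + 1 - i) / q = (ss q d i / q)⁻¹ := by
  rw [show (d : ℤ) + 1 - i = d - (i - 1) by ring, ss_rev, ss_pred hq]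
  field_simp

theorem Sol.rev {G r1 r2 p1 p2 mp mm : K} (hq : q ≠ 0)
    (h : Sol d q x1 x2 y1 y2 G r1 r2 p1 p2 mp mm a b u m l) :
    Sol d q y2 y1 x2 x1 G p2 p1 r2 r1 mm mp (fun i => b (d + 1 - i)) (fun i => a (d + 1 - i))
      (fun i => l (d + 1 - i)) (fun i => m (d - i)) (fun i => u (d + 1 - i)) := by
  refine ⟨fun i h1 h2 => ?_, fun i h1 h2 => ?_, fun i h1 h2 => ?_, h.e2.symm, h.e1.symm⟩
  · rw [h.hl _ (by omega) (by omega), ss_flip hq, inv_inv]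
    ring
  · rw [h.hu _ (by omega) (by omega), ss_flip hq, inv_inv]
    ring
  · rw [h.hm _ (by omega) (by omega), ss_rev, inv_inv]
    linear_combination (q + q⁻¹) * (ss q d i)⁻¹ ^ 2 * h.e1 + (q + q⁻¹) * ss q d i ^ 2 * h.e2

theorem exists_sol (hd : 3 ≤ d) (h : SD d q x1 x2 y1 y2 τ a b e A B) (hM : Tri e M u m l)
    (hA : RelA q A M ρ g w c) {ρ' w' c' : K} (hB : RelA q B M ρ' g w' c') :
    ∃ r1 r2 p1 p2 mp mm : K,
      Sol d q x1 x2 y1 y2 (g / (2 - (q ^ 2 + q⁻¹ ^ 2))) r1 r2 p1 p2 mp mm a b u m l := by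
  have hq := h.hq
  have h2 := h.hroot 2 (by norm_num)
  have h4 := h.hroot 4 (by norm_num)
  have h6 := h.hroot 6 (by norm_num)
  have h8 := h.hroot 8 (by norm_num)
  have hQ := qq_ne hq h4
  obtain ⟨r1, r2, mp, mm, hu, hm⟩ := A1 h hM hA
  obtain ⟨s1, s2, np, nm, hl, hn⟩ := A1 h.rev (hM.rev d) hB
  have key : ∀ i : ℤ, 0 ≤ i → i ≤ d →
      ((q + q⁻¹) * (r1 * x1 - s2 * y1)) * ss q d i ^ 2 + (mp - nm) * ss q d i +
      (mm - np) * (ss q d i)⁻¹ + ((q + q⁻¹) * (r2 * x2 - s1 * y2)) * (ss q d i)⁻¹ ^ 2 = 0 := by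
    intro i h0 h1
    have e1 := hm i h0 h1
    have e2 := hn (d - i) (by omega) (by omega)
    beta_reduce at e2
    rw [show (d : ℤ) - (d - i) = i by ring, ss_rev, inv_inv] at e2
    linear_combination e2 - e1
  have k0 := key 0 (by omega) (by omega)
  have k1 := key 1 (by omega) (by omega)
  have k2 := key 2 (by omega) (by omega)
  have k3 := key 3 (by omega) (by omega)
  have t1 : ss q d 1 = q ^ 2 * ss q d 0 := by rw [← ss_succ hq, zero_add]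
  have t2 : ss q d 2 = q ^ 4 * ss q d 0 := by
    rw [show (2 : ℤ) = 1 + 1 by norm_num, ss_succ hq, t1]
    ring
  have t3 : ss q d 3 = q ^ 6 * ss q d 0 := by
    rw [show (3 : ℤ) = 2 + 1 by norm_num, ss_succ hq, t2]
    ring
  rw [t1] at k1
  rw [t2] at k2
  rw [t3] at k3
  obtain ⟨v1, v2, v3, v4⟩ := van4 hq h2 h4 h6 h8 (ss_ne_zero hq d 0) k0 k1 k2 k3
  refine ⟨r1, r2, s2, s1, mp, mm, hu, fun i h0 h1 => ?_, hm,
    sub_eq_zero.1 ((mul_eq_zero.1 v1).resolve_left hQ),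
    sub_eq_zero.1 ((mul_eq_zero.1 v4).resolve_left hQ)⟩
  have e1 := hl (d + 1 - i) (by omega) (by omega)
  beta_reduce at e1
  rw [show (d : ℤ) + 1 - (d + 1 - i) = i by ring, ss_flip hq, inv_inv] at e1
  rw [e1]
  ring

theorem ph_zero (hq : q ≠ 0) : ph (QQ q d) τ x1 x2 y1 y2 (ss q d 0 / q) = 0 := by
  have h1 : ss q d 0 / q = q ^ (-((d : ℤ) + 1)) := by
    unfold ss
    rw [mul_zero, zero_sub, neg_add, zpow_add₀ hq, zpow_neg_one, div_eq_mul_inv]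
  unfold ph QQ
  rw [h1, ← zpow_neg, neg_neg]
  ring

theorem ph_last (hq : q ≠ 0) : ph (QQ q d) τ x1 x2 y1 y2 (ss q d (d + 1) / q) = 0 := by
  have h1 : ss q d (d + 1) / q = q ^ ((d : ℤ) + 1) := by
    unfold ss
    rw [div_eq_mul_inv, ← zpow_neg_one, ← zpow_add₀ hq]
    congr 1
    ring
  unfold ph QQ
  rw [h1, ← zpow_neg]
  ring

theorem SD.a_last (h : SD d q x1 x2 y1 y2 τ a b e A B) : a (d + 1) = 0 := by
  have h1 := h.hA (d + 1)
  rw [h.frame.out (d + 1) (by omega), add_sub_cancel_right, map_zero, smul_zero, zero_add] at h1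
  exact (smul_eq_zero.1 h1.symm).resolve_right (h.frame.ne_zero (by omega) le_rfl)

theorem Tri.l_zero (F : Frame K d e) (hM : Tri e M u m l) : l 0 = 0 := by
  have h1 := hM (-1)
  rw [F.out (-1) (by omega), F.out (-1 - 1) (by omega), smul_zero, smul_zero, map_zero, zero_add,
    zero_add, show (-1 : ℤ) + 1 = 0 by norm_num] at h1
  exact (smul_eq_zero.1 h1.symm).resolve_right (F.ne_zero le_rfl (by omega))

theorem A2 (hd : 3 ≤ d) (h : SD d q x1 x2 y1 y2 τ a b e A B) (hM : Tri e M u m l)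
    (hA : RelA q A M ρ g w c) (hρ : ρ = -(b2 q) ^ 2 * (x1 * x2)) {r1 r2 p1 p2 mp mm : K}
    (S : Sol d q x1 x2 y1 y2 (g / (2 - (q ^ 2 + q⁻¹ ^ 2))) r1 r2 p1 p2 mp mm a b u m l) :
    p1 * (τ + QQ q d * (x1 * y1)) + mp * x1 = 0 ∧
      p2 * (τ + QQ q d * (x2 * y2)) + mm * x2 = 0 := by
  have hq := h.hq
  have h2 := h.hroot 2 (by norm_num)
  have h4 := h.hroot 4 (by norm_num)
  have h6 := h.hroot 6 (by norm_num)
  have h8 := h.hroot 8 (by norm_num)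
  have hβ := two_sub_ne hq h2
  have al : ∀ i : ℤ, 0 ≤ i → i ≤ d + 1 → a i * l i =
      ph (QQ q d) τ x1 x2 y1 y2 (ss q d i / q) * (p1 * (ss q d i / q) + p2 * (ss q d i / q)⁻¹) := by
    intro i h0 h1
    rcases eq_or_lt_of_le h0 with h3 | h3
    · rw [← h3, ph_zero hq, hM.l_zero h.frame]
      ring
    · rcases eq_or_lt_of_le h1 with h5 | h5
      · rw [h5, ph_last hq, h.a_last]
        ring
      · rw [S.hl i (by omega) (by omega), ← h.hab i]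
        ring
  set G := g / (2 - (q ^ 2 + q⁻¹ ^ 2)) with hG
  have hG' : g = G * (2 - (q ^ 2 + q⁻¹ ^ 2)) := by
    rw [hG, div_mul_cancel₀ _ hβ]
  have E : ∀ i : ℤ, 1 ≤ i → i ≤ d →
      (-((q ^ 3 - q⁻¹ ^ 3) * (q - q⁻¹)) * (p1 * (τ + QQ q d * (x1 * y1)) + mp * x1)) *
        (ss q d i / q) ^ 2 + (-w + (q - q⁻¹) ^ 2 * (QQ q d * (x1 * y1 * p2 + x2 * y2 * p1) +
          τ * (p1 + p2) - mp * x2 - mm * x1)) +
      (-((q ^ 3 - q⁻¹ ^ 3) * (q - q⁻¹)) * (p2 * (τ + QQ q d * (x2 * y2)) + mm * x2)) *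
        (ss q d i / q)⁻¹ ^ 2 = 0 := by
    intro i h0 h1
    have hb := band1 h.frame h.hA hM hA h0 h1 (h.ha i h0 h1) (by
      rw [hρ, ss_pred hq]
      have hs := ss_ne_zero hq d i
      unfold b2
      field_simp
      ring)
    rw [al (i + 1) (by omega) (by omega), al i (by omega) (by omega),
      al (i - 1) (by omega) (by omega), S.hm i (by omega) (by omega),
      S.hm (i - 1) (by omega) (by omega), S.e1, S.e2, hG'] at hb
    simp only [ss_succ hq, ss_pred hq, ph] at hb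
    have hs := ss_ne_zero hq d i
    generalize ss q d i = s at *
    generalize QQ q d = Q at *
    linear_combination (norm := skip) hb
    field_simp
    ring
  have k1 := E 1 (by omega) (by omega)
  have k2 := E 2 (by omega) (by omega)
  have k3 := E 3 (by omega) (by omega)
  have t2 : ss q d 2 / q = q ^ 2 * (ss q d 1 / q) := by
    rw [show (2 : ℤ) = 1 + 1 by norm_num, ss_succ hq]
    ring
  have t3 : ss q d 3 / q = q ^ 2 * (q ^ 2 * (ss q d 1 / q)) := by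
    rw [show (3 : ℤ) = 2 + 1 by norm_num, ss_succ hq, ← t2]
    ring
  rw [t2] at k2
  rw [t3] at k3
  obtain ⟨v1, v2⟩ := van3 hq h4 h8 (div_ne_zero (ss_ne_zero hq d 1) hq) k1 k2 k3
  have n1 : q - q⁻¹ ≠ 0 := by
    intro h0
    apply h2
    have : q ^ 2 - 1 = (q - q⁻¹) * q := by field_simp
    rw [h0, zero_mul] at this
    linear_combination this
  have n3 : q ^ 3 - q⁻¹ ^ 3 ≠ 0 := by
    intro h0
    apply h6
    have : q ^ 6 - 1 = (q ^ 3 - q⁻¹ ^ 3) * q ^ 3 := by field_simp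
    rw [h0, zero_mul] at this
    linear_combination this
  have n13 : -((q ^ 3 - q⁻¹ ^ 3) * (q - q⁻¹)) ≠ 0 := neg_ne_zero.2 (mul_ne_zero n3 n1)
  exact ⟨(mul_eq_zero.1 v1).resolve_left n13, (mul_eq_zero.1 v2).resolve_left n13⟩

/-- the coefficients of a solution -/
theorem lin (hd : 3 ≤ d) (h : SD d q x1 x2 y1 y2 τ a b e A B) (hM : Tri e M u m l)
    (hA : RelA q A M (-(b2 q) ^ 2 * (x1 * x2)) g w c) {w' c' : K}
    (hB : RelA q B M (-(b2 q) ^ 2 * (y1 * y2)) g w' c')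
    (n1 : ¬ (x1 = 0 ∧ y1 = 0 ∧ τ = 0)) (n2 : ¬ (x2 = 0 ∧ y2 = 0 ∧ τ = 0)) :
    ∃ s1 s2 : K,
      (∀ i : ℤ, 1 ≤ i → i ≤ d →
        u i = a i * (s1 * y1 * (ss q d i / q) + s2 * y2 * (ss q d i / q)⁻¹)) ∧
      (∀ i : ℤ, 1 ≤ i → i ≤ d →
        l i = b i * (s1 * x1 * (ss q d i / q) + s2 * x2 * (ss q d i / q)⁻¹)) ∧
      (∀ i : ℤ, 0 ≤ i → i ≤ d → m i = g / (2 - (q ^ 2 + q⁻¹ ^ 2)) +
        (q + q⁻¹) * (s1 * x1 * y1 * ss q d i ^ 2 + s2 * x2 * y2 * (ss q d i)⁻¹ ^ 2) -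
        s1 * (τ + QQ q d * (x1 * y1)) * ss q d i -
        s2 * (τ + QQ q d * (x2 * y2)) * (ss q d i)⁻¹) := by
  have hq := h.hq
  obtain ⟨r1, r2, p1, p2, mp, mm, S⟩ := exists_sol hd h hM hA hB
  obtain ⟨E1, E2⟩ := A2 hd h hM hA rfl S
  obtain ⟨E3, E4⟩ := A2 hd h.rev (hM.rev d) hB (by ring) (S.rev hq)
  rw [show y2 * x2 = x2 * y2 by ring] at E3
  rw [show y1 * x1 = x1 * y1 by ring] at E4
  have n1' : ¬ (x1 = 0 ∧ y1 = 0 ∧ τ + QQ q d * (x1 * y1) = 0) := by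
    rintro ⟨h1, h2, h3⟩
    rw [h1, h2, mul_zero, mul_zero, add_zero] at h3
    exact n1 ⟨h1, h2, h3⟩
  have n2' : ¬ (x2 = 0 ∧ y2 = 0 ∧ τ + QQ q d * (x2 * y2) = 0) := by
    rintro ⟨h1, h2, h3⟩
    rw [h1, h2, mul_zero, mul_zero, add_zero] at h3
    exact n2 ⟨h1, h2, h3⟩
  obtain ⟨s1, a1, a2, a3⟩ := cross n1' S.e1.symm E1 E4
  obtain ⟨s2, b1, b2, b3⟩ := cross n2' S.e2.symm E2 E3
  refine ⟨s1, s2, fun i h1 h2 => ?_, fun i h1 h2 => ?_, fun i h1 h2 => ?_⟩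
  · rw [S.hu i h1 h2, a2, b2]
  · rw [S.hl i h1 h2, a1, b1]
  · rw [S.hm i h1 h2, a2, b2, a3, b3]
    ring

/-- the relation of degree two in `M` -/
def RelQ (q : K) (A M : End K V) (ρ w c : K) : Prop :=
  M * M * A - (q ^ 2 + q⁻¹ ^ 2) • (M * A * M) + A * M * M = ρ • A + w • M + c • 1

theorem quad3 (hd : 3 ≤ d) (h : SD d q x1 x2 y1 y2 τ a b e A B) (hM : Tri e M u m l)
    (hQ : RelQ q A M ρ w c) {α α' : K}
    (hu : ∀ i : ℤ, 1 ≤ i → i ≤ d →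
      u i = a i * (α * (ss q d i / q) + α' * (ss q d i / q)⁻¹)) : α * α' = 0 := by
  have hq := h.hq
  have h4 := h.hroot 4 (by norm_num)
  have h8 := h.hroot 8 (by norm_num)
  have h4' : q ^ 4 - 1 ≠ 0 := sub_ne_zero.2 h4
  have h8' : q ^ 8 - 1 ≠ 0 := sub_ne_zero.2 h8
  have hb := bandQ3 h.frame h.hA hM hQ (i := 3) le_rfl (by omega) (h.ha 3 (by omega) (by omega))
    (h.ha (3 - 1) (by omega) (by omega)) (h.ha (3 - 2) (by omega) (by omega))
  have a1 := h.ha 1 (by omega) (by omega)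
  have a2 := h.ha 2 (by omega) (by omega)
  have a3 := h.ha 3 (by omega) (by omega)
  rw [show (3 : ℤ) - 1 = 2 by norm_num, show (3 : ℤ) - 2 = 1 by norm_num,
    hu 1 (by omega) (by omega), hu 2 (by omega) (by omega), hu 3 (by omega) (by omega)] at hb
  have t2 : ss q d 2 = q ^ 2 * ss q d 1 := by
    rw [show (2 : ℤ) = 1 + 1 by norm_num, ss_succ hq]
  have t3 : ss q d 3 = q ^ 2 * (q ^ 2 * ss q d 1) := by
    rw [show (3 : ℤ) = 2 + 1 by norm_num, ss_succ hq, ← t2]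
  rw [t2, t3] at hb
  have hs := ss_ne_zero hq d 1
  generalize ss q d 1 = s at *
  have h1 : ((q ^ 4 - 1) * (q ^ 8 - 1)) * (α * α') = 0 := by
    rw [mul_div_cancel_left₀ _ a1, mul_div_cancel_left₀ _ a2, mul_div_cancel_left₀ _ a3] at hb
    have h2 : ((q ^ 4 - 1) * (q ^ 8 - 1)) * (α * α') * (-q ^ 6)⁻¹ =
      (α * (q ^ 2 * s / q) + α' * (q ^ 2 * s / q)⁻¹) * (α * (s / q) + α' * (s / q)⁻¹ +
        (α * (q ^ 2 * (q ^ 2 * s) / q) + α' * (q ^ 2 * (q ^ 2 * s) / q)⁻¹)) -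
      (q ^ 2 + q⁻¹ ^ 2) * ((α * (s / q) + α' * (s / q)⁻¹) *
        (α * (q ^ 2 * (q ^ 2 * s) / q) + α' * (q ^ 2 * (q ^ 2 * s) / q)⁻¹)) := by
      field_simp
      ring
    rw [hb, sub_self] at h2
    exact (mul_eq_zero.1 h2).resolve_right (inv_ne_zero (neg_ne_zero.2 (pow_ne_zero _ hq)))
  exact (mul_eq_zero.1 h1).resolve_left (mul_ne_zero h4' h8')

theorem quad (hd : 3 ≤ d) (h : SD d q x1 x2 y1 y2 τ a b e A B) (hM : Tri e M u m l)
    (hQ : RelQ q A M ρ w c) {ρ' w' c' : K} (hQ' : RelQ q B M ρ' w' c')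
    (n1 : ¬ (x1 = 0 ∧ y1 = 0 ∧ τ = 0)) (n2 : ¬ (x2 = 0 ∧ y2 = 0 ∧ τ = 0))
    (hy : ¬ (y1 = 0 ∧ y2 = 0)) {s1 s2 : K}
    (hu : ∀ i : ℤ, 1 ≤ i → i ≤ d →
      u i = a i * (s1 * y1 * (ss q d i / q) + s2 * y2 * (ss q d i / q)⁻¹))
    (hl : ∀ i : ℤ, 1 ≤ i → i ≤ d →
      l i = b i * (s1 * x1 * (ss q d i / q) + s2 * x2 * (ss q d i / q)⁻¹))
    (hm : ∀ i : ℤ, 0 ≤ i → i ≤ d → m i =
      (q + q⁻¹) * (s1 * x1 * y1 * ss q d i ^ 2 + s2 * x2 * y2 * (ss q d i)⁻¹ ^ 2) -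
      s1 * (τ + QQ q d * (x1 * y1)) * ss q d i -
      s2 * (τ + QQ q d * (x2 * y2)) * (ss q d i)⁻¹) :
    s1 = 0 ∨ s2 = 0 := by
  have hq := h.hq
  have h4 := h.hroot 4 (by norm_num)
  have h6 := h.hroot 6 (by norm_num)
  have h4' : q ^ 4 - 1 ≠ 0 := sub_ne_zero.2 h4
  have h6' : q ^ 6 - 1 ≠ 0 := sub_ne_zero.2 h6
  have E1 := quad3 hd h hM hQ hu
  have E2 := quad3 (α := s2 * x2) (α' := s1 * x1) hd h.rev (hM.rev d) hQ' (fun i h1 h2 => by
    rw [hl _ (by omega) (by omega), ss_flip hq, inv_inv]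
    ring)
  have t1 : ss q d 1 = q ^ 2 * ss q d 0 := by rw [← ss_succ hq, zero_add]
  have t2 : ss q d 2 = q ^ 2 * (q ^ 2 * ss q d 0) := by
    rw [show (2 : ℤ) = 1 + 1 by norm_num, ss_succ hq, t1]
  have hb := bandQ2 h.frame h.hA hM hQ (i := 2) le_rfl (by omega) (h.ha 2 (by omega) (by omega))
    (h.ha (2 - 1) (by omega) (by omega)) (by
      rw [show (2 : ℤ) - 1 = 1 by norm_num, show (2 : ℤ) - 2 = 0 by norm_num, t1, t2]
      have hs := ss_ne_zero hq d 0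
      field_simp
      ring)
  have a1 := h.ha 1 (by omega) (by omega)
  have a2 := h.ha 2 (by omega) (by omega)
  rw [show (2 : ℤ) - 1 = 1 by norm_num, show (2 : ℤ) - 2 = 0 by norm_num,
    hu 1 (by omega) (by omega), hu 2 (by omega) (by omega), mul_div_cancel_left₀ _ a1,
    mul_div_cancel_left₀ _ a2, hm 0 (by omega) (by omega), hm 1 (by omega) (by omega),
    hm 2 (by omega) (by omega)] at hb
  rw [t1, t2] at hb
  have h1 := h.hab 1
  have h2 := mul_ne_zero a1 (h.hb 1 (by omega) (by omega))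
  rw [h1] at h2
  unfold ph at h2
  have h3 := right_ne_zero_of_mul h2
  clear h1 h2
  have hs := ss_ne_zero hq d 0
  generalize ss q d 0 = s at *
  by_contra hcon
  push Not at hcon
  obtain ⟨c1, c2⟩ := hcon
  have E3 : y1 * y2 = 0 := by
    have : (s1 * s2) * (y1 * y2) = 0 := by linear_combination E1
    exact (mul_eq_zero.1 this).resolve_left (mul_ne_zero c1 c2)
  have E4 : x1 * x2 = 0 := by
    have : (s1 * s2) * (x1 * x2) = 0 := by linear_combination E2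
    exact (mul_eq_zero.1 this).resolve_left (mul_ne_zero c1 c2)
  have E5 : y1 * (τ + QQ q d * (x2 * y2)) + y2 * (τ + QQ q d * (x1 * y1)) = 0 := by
    have h7 : ((q ^ 6 - 1) * (q ^ 4 - 1) * (s1 * s2)) *
        (y1 * (τ + QQ q d * (x2 * y2)) + y2 * (τ + QQ q d * (x1 * y1))) = 0 := by
      generalize QQ q d = Q at *
      linear_combination (norm := skip) q ^ 5 * hb + (q ^ 5 * (q + q⁻¹) *
        ((q ^ 4 - q⁻¹ ^ 4) * (q ^ 3 - q⁻¹ ^ 3)) * (s1 * s2) *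
        (x1 * (q ^ 2 * s) + x2 * (q ^ 2 * s)⁻¹)) * E3
      field_simp
      ring
    exact (mul_eq_zero.1 h7).resolve_left (mul_ne_zero (mul_ne_zero h6' h4') (mul_ne_zero c1 c2))
  rcases mul_eq_zero.1 E3 with hy1 | hy2
  · have hy2 : y2 ≠ 0 := fun h0 => hy ⟨hy1, h0⟩
    rw [hy1, zero_mul, zero_add, mul_zero, mul_zero, add_zero] at E5
    have hτ := (mul_eq_zero.1 E5).resolve_left hy2
    have hx1 : x1 ≠ 0 := fun h0 => n1 ⟨h0, hy1, hτ⟩
    have hx2 := (mul_eq_zero.1 E4).resolve_left hx1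
    apply h3
    rw [hτ, hy1, hx2]
    ring
  · have hy1 : y1 ≠ 0 := fun h0 => hy ⟨h0, hy2⟩
    rw [hy2, zero_mul, add_zero, mul_zero, mul_zero, add_zero] at E5
    have hτ := (mul_eq_zero.1 E5).resolve_left hy1
    have hx2 : x2 ≠ 0 := fun h0 => n2 ⟨h0, hy2, hτ⟩
    have hx1 := (mul_eq_zero.1 E4).resolve_right hx2
    apply h3
    rw [hτ, hy2, hx1]
    ring

theorem b2_ne (hq : q ≠ 0) (h4 : q ^ 4 ≠ 1) : b2 q ≠ 0 := by
  intro h0
  apply h4
  have : q ^ 4 - 1 = (q ^ 2 - q⁻¹ ^ 2) * q ^ 2 := by field_simp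
  unfold b2 at h0
  rw [h0, zero_mul] at this
  linear_combination this

theorem core1 (h : SD d q x1 x2 y1 y2 τ a b e A B) (hM : Tri e M u m l) {s1 : K}
    (hu : ∀ i : ℤ, 1 ≤ i → i ≤ d → u i = a i * (s1 * y1 * (ss q d i / q)))
    (hl : ∀ i : ℤ, 1 ≤ i → i ≤ d → l i = b i * (s1 * x1 * (ss q d i / q)))
    (hm : ∀ i : ℤ, 0 ≤ i → i ≤ d → m i =
      (q + q⁻¹) * (s1 * x1 * y1 * ss q d i ^ 2) -
      s1 * (τ + QQ q d * (x1 * y1)) * ss q d i) :
    M = (s1 / b2 q) • C1 d q x1 x2 y1 y2 τ A B := by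
  have hq := h.hq
  have hb2 := b2_ne hq (h.hroot 4 (by norm_num))
  refine h.frame.ext fun i h0 h1 => ?_
  rw [hM, LinearMap.smul_apply, C1_apply h]
  have e1 : u i • e (i - 1) = (a i * (s1 * y1 * (ss q d i / q))) • e (i - 1) := by
    rcases eq_or_lt_of_le h0 with h2 | h2
    · rw [h.frame.out (i - 1) (by omega), smul_zero, smul_zero]
    · rw [hu i (by omega) h1]
  have e2 : l (i + 1) • e (i + 1) = (b (i + 1) * (s1 * x1 * (ss q d (i + 1) / q))) • e (i + 1) := by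
    rcases eq_or_lt_of_le h1 with h2 | h2
    · rw [h.frame.out (i + 1) (by omega), smul_zero, smul_zero]
    · rw [hl (i + 1) (by omega) (by omega)]
  rw [e1, e2, hm i h0 h1, ss_succ hq]
  match_scalars <;> field_simp

/-- **The third map.** -/
theorem core (hd : 3 ≤ d) (h : SD d q x1 x2 y1 y2 τ a b e A B) (hM : Tri e M u m l)
    (hA : RelA q A M (-(b2 q) ^ 2 * (x1 * x2)) 0 w c) {w1 c1 : K}
    (hB : RelA q B M (-(b2 q) ^ 2 * (y1 * y2)) 0 w1 c1)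
    {ρ2 w2 c2 ρ3 w3 c3 : K} (hQ : RelQ q A M ρ2 w2 c2) (hQ' : RelQ q B M ρ3 w3 c3)
    (n1 : ¬ (x1 = 0 ∧ y1 = 0 ∧ τ = 0)) (n2 : ¬ (x2 = 0 ∧ y2 = 0 ∧ τ = 0))
    (hy : ¬ (y1 = 0 ∧ y2 = 0)) :
    (∃ s : K, M = s • C1 d q x1 x2 y1 y2 τ A B) ∨ (∃ s : K, M = s • C2 d q x1 x2 y1 y2 τ A B) := by
  have hq := h.hq
  obtain ⟨s1, s2, hu, hl, hm⟩ := lin hd h hM hA hB n1 n2
  rw [zero_div] at hm
  simp only [zero_add] at hm
  rcases quad hd h hM hQ hQ' n1 n2 hy hu hl hm with h1 | h1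
  · right
    refine ⟨s2 / b2 q, ?_⟩
    rw [← C1_rev]
    refine core1 h.rev (hM.rev d) (fun i h2 h3 => ?_) (fun i h2 h3 => ?_) (fun i h2 h3 => ?_)
    · rw [hl _ (by omega) (by omega), h1, ss_flip hq, inv_inv]
      ring
    · rw [hu _ (by omega) (by omega), h1, ss_flip hq, inv_inv]
      ring
    · rw [hm _ (by omega) (by omega), h1, ss_rev, inv_inv]
      ring
  · left
    refine ⟨s1 / b2 q, core1 h hM (fun i h2 h3 => ?_) (fun i h2 h3 => ?_) (fun i h2 h3 => ?_)⟩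
    · rw [hu i h2 h3, h1]
      ring
    · rw [hl i h2 h3, h1]
      ring
    · rw [hm i h2 h3, h1]
      ring

end

end Pool.LT
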