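import Mathlib
import Pool.Agent.Work.MP_a7ee28_al_h73.Base

/-!
# The Askey-Wilson relations from tridiagonality
-/

set_option autoImplicit false

namespace Pool.LT

open Module

universe u v

variable {K : Type u} {V : Type v} [Field K] [AddCommGroup V] [Module K V]

/-- `P` diagonal and `R` irreducible tridiagonal in the frame `c`; `P` irreducible tridiagonal
and `R` diagonal in the frame `v`. -/
theorem askey_wilson {d : ℕ} (hd : 2 ≤ d) {c v : ℤ → V} (Fc : Frame K d c) (Fv : Frame K d v)
    {P R : End K V} {γ θ : ℤ → K} {pc mc rc pv mv rv : ℤ → K} {β ρ : K}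
    (hPc : ∀ i, P (c i) = γ i • c i) (hRc : TriE d c R pc mc rc)
    (hPv : TriE d v P pv mv rv) (hRv : ∀ i, R (v i) = θ i • v i)
    (hρ : ∀ i : ℤ, 0 ≤ i → i < d → γ i ^ 2 - β * γ i * γ (i + 1) + γ (i + 1) ^ 2 = ρ) :
    ∃ g w k : K, P * P * R - β • (P * R * P) + R * P * P = ρ • R + g • (P * P) + w • P + k • 1 ∧
      ∀ i : ℤ, 1 ≤ i → i < d → θ (i - 1) - β * θ i + θ (i + 1) = g := by
  set N : End K V := P * P * R - β • (P * R * P) + R * P * P - ρ • R with hN
  -- `N` is diagonal in the frame `c`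
  have hNc : ∀ i : ℤ, 0 ≤ i → i ≤ d → N (c i) = ((2 - β) * γ i ^ 2 * mc i - ρ * mc i) • c i := by
    intro i hi0 hi1
    have hlow : 0 ≤ i - 1 → γ (i - 1) ^ 2 - β * γ (i - 1) * γ i + γ i ^ 2 = ρ := by
      intro h
      have := hρ (i - 1) h (by omega)
      rwa [sub_add_cancel] at this
    have hup : i < d → γ i ^ 2 - β * γ i * γ (i + 1) + γ (i + 1) ^ 2 = ρ := hρ i hi0
    refine Fc.vec_ext fun j hj0 hj1 => ?_
    have e1 : N (c i) = (pc i * (γ (i - 1) ^ 2 - β * γ (i - 1) * γ i + γ i ^ 2 - ρ)) • c (i - 1) +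
        ((2 - β) * γ i ^ 2 * mc i - ρ * mc i) • c i +
        (rc i * (γ i ^ 2 - β * γ i * γ (i + 1) + γ (i + 1) ^ 2 - ρ)) • c (i + 1) := by
      rw [hN]
      simp only [LinearMap.add_apply, LinearMap.sub_apply, LinearMap.smul_apply,
        Module.End.mul_apply, hPc, hRc.app, map_add, map_smul]
      module
    rw [e1]
    by_cases h1 : 0 ≤ i - 1
    · rw [hlow h1]
      by_cases h2 : i < d
      · rw [hup h2]
        simp
      · rw [Fc.out (i + 1) (by omega)]
        simp
    · rw [Fc.out (i - 1) (by omega)]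
      by_cases h2 : i < d
      · rw [hup h2]
        simp
      · rw [Fc.out (i + 1) (by omega)]
        simp
  have hcomm : N * P = P * N := by
    refine Fc.ext fun i h0 h1 => ?_
    rw [Module.End.mul_apply, Module.End.mul_apply, hPc, map_smul, hNc i h0 h1, map_smul, hPc,
      smul_comm]
  have hr0 : rv 0 ≠ 0 := hPv.hr 0 le_rfl (by omega)
  have hr1 : rv 1 ≠ 0 := hPv.hr 1 (by norm_num) (by omega)
  have hv1 : v (-1) = 0 := Fv.out _ (by omega)
  -- `N (v 0)`
  set g : K := θ 0 - β * θ 1 + θ 2 with hg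
  obtain ⟨w, k, hwk⟩ : ∃ w k : K, N (v 0) = (g • (P * P) + w • P + k • (1 : End K V)) (v 0) := by
    have e2 : P (v 0) = mv 0 • v 0 + rv 0 • v 1 := by
      rw [hPv.app]
      simp [hv1]
    have e3 : P (v 1) = pv 1 • v 0 + mv 1 • v 1 + rv 1 • v 2 := by
      rw [hPv.app]
      simp
    obtain ⟨x, y, hxy⟩ : ∃ x y : K, N (v 0) = (g * (rv 0 * rv 1)) • v 2 + x • v 1 + y • v 0 := by
      refine ⟨rv 0 * (θ 0 * mv 0 - β * (mv 0 * θ 1) + θ 1 * mv 0) +
        (θ 0 * (mv 1 * rv 0) - β * (mv 1 * (θ 1 * rv 0)) + θ 1 * (mv 1 * rv 0)) + (β * (rv 0 * mv 0 * θ 1) - β * (rv 0 * (mv 0 * θ 0))),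
        (θ 0 * (mv 0 * mv 0 + rv 0 * pv 1) - β * (mv 0 * θ 0 * mv 0 + rv 0 * θ 1 * pv 1) +
          θ 0 * (mv 0 * mv 0 + rv 0 * pv 1)) - ρ * θ 0, ?_⟩
      rw [hN, hg]
      simp only [LinearMap.add_apply, LinearMap.sub_apply, LinearMap.smul_apply,
        Module.End.mul_apply, hRv, e2, e3, map_add, map_smul]
      module
    refine ⟨(x - g * (mv 0 * rv 0 + rv 0 * mv 1)) / rv 0,
      y - g * (mv 0 * mv 0 + rv 0 * pv 1) - (x - g * (mv 0 * rv 0 + rv 0 * mv 1)) / rv 0 * mv 0, ?_⟩
    rw [hxy]
    simp only [LinearMap.add_apply, LinearMap.smul_apply, Module.End.mul_apply,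
      Module.End.one_apply, e2, e3, map_add, map_smul]
    have hx : x = (x - g * (mv 0 * rv 0 + rv 0 * mv 1)) / rv 0 * rv 0 +
        g * (mv 0 * rv 0 + rv 0 * mv 1) := by
      field_simp
      ring
    generalize (x - g * (mv 0 * rv 0 + rv 0 * mv 1)) / rv 0 = z at hx ⊢
    rw [hx]
    module
  set S : End K V := g • (P * P) + w • P + k • (1 : End K V) with hS
  have hScomm : S * P = P * S := by
    rw [hS]
    simp only [add_mul, mul_add, smul_mul_assoc, mul_smul_comm, one_mul, mul_one, mul_assoc]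
  have hNS : ∀ n : ℕ, ∀ i : ℤ, i ≤ n → i ≤ d → N (v i) = S (v i) := by
    intro n
    induction n with
    | zero =>
      intro i hi _
      rcases lt_or_eq_of_le hi with h | h
      · rw [Fv.out i (by omega), map_zero, map_zero]
      · rw [h]
        exact hwk
    | succ n ih =>
      intro i hi hid
      by_cases h : i ≤ n
      · exact ih i h hid
      · have hin : i = n + 1 := by push_cast at hi; omega
        have h1 := ih (n : ℤ) le_rfl (by omega)
        have h2 := ih ((n : ℤ) - 1) (by omega) (by omega)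
        have hr := hPv.hr n (by positivity) (by omega)
        have h3 := hPv.app n
        rw [← hin] at h3
        have h4 : v i = (rv n)⁻¹ • (P (v n) - pv n • v (n - 1) - mv n • v n) := by
          rw [h3]
          rw [show pv n • v ((n : ℤ) - 1) + mv n • v n + rv n • v i - pv n • v ((n : ℤ) - 1) -
            mv n • v n = rv n • v i by abel, smul_smul, inv_mul_cancel₀ hr, one_smul]
        have h5 : N (P (v n)) = S (P (v n)) := by
          rw [← Module.End.mul_apply, hcomm, Module.End.mul_apply, h1, ← Module.End.mul_apply,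
            ← hScomm, Module.End.mul_apply]
        rw [h4]
        simp only [map_smul, map_sub, h5, h1, h2]
  have hfin : N = S := Fv.ext fun i h0 h1 => hNS i.toNat i (by omega) h1
  refine ⟨g, w, k, ?_, ?_⟩
  · have h1 : P * P * R - β • (P * R * P) + R * P * P = N + ρ • R := by
      rw [hN]
      abel
    rw [h1, hfin, hS]
    abel
  · intro i h1 h2
    have h3 := congrArg (fun T : End K V => Fv.coord (i - 1 + 1 + 1) (T (v (i - 1)))) hfin
    rw [hN, hS] at h3
    simp only [LinearMap.add_apply, LinearMap.sub_apply, LinearMap.smul_apply,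
      Module.End.mul_apply, Module.End.one_apply, hRv, hPv.app, map_add, map_smul, map_sub,
      sub_add_cancel, add_sub_cancel_right, smul_eq_mul] at h3
    simp (disch := omega) only [Fv.coord_self, Fv.coord_ne] at h3
    have hra := hPv.hr (i - 1) (by omega) (by omega)
    have hrb := hPv.hr i (by omega) h2
    apply mul_left_cancel₀ (mul_ne_zero hra hrb)
    linear_combination h3

end Pool.LT
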