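import Mathlib
import Pool.Agent.Work.MP_a7ee28_al_h73.Lin
import Pool.Agent.Work.MP_a7ee28_al_h73.Ord
import Pool.Agent.Work.MP_a7ee28_al_h73.Rel

/-!
# From the module to the split form
-/

set_option autoImplicit false

namespace Pool.LT

open Module

universe u v

variable {K : Type u} {V : Type v} [Field K] [AddCommGroup V] [Module K V]

/-- no proper nonzero subspace is invariant under `A` and `B` -/
def Irr (A B : End K V) : Prop :=
  ∀ W : Submodule K V, (∀ x ∈ W, A x ∈ W) → (∀ x ∈ W, B x ∈ W) → W ≠ ⊥ → W = ⊤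

theorem a_ne {d : ℕ} {e : ℤ → V} {A B : End K V} {t t' a b : ℤ → K} (Fe : Frame K d e)
    (hA : ∀ i, A (e i) = t i • e i + a i • e (i - 1))
    (hB : ∀ i, B (e i) = t' i • e i + b (i + 1) • e (i + 1)) (hirr : Irr A B) {i : ℤ}
    (h1 : 1 ≤ i) (h2 : i ≤ d) : a i ≠ 0 := by
  intro h0
  have hW := hirr (Submodule.span K (e '' {j | i ≤ j})) ?_ ?_ ?_
  · have h3 : ∀ x ∈ Submodule.span K (e '' {j | i ≤ j}), Fe.coord 0 x = 0 := by
      intro x hx
      induction hx using Submodule.span_induction with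
      | mem x hx =>
        obtain ⟨j, hj, rfl⟩ := hx
        have hj' : i ≤ j := hj
        exact Fe.coord_ne (by omega)
      | zero => exact map_zero _
      | add x y _ _ hx hy => rw [map_add, hx, hy, add_zero]
      | smul c x _ hx => rw [map_smul, hx, smul_zero]
    have h4 := h3 (e 0) (by rw [hW]; trivial)
    rw [Fe.coord_self le_rfl (by omega)] at h4
    exact one_ne_zero h4
  · intro x hx
    induction hx using Submodule.span_induction with
    | mem x hx =>
      obtain ⟨j, hj, rfl⟩ := hx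
      have hj' : i ≤ j := hj
      rw [hA]
      refine Submodule.add_mem _ (Submodule.smul_mem _ _ (Submodule.subset_span ⟨j, hj, rfl⟩)) ?_
      rcases eq_or_lt_of_le hj' with h5 | h5
      · rw [← h5, h0, zero_smul]
        exact Submodule.zero_mem _
      · refine Submodule.smul_mem _ _ (Submodule.subset_span ⟨j - 1, ?_, rfl⟩)
        show i ≤ j - 1
        omega
    | zero => rw [map_zero]; exact Submodule.zero_mem _
    | add x y _ _ hx hy => rw [map_add]; exact Submodule.add_mem _ hx hy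
    | smul c x _ hx => rw [map_smul]; exact Submodule.smul_mem _ _ hx
  · intro x hx
    induction hx using Submodule.span_induction with
    | mem x hx =>
      obtain ⟨j, hj, rfl⟩ := hx
      have hj' : i ≤ j := hj
      rw [hB]
      refine Submodule.add_mem _ (Submodule.smul_mem _ _ (Submodule.subset_span ⟨j, hj, rfl⟩)) ?_
      refine Submodule.smul_mem _ _ (Submodule.subset_span ⟨j + 1, ?_, rfl⟩)
      show i ≤ j + 1
      omega
    | zero => rw [map_zero]; exact Submodule.zero_mem _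
    | add x y _ _ hx hy => rw [map_add]; exact Submodule.add_mem _ hx hy
    | smul c x _ hx => rw [map_smul]; exact Submodule.smul_mem _ _ hx
  · intro h3
    have h4 : e i ∈ Submodule.span K (e '' {j | i ≤ j}) :=
      Submodule.subset_span ⟨i, le_refl i, rfl⟩
    rw [h3, Submodule.mem_bot] at h4
    exact Fe.ne_zero (by omega) h2 h4

/-- the split form without the identity between the parameters -/
structure PSD (d : ℕ) (q x1 x2 y1 y2 f τ : K) (a b : ℤ → K) (e : ℤ → V) (A B : End K V) :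
    Prop where
  hq : q ≠ 0
  hroot : ∀ n : ℕ, 0 < n → q ^ n ≠ 1
  frame : Frame K d e
  hA : ∀ i, A (e i) = (x1 * ss q d i + x2 * (ss q d i)⁻¹) • e i + a i • e (i - 1)
  hB : ∀ i, B (e i) = (y1 * ss q d i + y2 * (ss q d i)⁻¹) • e i + b (i + 1) • e (i + 1)
  hab : ∀ i, a i * b i = (QQ q d - ss q d i / q - (ss q d i / q)⁻¹) *
    (τ - x1 * y1 * (ss q d i / q) - f * (ss q d i / q)⁻¹)

section

variable {d : ℕ} {q x1 x2 y1 y2 f τ : K} {a b : ℤ → K} {e : ℤ → V} {A B : End K V}

theorem PSD.rev (h : PSD d q x1 x2 y1 y2 f τ a b e A B) :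
    ∀ i, B (e (d - i)) = (y2 * ss q d i + y1 * (ss q d i)⁻¹) • e (d - i) +
      b (d + 1 - i) • e (d - (i - 1)) := by
  intro i
  rw [h.hB, ss_rev, inv_inv, show (d : ℤ) - i + 1 = d + 1 - i by ring,
    show (d : ℤ) + 1 - i = d - (i - 1) by ring]
  congr 2
  ring

theorem PSD.rev' (h : PSD d q x1 x2 y1 y2 f τ a b e A B) :
    ∀ i, A (e (d - i)) = (x2 * ss q d i + x1 * (ss q d i)⁻¹) • e (d - i) +
      a (d + 1 - (i + 1)) • e (d - (i + 1)) := by
  intro i
  rw [h.hA, ss_rev, inv_inv, show (d : ℤ) + 1 - (i + 1) = d - i by ring,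
    show (d : ℤ) - i - 1 = d - (i + 1) by ring]
  congr 2
  ring

theorem delta (hd : 3 ≤ d) (h : PSD d q x1 x2 y1 y2 f τ a b e A B)
    (ha : ∀ i : ℤ, 1 ≤ i → i ≤ d → a i ≠ 0) {w c : K}
    (hrel : RelA q A B (-(b2 q) ^ 2 * (x1 * x2)) 0 w c) : f = x2 * y2 := by
  have hq := h.hq
  have h2 := h.hroot 2 (by norm_num)
  have h4 := h.hroot 4 (by norm_num)
  have h6 := h.hroot 6 (by norm_num)
  have h8 := h.hroot 8 (by norm_num)
  have hM : Tri e B (fun _ => 0) (fun i => y1 * ss q d i + y2 * (ss q d i)⁻¹) b := by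
    intro i
    rw [h.hB]
    simp
  have E : ∀ i : ℤ, 1 ≤ i → i ≤ d →
      0 * (ss q d i / q) ^ 2 + (-w - (q - q⁻¹) ^ 2 * (QQ q d * τ + x1 * y1 + f + x2 * y1 + x1 * y2)) +
      ((q ^ 3 - q⁻¹ ^ 3) * (q - q⁻¹) * (f - x2 * y2)) * (ss q d i / q)⁻¹ ^ 2 = 0 := by
    intro i h0 h1
    have hb := band1 h.frame h.hA hM hrel h0 h1 (ha i h0 h1) (by
      rw [ss_pred hq]
      have hs := ss_ne_zero hq d i
      unfold b2
      field_simp
      ring)
    beta_reduce at hb
    rw [h.hab, h.hab, h.hab] at hb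
    simp only [ss_succ hq, ss_pred hq] at hb
    have hs := ss_ne_zero hq d i
    generalize ss q d i = s at *
    generalize QQ q d = Q at *
    linear_combination (norm := skip) hb
    field_simp
    ring
  have k1 := E 1 (by omega) (by omega)
  have k2 := E 2 (by omega) (by omega)
  have k3 := E 3 (by omega) (by omega)
  have t2 : ss q d 2 / q = q ^ 2 * (ss q d 1 / q) := by
    rw [show (2 : ℤ) = 1 + 1 by norm_num, ss_succ hq]
    ring
  have t3 : ss q d 3 / q = q ^ 2 * (q ^ 2 * (ss q d 1 / q)) := by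
    rw [show (3 : ℤ) = 2 + 1 by norm_num, ss_succ hq, ← t2]
    ring
  rw [t2] at k2
  rw [t3] at k3
  obtain ⟨v1, v2⟩ := van3 hq h4 h8 (div_ne_zero (ss_ne_zero hq d 1) hq) k1 k2 k3
  have n1 : q - q⁻¹ ≠ 0 := by
    intro h0
    apply h2
    have : q ^ 2 - 1 = (q - q⁻¹) * q := by field_simp
    rw [h0, zero_mul] at this
    linear_combination this
  have n3 : q ^ 3 - q⁻¹ ^ 3 ≠ 0 := by
    intro h0
    apply h6
    have : q ^ 6 - 1 = (q ^ 3 - q⁻¹ ^ 3) * q ^ 3 := by field_simp
    rw [h0, zero_mul] at this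
    linear_combination this
  exact sub_eq_zero.1 ((mul_eq_zero.1 v2).resolve_left (mul_ne_zero n3 n1))

theorem PSD.toSD (h : PSD d q x1 x2 y1 y2 f τ a b e A B)
    (ha : ∀ i : ℤ, 1 ≤ i → i ≤ d → a i ≠ 0) (hb : ∀ i : ℤ, 1 ≤ i → i ≤ d → b i ≠ 0)
    (hf : f = x2 * y2) : SD d q x1 x2 y1 y2 τ a b e A B :=
  ⟨h.hq, h.hroot, h.frame, h.hA, h.hB, fun i => by rw [h.hab, hf]; rfl, ha, hb⟩

end

end Pool.LT
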