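import Mathlib
import Pool.Agent.Work.MP_a7ee28_al_h73.Pair

/-!
# The third map of the triple
-/

set_option autoImplicit false

namespace Pool.LT

open Module

universe u v

variable {K : Type u} {V : Type v} [Field K] [AddCommGroup V] [Module K V]

/-- `A` is diagonal and `B`, `C` are irreducible tridiagonal in the frame `v` -/
structure LFrame (d : ℕ) (A B C : End K V) (v : ℤ → V) (θ pb mb rb pc mc rc : ℤ → K) :
    Prop where
  frame : Frame K d v
  diag : ∀ i, A (v i) = θ i • v i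
  tB : TriE d v B pb mb rb
  tC : TriE d v C pc mc rc

/-- there is such a frame -/
def HasLF (d : ℕ) (A B C : End K V) : Prop :=
  ∃ (v : ℤ → V) (θ pb mb rb pc mc rc : ℤ → K), LFrame d A B C v θ pb mb rb pc mc rc

theorem tri_of_hess {d : ℕ} {e : ℤ → V} {M : End K V} (Fe : Frame K d e)
    (h1 : ∀ i k : ℤ, i + 1 < k → Fe.coord k (M (e i)) = 0)
    (h2 : ∀ i k : ℤ, k < i - 1 → Fe.coord k (M (e i)) = 0) :
    Tri e M (fun i => Fe.coord (i - 1) (M (e i))) (fun i => Fe.coord i (M (e i)))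
      (fun i => Fe.coord i (M (e (i - 1)))) := by
  intro i
  beta_reduce
  rw [add_sub_cancel_right]
  refine Fe.vec_ext fun k hk0 hk1 => ?_
  rw [map_add, map_add, map_smul, map_smul, map_smul]
  simp only [smul_eq_mul]
  by_cases e1 : k = i - 1
  · subst e1
    simp (disch := omega) only [Fe.coord_self, Fe.coord_ne]
    ring
  · by_cases e2 : k = i
    · subst e2
      simp (disch := omega) only [Fe.coord_self, Fe.coord_ne]
      ring
    · by_cases e3 : k = i + 1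
      · subst e3
        simp (disch := omega) only [Fe.coord_self, Fe.coord_ne]
        ring
      · rw [Fe.coord_ne e1, Fe.coord_ne e2, Fe.coord_ne e3]
        simp only [mul_zero, add_zero]
        rcases lt_or_ge k i with h3 | h3
        · exact h2 i k (by omega)
        · exact h1 i k (by omega)

theorem rho_const {β : K} {γ : ℤ → K} {d : ℕ}
    (h : ∀ i : ℤ, 1 ≤ i → i < d → γ (i - 1) - β * γ i + γ (i + 1) = 0) :
    ∀ i : ℤ, 0 ≤ i → i < d → γ i ^ 2 - β * γ i * γ (i + 1) + γ (i + 1) ^ 2 =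
      γ 0 ^ 2 - β * γ 0 * γ 1 + γ 1 ^ 2 := by
  have key : ∀ n : ℕ, (n : ℤ) < d → γ n ^ 2 - β * γ n * γ (n + 1) + γ (n + 1) ^ 2 =
      γ 0 ^ 2 - β * γ 0 * γ 1 + γ 1 ^ 2 := by
    intro n
    induction n with
    | zero =>
      intro _
      simp
    | succ n ih =>
      intro hn
      have h1 := ih (by push_cast at hn; omega)
      have h2 := h (n + 1) (by omega) (by push_cast at hn; omega)
      rw [add_sub_cancel_right] at h2
      push_cast
      rw [← h1]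
      linear_combination (γ (n + 1 + 1) - γ n) * h2
  intro i h0 h1
  have h2 := key i.toNat (by omega)
  rw [show ((i.toNat : ℕ) : ℤ) = i by omega] at h2
  exact h2

section

variable {d : ℕ} {q x1 x2 y1 y2 f τ : K} {a b : ℤ → K} {e : ℤ → V} {A B C : End K V}

theorem ss_rec (hq : q ≠ 0) (x1 x2 : K) (i : ℤ) :
    (x1 * ss q d (i - 1) + x2 * (ss q d (i - 1))⁻¹) -
      (q ^ 2 + q⁻¹ ^ 2) * (x1 * ss q d i + x2 * (ss q d i)⁻¹) +
      (x1 * ss q d (i + 1) + x2 * (ss q d (i + 1))⁻¹) = 0 := by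
  rw [ss_succ hq, ss_pred hq]
  have hs := ss_ne_zero hq d i
  field_simp
  ring

theorem ss_rho (hq : q ≠ 0) (x1 x2 : K) (i : ℤ) :
    (x1 * ss q d i + x2 * (ss q d i)⁻¹) ^ 2 -
      (q ^ 2 + q⁻¹ ^ 2) * (x1 * ss q d i + x2 * (ss q d i)⁻¹) *
        (x1 * ss q d (i + 1) + x2 * (ss q d (i + 1))⁻¹) +
      (x1 * ss q d (i + 1) + x2 * (ss q d (i + 1))⁻¹) ^ 2 = -(b2 q) ^ 2 * (x1 * x2) := by
  rw [ss_succ hq]
  have hs := ss_ne_zero hq d i
  unfold b2
  field_simp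
  ring

/-- nondegeneracy -/
theorem nondeg (hd : 1 ≤ d) (h : SD d q x1 x2 y1 y2 τ a b e A B) {v : ℤ → V} (Fv : Frame K d v)
    (hAv : ∀ i, A (v i) = (x1 * ss q d i + x2 * (ss q d i)⁻¹) • v i) {p m r : ℤ → K}
    (hB : TriE d v B p m r) (hx : ¬ (x1 = 0 ∧ x2 = 0)) : ¬ (x1 = 0 ∧ y1 = 0 ∧ τ = 0) := by
  rintro ⟨h1, h2, h3⟩
  have hq := h.hq
  have h4 := h.hroot 4 (by norm_num)
  have hx2 : x2 ≠ 0 := fun h0 => hx ⟨h1, h0⟩
  have hC : C1 d q x1 x2 y1 y2 τ A B = 0 := by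
    refine h.frame.ext fun i _ _ => ?_
    rw [C1_apply h, h1, h2, h3]
    simp
  have h5 := congrArg (fun N : End K V => Fv.coord 0 (N (v 1))) hC
  unfold C1 at h5
  simp only [LinearMap.add_apply, LinearMap.sub_apply, LinearMap.smul_apply,
    Module.End.mul_apply, Module.End.one_apply, hAv, hB.app, map_add, map_smul, map_sub,
    smul_eq_mul, LinearMap.zero_apply, map_zero] at h5
  rw [sub_self, Fv.coord_self le_rfl (by omega), Fv.coord_ne (by omega), Fv.coord_ne (by omega),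
    h1, show ss q d 1 = q ^ 2 * ss q d 0 by rw [← ss_succ hq, zero_add]] at h5
  have hp := hB.hp 1 le_rfl (by omega)
  have hs := ss_ne_zero hq d 0
  apply h4
  have h6 : (p 1 * x2 * (ss q d 0)⁻¹ * (q ^ 3)⁻¹) * (q ^ 4 - 1) = 0 := by
    rw [← h5]
    field_simp
    ring
  exact sub_eq_zero.1 ((mul_eq_zero.1 h6).resolve_left (by positivity))

/-- the third map, up to a scalar and `C₁`, `C₂` -/
theorem third (hd : 3 ≤ d) (h : PSD d q x1 x2 y1 y2 f τ a b e A B) (hA : HasLF d A B C)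
    (hB : HasLF d B A C) (hC : HasLF d C A B) :
    f = x2 * y2 ∧ ∃ G s : K, C = G • 1 + s • C1 d q x1 x2 y1 y2 τ A B ∨
      C = G • 1 + s • C2 d q x1 x2 y1 y2 τ A B := by
  have hq := h.hq
  have h2 := h.hroot 2 (by norm_num)
  have hβ := two_sub_ne hq h2
  obtain ⟨v, θ, pb, mb, rb, pc, mc, rc, L⟩ := hA
  obtain ⟨w, η, pb', mb', rb', pc', mc', rc', L'⟩ := hB
  obtain ⟨c, γ, pa, ma, ra, pb'', mb'', rb'', L''⟩ := hC
  have injA : ∀ i j : ℤ, 0 ≤ i → i ≤ d → 0 ≤ j → j ≤ d → θ i = θ j → i = j :=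
    fun i j hi0 hi1 hj0 hj1 hij => distinct L.frame L'.frame L.diag L'.tB hi0 hi1 hj0 hj1 hij
  have injB : ∀ i j : ℤ, 0 ≤ i → i ≤ d → 0 ≤ j → j ≤ d → η i = η j → i = j :=
    fun i j hi0 hi1 hj0 hj1 hij => distinct L'.frame L.frame L'.diag L.tB hi0 hi1 hj0 hj1 hij
  have irrAB : Irr A B := fun W hWA hWB hW => irred L.frame L.diag injA L.tB hWA hWB hW
  have irrBA : Irr B A := fun W hWB hWA hW => irred L.frame L.diag injA L.tB hWA hWB hW
  have ha : ∀ i : ℤ, 1 ≤ i → i ≤ d → a i ≠ 0 := fun i h1 h2 =>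
    a_ne h.frame h.hA h.hB irrAB h1 h2
  have hb : ∀ i : ℤ, 1 ≤ i → i ≤ d → b i ≠ 0 := by
    intro i h1 h2
    have h3 := a_ne (a := fun i => b (d + 1 - i)) (b := fun i => a (d + 1 - i))
      h.frame.rev h.rev h.rev' irrBA (i := d + 1 - i) (by omega) (by omega)
    beta_reduce at h3
    rwa [show (d : ℤ) + 1 - (d + 1 - i) = i by ring] at h3
  -- the frames in the order of `e`
  obtain ⟨v', Fv', hv', hAv', htri, hdg⟩ := order h.frame L.frame h.hA h.hB L.diag injA L.tB hb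
  have L1 : ∃ pb mb rb pc mc rc, LFrame d A B C v'
      (fun i => x1 * ss q d i + x2 * (ss q d i)⁻¹) pb mb rb pc mc rc := by
    rcases hv' with hv' | hv'
    · exact ⟨_, _, _, _, _, _, Fv', hAv', by rw [hv']; exact L.tB, by rw [hv']; exact L.tC⟩
    · exact ⟨_, _, _, _, _, _, Fv', hAv', by rw [hv']; exact L.tB.rev, by
        rw [hv']; exact L.tC.rev⟩
  obtain ⟨pb1, mb1, rb1, pc1, mc1, rc1, L1⟩ := L1
  obtain ⟨w', Fw', hw', hBw', htri', hdg'⟩ := order (a := fun i => b (d + 1 - i))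
    (b := fun i => a (d + 1 - i)) (θ := fun i => y2 * ss q d i + y1 * (ss q d i)⁻¹)
    (θ' := fun i => x2 * ss q d i + x1 * (ss q d i)⁻¹)
    h.frame.rev L'.frame h.rev h.rev' L'.diag injB L'.tB
    (fun i h1 h2 => ha (d + 1 - i) (by omega) (by omega))
  have L2 : ∃ pb mb rb pc mc rc, LFrame d B A C w'
      (fun i => y2 * ss q d i + y1 * (ss q d i)⁻¹) pb mb rb pc mc rc := by
    rcases hw' with hw' | hw'
    · exact ⟨_, _, _, _, _, _, Fw', hBw', by rw [hw']; exact L'.tB, by rw [hw']; exact L'.tC⟩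
    · exact ⟨_, _, _, _, _, _, Fw', hBw', by rw [hw']; exact L'.tB.rev, by
        rw [hw']; exact L'.tC.rev⟩
  obtain ⟨pb2, mb2, rb2, pc2, mc2, rc2, L2⟩ := L2
  -- the relation of `A` and `B`, and the identity of the parameters
  obtain ⟨g0, w0, k0, hr0, hg0⟩ := askey_wilson (β := q ^ 2 + q⁻¹ ^ 2)
    (ρ := -(b2 q) ^ 2 * (x1 * x2)) (by omega) L1.frame L2.frame L1.diag
    L1.tB L2.tB L2.diag (fun i _ _ => ss_rho hq x1 x2 i)
  have hg0' := hg0 1 le_rfl (by omega)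
  rw [ss_rec hq y2 y1 1] at hg0'
  rw [← hg0'] at hr0
  have hf : f = x2 * y2 := delta hd h ha hr0
  have hS := h.toSD ha hb hf
  refine ⟨hf, ?_⟩
  -- the constant
  obtain ⟨g, w1, k1, hr1, hg1⟩ := askey_wilson (β := q ^ 2 + q⁻¹ ^ 2)
    (ρ := -(b2 q) ^ 2 * (x1 * x2)) (by omega) L1.frame L''.frame L1.diag
    L1.tC L''.tB L''.diag (fun i _ _ => ss_rho hq x1 x2 i)
  set G := g / (2 - (q ^ 2 + q⁻¹ ^ 2)) with hG
  have hG' : G * (2 - (q ^ 2 + q⁻¹ ^ 2)) = g := by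
    rw [hG, div_mul_cancel₀ _ hβ]
  have hC' : ∀ i, (C - G • 1) (c i) = (γ i - G) • c i := by
    intro i
    rw [LinearMap.sub_apply, L''.diag, LinearMap.smul_apply, Module.End.one_apply, sub_smul]
  have hγ : ∀ i : ℤ, 1 ≤ i → i < d → (γ (i - 1) - G) - (q ^ 2 + q⁻¹ ^ 2) * (γ i - G) +
      (γ (i + 1) - G) = 0 := by
    intro i h1 h2
    linear_combination hg1 i h1 h2 - hG'
  -- the four relations
  obtain ⟨g3, w3, k3, hr3, hg3⟩ := askey_wilson (β := q ^ 2 + q⁻¹ ^ 2)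
    (ρ := -(b2 q) ^ 2 * (x1 * x2)) (by omega) L1.frame L''.frame L1.diag
    (L1.tC.shift G) L''.tB hC' (fun i _ _ => ss_rho hq x1 x2 i)
  have hg3' := hg3 1 le_rfl (by omega)
  rw [hγ 1 le_rfl (by omega)] at hg3'
  rw [← hg3'] at hr3
  obtain ⟨g4, w4, k4, hr4, hg4⟩ := askey_wilson (β := q ^ 2 + q⁻¹ ^ 2)
    (ρ := -(b2 q) ^ 2 * (y2 * y1)) (by omega) L2.frame L''.frame L2.diag
    (L2.tC.shift G) L''.tC hC' (fun i _ _ => ss_rho hq y2 y1 i)
  have hg4' := hg4 1 le_rfl (by omega)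
  rw [hγ 1 le_rfl (by omega)] at hg4'
  rw [← hg4', mul_comm y2 y1] at hr4
  obtain ⟨g5, w5, k5, hr5, hg5⟩ := askey_wilson (β := q ^ 2 + q⁻¹ ^ 2)
    (by omega) L''.frame L1.frame hC' L''.tB (L1.tC.shift G) L1.diag (rho_const hγ)
  have hg5' := hg5 1 le_rfl (by omega)
  rw [ss_rec hq x1 x2 1] at hg5'
  rw [← hg5', zero_smul, add_zero] at hr5
  obtain ⟨g6, w6, k6, hr6, hg6⟩ := askey_wilson (β := q ^ 2 + q⁻¹ ^ 2)
    (by omega) L''.frame L2.frame hC' L''.tC (L2.tC.shift G) L2.diag (rho_const hγ)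
  have hg6' := hg6 1 le_rfl (by omega)
  rw [ss_rec hq y2 y1 1] at hg6'
  rw [← hg6', zero_smul, add_zero] at hr6
  -- tridiagonal shape
  have hM : Tri e (C - G • 1) (fun i => h.frame.coord (i - 1) ((C - G • 1) (e i)))
      (fun i => h.frame.coord i ((C - G • 1) (e i)))
      (fun i => h.frame.coord i ((C - G • 1) (e (i - 1)))) := by
    refine tri_of_hess h.frame (fun i k hik => ?_) (fun i k hik => ?_)
    · exact hess h.frame Fv' htri hdg (L1.tC.shift G) i k hik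
    · have h3 := hess h.frame.rev Fw' htri' hdg' (L2.tC.shift G) (d - i) (d - k) (by omega)
      rw [Frame.rev_coord, show (d : ℤ) - (d - k) = k by ring,
        show (d : ℤ) - (d - i) = i by ring] at h3
      exact h3
  -- nondegeneracy
  have hx : ¬ (x1 = 0 ∧ x2 = 0) := by
    rintro ⟨h3, h4⟩
    have h5 := distinct (θ := fun i => x1 * ss q d i + x2 * (ss q d i)⁻¹) L1.frame L2.frame
      L1.diag L2.tB (i := 0) (j := 1) le_rfl (by omega) (by omega) (by omega)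
      (by simp only [h3, h4, zero_mul])
    omega
  have hy : ¬ (y2 = 0 ∧ y1 = 0) := by
    rintro ⟨h3, h4⟩
    have h5 := distinct (θ := fun i => y2 * ss q d i + y1 * (ss q d i)⁻¹) L2.frame L1.frame
      L2.diag L1.tB (i := 0) (j := 1) le_rfl (by omega) (by omega) (by omega)
      (by simp only [h3, h4, zero_mul])
    omega
  have n1 := nondeg (by omega) hS L1.frame L1.diag L1.tB hx
  have n2 := nondeg (by omega) hS.rev L2.frame L2.diag L2.tB hy
  have n2' : ¬ (x2 = 0 ∧ y2 = 0 ∧ τ = 0) := fun ⟨h3, h4, h5⟩ => n2 ⟨h4, h3, h5⟩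
  have hy' : ¬ (y1 = 0 ∧ y2 = 0) := fun ⟨h3, h4⟩ => hy ⟨h4, h3⟩
  rcases core hd hS hM hr3 hr4 hr5 hr6 n1 n2' hy' with ⟨s, hs⟩ | ⟨s, hs⟩
  · exact ⟨G, s, Or.inl (by rw [← hs]; abel)⟩
  · exact ⟨G, s, Or.inr (by rw [← hs]; abel)⟩

end

end Pool.LT
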