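import Mathlib
import Pool.Agent.Work.MP_a7ee28_al_h73.Third

/-!
# The pair in the module, and the span of `1, Z, X, Z X`
-/

set_option autoImplicit false

namespace Pool.LT

open Module

universe u v

variable {K : Type u} {V : Type v} [Field K] [AddCommGroup V] [Module K V]

variable {d : ℕ} {q α1 α2 α3 β1 β2 β3 : K} {e : ℤ → V} {X Y Z : End K V}

/-- `A` -/
def mA (α1 α2 α3 : K) (X Y : End K V) : End K V := α1 • X + α2 • Y + α3 • (X * Y - 1)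

/-- `B` -/
def mB (β1 β2 β3 : K) (Y Z : End K V) : End K V := β1 • Y + β2 • Z + β3 • (Y * Z - 1)

theorem mA_apply (hq : q ≠ 0) (h : Std d q X Y Z e) (i : ℤ) :
    mA α1 α2 α3 X Y (e i) = (α1 * ss q d i + α2 * (ss q d i)⁻¹) • e i +
      ((α1 + α3 * (ss q d i)⁻¹) * br q (d + 1 - i)) • e (i - 1) := by
  unfold mA
  simp only [LinearMap.add_apply, LinearMap.sub_apply, LinearMap.smul_apply,
    Module.End.mul_apply, Module.End.one_apply, h.hX, h.hY, map_smul]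
  have hs := ss_ne_zero hq d i
  match_scalars <;> field_simp
  ring

theorem mB_apply (hq : q ≠ 0) (h : Std d q X Y Z e) (i : ℤ) :
    mB β1 β2 β3 Y Z (e i) = (β2 * ss q d i + β1 * (ss q d i)⁻¹) • e i +
      ((β2 + β3 * (ss q d (i + 1))⁻¹) * (-(ss q d (i + 1) * q⁻¹) * br q (i + 1))) • e (i + 1) := by
  unfold mB
  simp only [LinearMap.add_apply, LinearMap.sub_apply, LinearMap.smul_apply,
    Module.End.mul_apply, Module.End.one_apply, h.hZ, h.hY, map_sub, map_smul, ss_succ hq]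
  have hs := ss_ne_zero hq d i
  match_scalars
  · field_simp
    ring
  · field_simp
    ring

theorem br_mul_br (hq : q ≠ 0) (i : ℤ) :
    br q i * br q (d + 1 - i) = QQ q d - ss q d i / q - (ss q d i / q)⁻¹ := by
  have e1 : q ^ ((d : ℤ) + 1 - i) = q ^ (d : ℤ) * q * (q ^ i)⁻¹ := by
    rw [sub_eq_add_neg, zpow_add₀ hq, zpow_add₀ hq, zpow_one, zpow_neg]
  have e2 : ss q d i = (q ^ i) ^ 2 * (q ^ (d : ℤ))⁻¹ := by
    unfold ss
    rw [sub_eq_add_neg, zpow_add₀ hq, zpow_neg, two_mul, zpow_add₀ hq]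
    ring
  have e3 : q ^ ((d : ℤ) + 1) = q ^ (d : ℤ) * q := by rw [zpow_add₀ hq, zpow_one]
  unfold br QQ
  rw [zpow_neg, zpow_neg, zpow_neg, e1, e2, e3]
  have h1 : q ^ i ≠ 0 := zpow_ne_zero _ hq
  have h2 : q ^ (d : ℤ) ≠ 0 := zpow_ne_zero _ hq
  generalize q ^ i = P at *
  generalize q ^ (d : ℤ) = D at *
  field_simp
  ring

theorem psd (hq : q ≠ 0) (hroot : ∀ n : ℕ, 0 < n → q ^ n ≠ 1) (h : Std d q X Y Z e) :
    PSD d q α1 α2 β2 β1 (α3 * β3 * q⁻¹ ^ 2) (-(α1 * β3 + α3 * β2) * q⁻¹)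
      (fun i => (α1 + α3 * (ss q d i)⁻¹) * br q (d + 1 - i))
      (fun i => (β2 + β3 * (ss q d i)⁻¹) * (-(ss q d i * q⁻¹) * br q i)) e
      (mA α1 α2 α3 X Y) (mB β1 β2 β3 Y Z) := by
  refine ⟨hq, hroot, h.frame, mA_apply hq h, mB_apply hq h, fun i => ?_⟩
  rw [← br_mul_br hq i]
  have hs := ss_ne_zero hq d i
  generalize br q i = u
  generalize br q ((d : ℤ) + 1 - i) = w
  field_simp
  ring

theorem br_all (hq : q ≠ 0) (i : ℤ) :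
    br q i = q ^ i - (q ^ i)⁻¹ ∧ br q (i + 1) = q ^ i * q - (q ^ i * q)⁻¹ ∧
    br q (d + 1 - i) = q ^ (d : ℤ) * q * (q ^ i)⁻¹ - (q ^ (d : ℤ) * q * (q ^ i)⁻¹)⁻¹ ∧
    br q (d - i) = q ^ (d : ℤ) * (q ^ i)⁻¹ - (q ^ (d : ℤ) * (q ^ i)⁻¹)⁻¹ ∧
    ss q d i = (q ^ i) ^ 2 * (q ^ (d : ℤ))⁻¹ := by
  have e1 : q ^ ((d : ℤ) + 1 - i) = q ^ (d : ℤ) * q * (q ^ i)⁻¹ := by
    rw [sub_eq_add_neg, zpow_add₀ hq, zpow_add₀ hq, zpow_one, zpow_neg]
  have e2 : ss q d i = (q ^ i) ^ 2 * (q ^ (d : ℤ))⁻¹ := by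
    unfold ss
    rw [sub_eq_add_neg, zpow_add₀ hq, zpow_neg, two_mul, zpow_add₀ hq]
    ring
  have e3 : q ^ (i + 1) = q ^ i * q := by rw [zpow_add₀ hq, zpow_one]
  have e4 : q ^ ((d : ℤ) - i) = q ^ (d : ℤ) * (q ^ i)⁻¹ := by
    rw [sub_eq_add_neg, zpow_add₀ hq, zpow_neg]
  refine ⟨?_, ?_, ?_, ?_, e2⟩
  · unfold br
    rw [zpow_neg]
  · unfold br
    rw [zpow_neg, e3]
  · unfold br
    rw [zpow_neg, e1]
  · unfold br
    rw [zpow_neg, e4]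

theorem comb (hq : q ≠ 0) (h : Std d q X Y Z e) (hf : α3 * β3 * q⁻¹ ^ 2 = α2 * β1) :
    q • (mA α1 α2 α3 X Y * mB β1 β2 β3 Y Z) - q⁻¹ • (mB β1 β2 β3 Y Z * mA α1 α2 α3 X Y) =
      ((q - q⁻¹) * (α1 * β1 + α2 * β2 + α2 * β1) - (q ^ 3 - q) * (α1 * β2) -
        (q - q⁻¹) * QQ q d * q⁻¹ * (α1 * β3 + α3 * β2)) • (1 : End K V) +
      ((q ^ 2 - q⁻¹ ^ 2) * q⁻¹ * (α1 * β3)) • Z +
      ((q ^ 2 - q⁻¹ ^ 2) * q⁻¹ * (α3 * β2)) • X +
      ((q ^ 2 - q⁻¹ ^ 2) * q * (α1 * β2)) • (Z * X) := by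
  refine h.frame.ext fun i _ _ => ?_
  obtain ⟨b1, b2, b3, b4, b5⟩ := br_all (d := d) hq i
  have b6 : QQ q d = q ^ (d : ℤ) * q + (q ^ (d : ℤ) * q)⁻¹ := by
    unfold QQ
    rw [zpow_neg, zpow_add₀ hq, zpow_one]
  simp only [LinearMap.add_apply, LinearMap.sub_apply, LinearMap.smul_apply,
    Module.End.mul_apply, Module.End.one_apply, mA_apply hq h, mB_apply hq h, h.hX, h.hZ,
    map_add, map_smul, sub_add_cancel, add_sub_cancel_right, ss_succ hq, ss_pred hq]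
  rw [show (d : ℤ) + 1 - (i + 1) = d - i by ring, b1, b2, b3, b4, b5, b6]
  have h1 : q ^ i ≠ 0 := zpow_ne_zero _ hq
  have h2 : q ^ (d : ℤ) ≠ 0 := zpow_ne_zero _ hq
  generalize q ^ i = P at *
  generalize q ^ (d : ℤ) = D at *
  match_scalars
  · linear_combination (norm := skip) ((q - q⁻¹) * (1 - (P ^ 2 * D⁻¹)⁻¹ ^ 2)) * hf
    field_simp
    ring
  · field_simp
    ring
  · field_simp
    ring

end Pool.LT
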