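import Mathlib
import Pool.Agent.Work.MP_a7ee28_al_h73.Comb
import Pool.Agent.Work.MP_a7ee28_al_h73.Defs

/-!
# From the definitions of the problem to frames
-/

set_option autoImplicit false

namespace Pool.LT

open Module
open Pool.Agent.Results.MP_a7ee28_al.ByDiameter

universe u v

variable {K : Type u} {V : Type v} [Field K] [AddCommGroup V] [Module K V]

theorem of_basis_basis {d : ℕ} (b : Basis (Fin (d + 1)) K V) :
    (Frame.of_basis b).basis = b := by
  refine Basis.eq_of_apply_eq fun i => ?_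
  rw [Frame.basis_apply, Frame.ofB_apply]

theorem coord_ofB {d : ℕ} (b : Basis (Fin (d + 1)) K V) (k : ℤ) (hk : 0 ≤ k ∧ k ≤ d) (x : V) :
    (Frame.of_basis b).coord k x = b.repr x ⟨k.toNat, by omega⟩ := by
  unfold Frame.coord
  rw [dif_pos hk, of_basis_basis, Basis.coord_apply]

/-- the entries of a matrix, extended by zero -/
noncomputable def ent {d : ℕ} (M : Matrix (Fin (d + 1)) (Fin (d + 1)) K) (i j : ℤ) : K :=
  if h : (0 ≤ i ∧ i ≤ d) ∧ (0 ≤ j ∧ j ≤ d) then M ⟨i.toNat, by omega⟩ ⟨j.toNat, by omega⟩ else 0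

theorem coord_ent {d : ℕ} (b : Basis (Fin (d + 1)) K V) (B : End K V) (k j : ℤ) :
    (Frame.of_basis b).coord k (B (Frame.ofB b j)) = ent (LinearMap.toMatrix b b B) k j := by
  unfold ent
  by_cases hk : 0 ≤ k ∧ k ≤ d
  · by_cases hj : 0 ≤ j ∧ j ≤ d
    · rw [dif_pos ⟨hk, hj⟩, coord_ofB b k hk, LinearMap.toMatrix_apply]
      congr 3
      unfold Frame.ofB
      rw [dif_pos hj]
    · rw [dif_neg (fun h => hj h.2), (Frame.of_basis b).out j hj, map_zero, map_zero]
  · rw [dif_neg (fun h => hk h.1), (Frame.of_basis b).coord_out hk]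
    rfl

theorem diag_of {d : ℕ} (b : Basis (Fin (d + 1)) K V) {A : End K V}
    (hA : (LinearMap.toMatrix b b A).IsDiag) (i : ℤ) :
    A (Frame.ofB b i) = ent (LinearMap.toMatrix b b A) i i • Frame.ofB b i := by
  refine (Frame.of_basis b).vec_ext fun k hk0 hk1 => ?_
  rw [coord_ent, map_smul, smul_eq_mul]
  by_cases hki : k = i
  · subst hki
    rw [(Frame.of_basis b).coord_self hk0 hk1, mul_one]
  · rw [(Frame.of_basis b).coord_ne hki, mul_zero]
    unfold ent
    split_ifs with h
    · refine hA ?_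
      intro h2
      rw [Fin.mk.injEq] at h2
      omega
    · rfl

theorem tri_of {d : ℕ} (b : Basis (Fin (d + 1)) K V) {B : End K V}
    (hB : IsIrredTridiag (LinearMap.toMatrix b b B)) :
    TriE d (Frame.ofB b) B (fun i => ent (LinearMap.toMatrix b b B) (i - 1) i)
      (fun i => ent (LinearMap.toMatrix b b B) i i)
      (fun i => ent (LinearMap.toMatrix b b B) (i + 1) i) := by
  have hz : ∀ k i : ℤ, k < i - 1 ∨ i + 1 < k → ent (LinearMap.toMatrix b b B) k i = 0 := by
    intro k i h
    unfold ent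
    split_ifs with h2
    · refine (hB _ _).1 ?_
      simp only
      omega
    · rfl
  refine ⟨fun i => ?_, fun i h1 h2 => ?_, fun i h1 h2 => ?_⟩
  · refine (Frame.of_basis b).vec_ext fun k hk0 hk1 => ?_
    rw [coord_ent, map_add, map_add, map_smul, map_smul, map_smul]
    simp only [smul_eq_mul]
    by_cases e1 : k = i - 1
    · subst e1
      simp (disch := omega) only [Frame.coord_self, Frame.coord_ne]
      ring
    · by_cases e2 : k = i
      · subst e2
        simp (disch := omega) only [Frame.coord_self, Frame.coord_ne]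
        ring
      · by_cases e3 : k = i + 1
        · subst e3
          simp (disch := omega) only [Frame.coord_self, Frame.coord_ne]
          ring
        · rw [Frame.coord_ne _ e1, Frame.coord_ne _ e2, Frame.coord_ne _ e3, hz k i (by omega)]
          ring
  · unfold ent
    rw [dif_pos (by omega)]
    refine (hB _ _).2 ?_
    simp only
    omega
  · unfold ent
    rw [dif_pos (by omega)]
    refine (hB _ _).2 ?_
    simp only
    omega

theorem hasLF_of {d : ℕ} {A B C : End K V} (h : HasLeonardBasis d A B C) : HasLF d A B C := by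
  obtain ⟨b, hA, hB, hC⟩ := h
  exact ⟨_, _, _, _, _, _, _, _, Frame.of_basis b, diag_of b hA, tri_of b hB, tri_of b hC⟩

theorem HasLF.shift {d : ℕ} {A B C : End K V} (h : HasLF d A B C) (x y z : K) :
    HasLF d (A - x • 1) (B - y • 1) (C - z • 1) := by
  obtain ⟨v, θ, pb, mb, rb, pc, mc, rc, L⟩ := h
  refine ⟨v, fun i => θ i - x, _, _, _, _, _, _, L.frame, fun i => ?_, L.tB.shift y, L.tC.shift z⟩
  rw [LinearMap.sub_apply, L.diag, LinearMap.smul_apply, Module.End.one_apply, sub_smul]

theorem sub_inv_ne {q : K} (hq : q ≠ 0) (h2 : q ^ 2 ≠ 1) : q - q⁻¹ ≠ 0 := by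
  intro h0
  apply h2
  have : q ^ 2 - 1 = (q - q⁻¹) * q := by field_simp
  rw [h0, zero_mul] at this
  linear_combination this

theorem rels_of {q : K} {X Xi Y Z : End K V} (hq : q ≠ 0) (hroot : ∀ n : ℕ, 0 < n → q ^ n ≠ 1)
    (h : IsEquitable q X Xi Y Z) : Rels q X Xi Y Z := by
  have hne := sub_inv_ne hq (hroot 2 (by norm_num))
  have key : ∀ P Q : End K V, (q - q⁻¹)⁻¹ • (q • (P * Q) - q⁻¹ • (Q * P)) = 1 →
      ∀ v, q • P (Q v) - q⁻¹ • Q (P v) = (q - q⁻¹) • v := by
    intro P Q h1 v
    have h2 := congrArg (fun N : End K V => (q - q⁻¹) • N v) h1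
    simp only [LinearMap.smul_apply, LinearMap.sub_apply, Module.End.mul_apply,
      Module.End.one_apply, smul_smul, mul_inv_cancel₀ hne, one_smul] at h2
    exact h2
  refine ⟨hq, hroot, fun v => ?_, fun v => ?_, key X Y h.xy, key Y Z h.yz, key Z X h.zx⟩
  · exact congrArg (fun N : End K V => N v) h.mul_inv
  · exact congrArg (fun N : End K V => N v) h.inv_mul

end Pool.LT
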