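import Mathlib
import Pool.Agent.Work.MP_a7ee28_al_h73.Bridge

/-!
# The positive part
-/

set_option autoImplicit false

namespace Pool.LT

open Module
open Pool.Agent.Results.MP_a7ee28_al.ByDiameter

universe u v

variable {K : Type u} {V : Type v} [Field K] [AddCommGroup V] [Module K V]

theorem dagger_one {A As : End K V} {τ : End K V → End K V} (h : IsDagger A As τ) : τ 1 = 1 := by
  obtain ⟨M, hM⟩ := h.bijective.2 1
  have h1 := h.map_mul M 1
  rw [mul_one, hM, mul_one] at h1
  exact h1.symm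

/-- the diagonal matrix -/
noncomputable def dd {d : ℕ} (N : Matrix (Fin (d + 1)) (Fin (d + 1)) K) (n : ℕ) : K :=
  ∏ k ∈ Finset.range n, (ent N k (k + 1) / ent N (k + 1) k)

theorem exists_dagger {d : ℕ} {A As Ae : End K V} (h : HasLeonardBasis d A As Ae) :
    ∃ τ : End K V → End K V, IsDagger A As τ := by
  obtain ⟨b, hA, hB, -⟩ := h
  set N := LinearMap.toMatrix b b As with hN
  have hu : ∀ k : ℕ, k < d → ent N k (k + 1) ≠ 0 := by
    intro k hk
    unfold ent
    rw [dif_pos (by omega)]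
    refine (hB _ _).2 ?_
    simp only
    omega
  have hl : ∀ k : ℕ, k < d → ent N (k + 1) k ≠ 0 := by
    intro k hk
    unfold ent
    rw [dif_pos (by omega)]
    refine (hB _ _).2 ?_
    simp only
    omega
  have hd0 : ∀ n : ℕ, n ≤ d → dd N n ≠ 0 := by
    intro n hn
    unfold dd
    refine Finset.prod_ne_zero_iff.2 fun k hk => ?_
    rw [Finset.mem_range] at hk
    exact div_ne_zero (hu k (by omega)) (hl k (by omega))
  have hent : ∀ i j : Fin (d + 1), N i j = ent N (i : ℕ) (j : ℕ) := by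
    intro i j
    unfold ent
    rw [dif_pos (by omega)]
    congr 1
  have hsucc : ∀ n : ℕ, n < d → dd N n * ent N n (n + 1) = ent N (n + 1) n * dd N (n + 1) := by
    intro n hn
    have h1 := hl n hn
    unfold dd
    rw [Finset.prod_range_succ]
    field_simp
  -- the diagonal matrices
  set D : Matrix (Fin (d + 1)) (Fin (d + 1)) K := Matrix.diagonal fun i => dd N (i : ℕ) with hD
  set Di : Matrix (Fin (d + 1)) (Fin (d + 1)) K :=
    Matrix.diagonal fun i => (dd N (i : ℕ))⁻¹ with hDi
  have hDDi : D * Di = 1 := by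
    rw [hD, hDi, Matrix.diagonal_mul_diagonal, ← Matrix.diagonal_one]
    congr 1
    funext i
    exact mul_inv_cancel₀ (hd0 _ (by omega))
  have hDiD : Di * D = 1 := by
    rw [hD, hDi, Matrix.diagonal_mul_diagonal, ← Matrix.diagonal_one]
    congr 1
    funext i
    exact inv_mul_cancel₀ (hd0 _ (by omega))
  have hDt : D.transpose = D := by rw [hD, Matrix.diagonal_transpose]
  have hDit : Di.transpose = Di := by rw [hDi, Matrix.diagonal_transpose]
  have hNs : N.transpose * D = D * N := by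
    ext i j
    rw [hD, Matrix.mul_diagonal, Matrix.diagonal_mul, Matrix.transpose_apply]
    rcases lt_trichotomy (i : ℕ) j with h1 | h1 | h1
    · rcases eq_or_lt_of_le (Nat.succ_le_of_lt h1) with h2 | h2
      · have h3 := hsucc i (by omega)
        rw [hent i j, hent j i, ← h2]
        push_cast
        exact h3.symm
      · rw [(hB i j).1 (Or.inl (by omega)), (hB j i).1 (Or.inr (by omega))]
        ring
    · have h2 : i = j := Fin.ext h1
      rw [h2]
      ring
    · rcases eq_or_lt_of_le (Nat.succ_le_of_lt h1) with h2 | h2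
      · have h3 := hsucc j (by omega)
        rw [hent i j, hent j i, ← h2]
        push_cast
        rw [mul_comm, h3]
        ring
      · rw [(hB i j).1 (Or.inr (by omega)), (hB j i).1 (Or.inl (by omega))]
        ring
  have hAs : (LinearMap.toMatrix b b A).transpose * D = D * LinearMap.toMatrix b b A := by
    ext i j
    rw [hD, Matrix.mul_diagonal, Matrix.diagonal_mul, Matrix.transpose_apply]
    by_cases h1 : i = j
    · rw [h1]
      ring
    · rw [hA h1, hA (Ne.symm h1)]
      ring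
  let φ := LinearMap.toMatrixAlgEquiv b
  let σ : Matrix (Fin (d + 1)) (Fin (d + 1)) K → Matrix (Fin (d + 1)) (Fin (d + 1)) K :=
    fun M => Di * M.transpose * D
  have hσ : ∀ M, σ (σ M) = M := by
    intro M
    show Di * (Di * M.transpose * D).transpose * D = M
    rw [Matrix.transpose_mul, Matrix.transpose_mul, Matrix.transpose_transpose, hDt, hDit]
    calc Di * (D * (M * Di)) * D = (Di * D) * M * (Di * D) := by simp only [Matrix.mul_assoc]
      _ = M := by rw [hDiD, Matrix.one_mul, Matrix.mul_one]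
  have hadd : ∀ M N, σ (M + N) = σ M + σ N := by
    intro M N
    show Di * (M + N).transpose * D = Di * M.transpose * D + Di * N.transpose * D
    rw [Matrix.transpose_add, Matrix.mul_add, Matrix.add_mul]
  have hsmul : ∀ (c : K) (M), σ (c • M) = c • σ M := by
    intro c M
    show Di * (c • M).transpose * D = c • (Di * M.transpose * D)
    rw [Matrix.transpose_smul, Matrix.mul_smul, Matrix.smul_mul]
  have hmul : ∀ M N, σ (M * N) = σ N * σ M := by
    intro M N
    show Di * (M * N).transpose * D = (Di * N.transpose * D) * (Di * M.transpose * D)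
    rw [Matrix.transpose_mul]
    calc Di * (N.transpose * M.transpose) * D
        = Di * N.transpose * (1 : Matrix (Fin (d + 1)) (Fin (d + 1)) K) * M.transpose * D := by
          rw [Matrix.mul_one]
          simp only [Matrix.mul_assoc]
      _ = _ := by
          rw [← hDDi]
          simp only [Matrix.mul_assoc]
  refine ⟨fun M => φ.symm (σ (φ M)), fun M N => ?_, fun c M => ?_, fun M N => ?_, ?_, ?_, ?_⟩
  · rw [map_add φ, hadd, map_add φ.symm]
  · rw [map_smul φ, hsmul, map_smul φ.symm]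
  · rw [map_mul φ, hmul, map_mul φ.symm]
  · refine Function.Involutive.bijective fun M => ?_
    rw [AlgEquiv.apply_symm_apply, hσ, AlgEquiv.symm_apply_apply]
  · have h1 : σ (φ A) = φ A := by
      show Di * (LinearMap.toMatrix b b A).transpose * D = LinearMap.toMatrix b b A
      rw [Matrix.mul_assoc, hAs, ← Matrix.mul_assoc, hDiD, Matrix.one_mul]
    rw [h1, AlgEquiv.symm_apply_apply]
  · have h1 : σ (φ As) = φ As := by
      show Di * (LinearMap.toMatrix b b As).transpose * D = LinearMap.toMatrix b b As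
      rw [Matrix.mul_assoc, ← hN, hNs, ← Matrix.mul_assoc, hDiD, Matrix.one_mul]
    rw [h1, AlgEquiv.symm_apply_apply]

theorem comb_of_signs {X Z M : End K V} {ε : K} (hε : ε * ε = 1)
    (h : IsComb (ε • Z) (ε • X) M) : IsComb Z X M := by
  obtain ⟨a, b, c, e, h⟩ := h
  refine ⟨a, b * ε, c * ε, e, ?_⟩
  rw [h, smul_smul, smul_smul, smul_mul_smul_comm, hε, one_smul]

theorem comb_add {P Q M : End K V} (h : IsComb P Q M) (k : K) : IsComb P Q (M + k • 1) := by
  obtain ⟨a, b, c, e, h⟩ := h
  refine ⟨a + k, b, c, e, ?_⟩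
  rw [h]
  module

theorem comb_affine {P Q M : End K V} (h : IsComb P Q M) (G s : K) :
    IsComb P Q (G • 1 + s • M) := by
  obtain ⟨a, b, c, e, h⟩ := h
  refine ⟨G + s * a, s * b, s * c, s * e, ?_⟩
  rw [h]
  module

theorem dagger_shift {A As : End K V} {τ : End K V → End K V} (h : IsDagger A As τ)
    {M : End K V} (hM : τ M = M) (c : K) : τ (M - c • 1) = M - c • 1 := by
  rw [sub_eq_add_neg, ← neg_smul, h.map_add, h.map_smul, hM, dagger_one h]

theorem dagger_C2 {A As : End K V} {τ : End K V → End K V} (h : IsDagger A As τ)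
    {A0 B0 : End K V} (hA : τ A0 = A0) (hB : τ B0 = B0) (d : ℕ) (q x1 x2 y1 y2 t : K) :
    τ (Pool.LT.C2 d q x1 x2 y1 y2 t A0 B0) = Pool.LT.C1 d q x1 x2 y1 y2 t A0 B0 := by
  unfold Pool.LT.C2 Pool.LT.C1
  rw [sub_eq_add_neg, ← neg_smul, h.map_add, h.map_add, h.map_smul, h.map_smul, h.map_smul,
    h.map_mul, h.map_mul, dagger_one h, hA, hB]
  module

/-- the case of a one-dimensional space -/
theorem positive_zero {A As Ae X Z : End K V} (h : HasLF 0 Ae A As) : IsComb Z X Ae := by
  obtain ⟨c, γ, pa, ma, ra, pb, mb, rb, L⟩ := h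
  refine ⟨γ 0, 0, 0, 0, ?_⟩
  refine L.frame.ext fun i h0 h1 => ?_
  have hi : i = 0 := by
    push_cast at h1
    omega
  rw [L.diag, hi]
  simp

/-- dimension at least four -/
theorem positive_three {d : ℕ} {q : K} {A As Ae X Xinv Y Z : End K V} (hd : 3 ≤ d)
    (S : Setup d q A As Ae X Xinv Y Z) {τ : End K V → End K V} (hτ : IsDagger A As τ) :
    IsComb Z X Ae ∨ IsComb Z X (τ Ae) := by
  have hq := S.q_ne_zero
  have hroot := S.q_not_root
  have hR := rels_of hq hroot S.equitable
  have hLA := hasLF_of S.triple.1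
  have hLB := hasLF_of S.triple.2.1
  have hLC := hasLF_of S.triple.2.2
  obtain ⟨a0, a1, a2, a3, hA⟩ := S.A_mem
  obtain ⟨b0, b1, b2, b3, hB⟩ := S.As_mem
  obtain ⟨ε, hε, e, hE⟩ : ∃ ε : K, ε * ε = 1 ∧ ∃ e : ℤ → V, Std d q (ε • X) (ε • Y) (ε • Z) e := by
    obtain ⟨v, θ, pb, mb, rb, pc, mc, rc, L⟩ := hLA
    obtain ⟨w, η, pb', mb', rb', pc', mc', rc', L'⟩ := hLB
    exact hR.exists_std S.dim S.irreducible.2 hA L.frame L.diag
      (fun i j hi0 hi1 hj0 hj1 hij => distinct L.frame L'.frame L.diag L'.tB hi0 hi1 hj0 hj1 hij)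
  have eA : A - (a0 + a3) • 1 = mA (a1 * ε) (a2 * ε) a3 (ε • X) (ε • Y) := by
    unfold mA
    rw [hA, smul_smul, smul_smul, mul_assoc, mul_assoc, hε, mul_one, mul_one,
      smul_mul_smul_comm, hε, one_smul]
    module
  have eB : As - (b0 + b3) • 1 = mB (b1 * ε) (b2 * ε) b3 (ε • Y) (ε • Z) := by
    unfold mB
    rw [hB, smul_smul, smul_smul, mul_assoc, mul_assoc, hε, mul_one, mul_one,
      smul_mul_smul_comm, hε, one_smul]
    module
  have hLA' := hLA.shift (a0 + a3) (b0 + b3) 0
  have hLB' := hLB.shift (b0 + b3) (a0 + a3) 0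
  have hLC' := hLC.shift 0 (a0 + a3) (b0 + b3)
  rw [zero_smul, sub_zero] at hLA' hLB' hLC'
  have hP := psd (α1 := a1 * ε) (α2 := a2 * ε) (α3 := a3) (β1 := b1 * ε) (β2 := b2 * ε)
    (β3 := b3) hq hroot hE
  rw [← eA, ← eB] at hP
  obtain ⟨hf, G, s, hs⟩ := third hd hP hLA' hLB' hLC'
  have hcomb := comb (β2 := b2 * ε) (α1 := a1 * ε) hq hE hf
  rw [← eA, ← eB] at hcomb
  have hC1 : IsComb (ε • Z) (ε • X) (C1 d q (a1 * ε) (a2 * ε) (b2 * ε) (b1 * ε)
      (-((a1 * ε) * b3 + a3 * (b2 * ε)) * q⁻¹) (A - (a0 + a3) • 1) (As - (b0 + b3) • 1)) := by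
    unfold C1
    rw [hcomb]
    exact comb_add ⟨_, _, _, _, rfl⟩ _
  rcases hs with hs | hs
  · left
    rw [hs]
    exact comb_affine (comb_of_signs hε hC1) G s
  · right
    rw [hs, hτ.map_add, hτ.map_smul, hτ.map_smul, dagger_one hτ,
      dagger_C2 hτ (dagger_shift hτ hτ.map_A _) (dagger_shift hτ hτ.map_As _)]
    exact comb_affine (comb_of_signs hε hC1) G s

theorem positive {d : ℕ} {q : K} {A As Ae X Xinv Y Z : End K V} (hd : d = 0 ∨ 3 ≤ d)
    (S : Setup d q A As Ae X Xinv Y Z) :
    (∃ τ : End K V → End K V, IsDagger A As τ) ∧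
      ∀ τ : End K V → End K V, IsDagger A As τ → IsComb Z X Ae ∨ IsComb Z X (τ Ae) := by
  refine ⟨exists_dagger S.triple.1, fun τ hτ => ?_⟩
  rcases hd with hd | hd
  · subst hd
    exact Or.inl (positive_zero (hasLF_of S.triple.2.2))
  · exact positive_three hd S hτ

end Pool.LT
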