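import Mathlib
import Pool.Agent.Work.MP_a7ee28_al.Proof
import Pool.Agent.Work.MP_a7ee28_al_h73.Final

/-!
# Dimensions two and three
-/

set_option autoImplicit false

namespace Pool.LT.Low

open Module
open Pool.Agent.Results.MP_a7ee28_al.ByDiameter

/-- the example in dimension three -/
theorem example_two : ∃ A As Ae X Xinv Y Z : End ℚ (Fin 3 → ℚ),
    Setup 2 (2 : ℚ) A As Ae X Xinv Y Z ∧ (∃ τ, IsDagger A As τ) ∧
      ∀ τ, IsDagger A As τ → ¬ IsComb Z X Ae ∧ ¬ IsComb Z X (τ Ae) := by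
  have hT : IsLeonardTriple 2
      (Pool.Agent.Results.MP_a7ee28_al.DimThreeDisproof.φ
        Pool.Agent.Results.MP_a7ee28_al.DimThreeDisproof.mA)
      (Pool.Agent.Results.MP_a7ee28_al.DimThreeDisproof.φ
        Pool.Agent.Results.MP_a7ee28_al.DimThreeDisproof.mB)
      (Pool.Agent.Results.MP_a7ee28_al.DimThreeDisproof.φ
        Pool.Agent.Results.MP_a7ee28_al.DimThreeDisproof.mC) :=
    Pool.Agent.Results.MP_a7ee28_al.DimThreeDisproof.triple
  refine ⟨Pool.Agent.Results.MP_a7ee28_al.DimThreeDisproof.φ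
      Pool.Agent.Results.MP_a7ee28_al.DimThreeDisproof.mA,
    Pool.Agent.Results.MP_a7ee28_al.DimThreeDisproof.φ
      Pool.Agent.Results.MP_a7ee28_al.DimThreeDisproof.mB,
    Pool.Agent.Results.MP_a7ee28_al.DimThreeDisproof.φ
      Pool.Agent.Results.MP_a7ee28_al.DimThreeDisproof.mC,
    Pool.Agent.Results.MP_a7ee28_al.DimThreeDisproof.φ
      Pool.Agent.Results.MP_a7ee28_al.DimThreeDisproof.mX,
    Pool.Agent.Results.MP_a7ee28_al.DimThreeDisproof.φ
      Pool.Agent.Results.MP_a7ee28_al.DimThreeDisproof.mXi,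
    Pool.Agent.Results.MP_a7ee28_al.DimThreeDisproof.φ
      Pool.Agent.Results.MP_a7ee28_al.DimThreeDisproof.mY,
    Pool.Agent.Results.MP_a7ee28_al.DimThreeDisproof.φ
      Pool.Agent.Results.MP_a7ee28_al.DimThreeDisproof.mZ, ?_, exists_dagger hT.1, ?_⟩
  · obtain ⟨h1, h2, h3, h4, h5⟩ := Pool.Agent.Results.MP_a7ee28_al.DimThreeDisproof.equitable
    exact {
      dim := by simp
      q_ne_zero := by norm_num
      q_not_root := fun n hn => by
        have : (1 : ℚ) < 2 ^ n := one_lt_pow₀ (by norm_num) hn.ne'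
        exact this.ne'
      pair := Pool.Agent.Results.MP_a7ee28_al.DimThreeDisproof.pair
      ratio := fun b θ _ _ _ i h2 hi => by omega
      equitable := ⟨h1, h2, h3, h4, h5⟩
      irreducible := Pool.Agent.Results.MP_a7ee28_al.DimThreeDisproof.irreducible
      A_mem := Pool.Agent.Results.MP_a7ee28_al.DimThreeDisproof.A_mem
      As_mem := Pool.Agent.Results.MP_a7ee28_al.DimThreeDisproof.B_mem
      triple := hT }
  · intro τ hτ
    have hC : ¬ IsComb (Pool.Agent.Results.MP_a7ee28_al.DimThreeDisproof.φ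
        Pool.Agent.Results.MP_a7ee28_al.DimThreeDisproof.mZ)
      (Pool.Agent.Results.MP_a7ee28_al.DimThreeDisproof.φ
        Pool.Agent.Results.MP_a7ee28_al.DimThreeDisproof.mX)
      (Pool.Agent.Results.MP_a7ee28_al.DimThreeDisproof.φ
        Pool.Agent.Results.MP_a7ee28_al.DimThreeDisproof.mC) :=
      Pool.Agent.Results.MP_a7ee28_al.DimThreeDisproof.C_not_mem
    refine ⟨hC, ?_⟩
    have : τ (Pool.Agent.Results.MP_a7ee28_al.DimThreeDisproof.φ
        Pool.Agent.Results.MP_a7ee28_al.DimThreeDisproof.mC) =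
        Pool.Agent.Results.MP_a7ee28_al.DimThreeDisproof.φ
          Pool.Agent.Results.MP_a7ee28_al.DimThreeDisproof.mC := by
      rw [Pool.Agent.Results.MP_a7ee28_al.DimThreeDisproof.mC_eq, map_add, map_smul, map_smul,
        hτ.map_add, hτ.map_smul, hτ.map_smul, hτ.map_A, hτ.map_As]
    rw [this]
    exact hC

/-! ### Dimension two -/

lemma exists_basis (P Q : Matrix (Fin 2) (Fin 2) ℚ) (h : P * Q = 1) (h' : Q * P = 1) :
    ∃ b : Basis (Fin 2) ℚ (Fin 2 → ℚ), ∀ N : Matrix (Fin 2) (Fin 2) ℚ,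
      LinearMap.toMatrix b b (Matrix.toLin' N) = Q * N * P := by
  let e : (Fin 2 → ℚ) ≃ₗ[ℚ] (Fin 2 → ℚ) :=
    LinearEquiv.ofLinearMap (Matrix.toLin' P) (Matrix.toLin' Q)
      (by rw [← Matrix.toLin'_mul, h, Matrix.toLin'_one])
      (by rw [← Matrix.toLin'_mul, h', Matrix.toLin'_one])
  refine ⟨(Pi.basisFun ℚ (Fin 2)).map e, fun N => ?_⟩
  ext i j
  rw [LinearMap.toMatrix_apply]
  simp only [Basis.map_apply, Basis.map_repr, LinearEquiv.trans_apply, Pi.basisFun_apply,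
    Pi.basisFun_repr]
  show (Matrix.toLin' Q (Matrix.toLin' N (Matrix.toLin' P (Pi.single j 1)))) i = _
  simp only [Matrix.toLin'_apply]
  rw [Matrix.mulVec_mulVec, Matrix.mulVec_mulVec, Matrix.mulVec_single_one]
  rfl

/-- `X` -/
def mX : Matrix (Fin 2) (Fin 2) ℚ := !![1/2, 3/2; 0, 2]
/-- the inverse of `X` -/
def mXi : Matrix (Fin 2) (Fin 2) ℚ := !![2, -3/2; 0, 1/2]
/-- `Y` -/
def mY : Matrix (Fin 2) (Fin 2) ℚ := !![2, 0; 0, 1/2]
/-- `Z` -/
def mZ : Matrix (Fin 2) (Fin 2) ℚ := !![1/2, 0; -3/2, 2]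
/-- `A` -/
def mA : Matrix (Fin 2) (Fin 2) ℚ := !![-7, 1; 0, 7]
/-- `As` -/
def mB : Matrix (Fin 2) (Fin 2) ℚ := !![1, 0; 1, -1]
/-- `Ae` -/
def mC : Matrix (Fin 2) (Fin 2) ℚ := !![1, 1; 8, -1]

lemma tri_of (a b c d : ℚ) (h1 : b ≠ 0) (h2 : c ≠ 0) :
    IsIrredTridiag (!![a, b; c, d] : Matrix (Fin 2) (Fin 2) ℚ) := by
  intro i j
  fin_cases i <;> fin_cases j <;> simp_all

lemma diag_of (a b : ℚ) : (!![a, 0; 0, b] : Matrix (Fin 2) (Fin 2) ℚ).IsDiag := by
  intro i j hij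
  fin_cases i <;> fin_cases j <;> simp_all

lemma basisA : HasLeonardBasis 1 (Matrix.toLin' mA) (Matrix.toLin' mB) (Matrix.toLin' mC) := by
  obtain ⟨b, hb⟩ := exists_basis !![1, 1; 0, 14] !![1, -1/14; 0, 1/14]
    (by decide +kernel) (by decide +kernel)
  refine ⟨b, ?_, ?_, ?_⟩
  · rw [hb, show (!![1, -1/14; 0, 1/14] * mA * !![1, 1; 0, 14] : Matrix (Fin 2) (Fin 2) ℚ) =
      !![-7, 0; 0, 7] by decide +kernel]
    exact diag_of _ _
  · rw [hb, show (!![1, -1/14; 0, 1/14] * mB * !![1, 1; 0, 14] : Matrix (Fin 2) (Fin 2) ℚ) =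
      !![13/14, 27/14; 1/14, -13/14] by decide +kernel]
    exact tri_of _ _ _ _ (by norm_num) (by norm_num)
  · rw [hb, show (!![1, -1/14; 0, 1/14] * mC * !![1, 1; 0, 14] : Matrix (Fin 2) (Fin 2) ℚ) =
      !![3/7, 108/7; 4/7, -3/7] by decide +kernel]
    exact tri_of _ _ _ _ (by norm_num) (by norm_num)

lemma basisB : HasLeonardBasis 1 (Matrix.toLin' mB) (Matrix.toLin' mA) (Matrix.toLin' mC) := by
  obtain ⟨b, hb⟩ := exists_basis !![0, 2; 1, 1] !![-1/2, 1; 1/2, 0]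
    (by decide +kernel) (by decide +kernel)
  refine ⟨b, ?_, ?_, ?_⟩
  · rw [hb, show (!![-1/2, 1; 1/2, 0] * mB * !![0, 2; 1, 1] : Matrix (Fin 2) (Fin 2) ℚ) =
      !![-1, 0; 0, 1] by decide +kernel]
    exact diag_of _ _
  · rw [hb, show (!![-1/2, 1; 1/2, 0] * mA * !![0, 2; 1, 1] : Matrix (Fin 2) (Fin 2) ℚ) =
      !![13/2, 27/2; 1/2, -13/2] by decide +kernel]
    exact tri_of _ _ _ _ (by norm_num) (by norm_num)
  · rw [hb, show (!![-1/2, 1; 1/2, 0] * mC * !![0, 2; 1, 1] : Matrix (Fin 2) (Fin 2) ℚ) =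
      !![-3/2, 27/2; 1/2, 3/2] by decide +kernel]
    exact tri_of _ _ _ _ (by norm_num) (by norm_num)

lemma basisC : HasLeonardBasis 1 (Matrix.toLin' mC) (Matrix.toLin' mA) (Matrix.toLin' mB) := by
  obtain ⟨b, hb⟩ := exists_basis !![1, 1; 2, -4] !![2/3, 1/6; 1/3, -1/6]
    (by decide +kernel) (by decide +kernel)
  refine ⟨b, ?_, ?_, ?_⟩
  · rw [hb, show (!![2/3, 1/6; 1/3, -1/6] * mC * !![1, 1; 2, -4] : Matrix (Fin 2) (Fin 2) ℚ) =
      !![3, 0; 0, -3] by decide +kernel]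
    exact diag_of _ _
  · rw [hb, show (!![2/3, 1/6; 1/3, -1/6] * mA * !![1, 1; 2, -4] : Matrix (Fin 2) (Fin 2) ℚ) =
      !![-1, -12; -4, 1] by decide +kernel]
    exact tri_of _ _ _ _ (by norm_num) (by norm_num)
  · rw [hb, show (!![2/3, 1/6; 1/3, -1/6] * mB * !![1, 1; 2, -4] : Matrix (Fin 2) (Fin 2) ℚ) =
      !![1/2, 3/2; 1/2, -1/2] by decide +kernel]
    exact tri_of _ _ _ _ (by norm_num) (by norm_num)

/-- matrices and endomorphisms -/
noncomputable def φ : Matrix (Fin 2) (Fin 2) ℚ ≃ₐ[ℚ] End ℚ (Fin 2 → ℚ) := Matrix.toLinAlgEquiv'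

lemma φ_apply (M : Matrix (Fin 2) (Fin 2) ℚ) : φ M = Matrix.toLin' M := rfl

lemma equitable : IsEquitable (2 : ℚ) (φ mX) (φ mXi) (φ mY) (φ mZ) where
  mul_inv := by rw [← map_mul, show mX * mXi = 1 by decide +kernel, map_one]
  inv_mul := by rw [← map_mul, show mXi * mX = 1 by decide +kernel, map_one]
  xy := by
    rw [← map_mul, ← map_mul, ← map_smul, ← map_smul, ← map_sub, ← map_smul,
      show ((2 : ℚ) - 2⁻¹)⁻¹ • ((2 : ℚ) • (mX * mY) - (2 : ℚ)⁻¹ • (mY * mX)) = 1 by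
        decide +kernel, map_one]
  yz := by
    rw [← map_mul, ← map_mul, ← map_smul, ← map_smul, ← map_sub, ← map_smul,
      show ((2 : ℚ) - 2⁻¹)⁻¹ • ((2 : ℚ) • (mY * mZ) - (2 : ℚ)⁻¹ • (mZ * mY)) = 1 by
        decide +kernel, map_one]
  zx := by
    rw [← map_mul, ← map_mul, ← map_smul, ← map_smul, ← map_sub, ← map_smul,
      show ((2 : ℚ) - 2⁻¹)⁻¹ • ((2 : ℚ) • (mZ * mX) - (2 : ℚ)⁻¹ • (mX * mZ)) = 1 by
        decide +kernel, map_one]

lemma X_apply (v : Fin 2 → ℚ) : φ mX v = ![1 / 2 * v 0 + 3 / 2 * v 1, 2 * v 1] := by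
  rw [φ_apply, Matrix.toLin'_apply]
  ext i
  fin_cases i <;> simp [mX, Matrix.mulVec, dotProduct, Fin.sum_univ_succ]

lemma Y_apply (v : Fin 2 → ℚ) : φ mY v = ![2 * v 0, 1 / 2 * v 1] := by
  rw [φ_apply, Matrix.toLin'_apply]
  ext i
  fin_cases i <;> simp [mY, Matrix.mulVec, dotProduct, Fin.sum_univ_succ]

lemma Z_apply (v : Fin 2 → ℚ) : φ mZ v = ![1 / 2 * v 0, -3 / 2 * v 0 + 2 * v 1] := by
  rw [φ_apply, Matrix.toLin'_apply]
  ext i
  fin_cases i <;> simp [mZ, Matrix.mulVec, dotProduct, Fin.sum_univ_succ]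

lemma irreducible : IsIrreducibleAction (φ mX) (φ mXi) (φ mY) (φ mZ) := by
  refine ⟨inferInstance, fun W hW => ?_⟩
  by_cases hbot : W = ⊥
  · exact Or.inl hbot
  right
  have hX : ∀ w ∈ W, (![1 / 2 * w 0 + 3 / 2 * w 1, 2 * w 1] : Fin 2 → ℚ) ∈ W := fun w hw => by
    rw [← X_apply]; exact (hW w hw).1
  have hY : ∀ w ∈ W, (![2 * w 0, 1 / 2 * w 1] : Fin 2 → ℚ) ∈ W := fun w hw => by
    rw [← Y_apply]; exact (hW w hw).2.2.1
  have hZ : ∀ w ∈ W, (![1 / 2 * w 0, -3 / 2 * w 0 + 2 * w 1] : Fin 2 → ℚ) ∈ W :=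
    fun w hw => by rw [← Z_apply]; exact (hW w hw).2.2.2
  have hvec : ∀ w : Fin 2 → ℚ, w = ![w 0, w 1] := by
    intro w
    ext i
    fin_cases i <;> rfl
  have p0 : ∀ w ∈ W, w 0 ≠ 0 → (![1, 0] : Fin 2 → ℚ) ∈ W := by
    intro w hw h0
    have hw' : (![w 0, w 1] : Fin 2 → ℚ) ∈ W := by
      rw [← hvec w]
      exact hw
    have h3 := W.smul_mem (2 / (3 * w 0)) (W.sub_mem (hY w hw) (W.smul_mem (1 / 2) hw'))
    convert h3 using 1
    ext i
    fin_cases i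
    · simp
      field_simp
      ring
    · simp
  have p1 : ∀ w ∈ W, w 1 ≠ 0 → (![0, 1] : Fin 2 → ℚ) ∈ W := by
    intro w hw h0
    have hw' : (![w 0, w 1] : Fin 2 → ℚ) ∈ W := by
      rw [← hvec w]
      exact hw
    have h3 := W.smul_mem (-2 / (3 * w 1)) (W.sub_mem (hY w hw) (W.smul_mem 2 hw'))
    convert h3 using 1
    ext i
    fin_cases i
    · simp
    · simp
      field_simp
      ring
  have hall : (![1, 0] : Fin 2 → ℚ) ∈ W ∧ (![0, 1] : Fin 2 → ℚ) ∈ W := by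
    obtain ⟨w, hw, hw0⟩ := Submodule.exists_mem_ne_zero_of_ne_bot hbot
    have : w 0 ≠ 0 ∨ w 1 ≠ 0 := by
      by_contra hcon
      push Not at hcon
      apply hw0
      ext i
      fin_cases i
      · exact hcon.1
      · exact hcon.2
    rcases this with h | h
    · have h0 := p0 w hw h
      exact ⟨h0, p1 _ (hZ _ h0) (by simp)⟩
    · have h1 := p1 w hw h
      exact ⟨p0 _ (hX _ h1) (by simp), h1⟩
  rw [eq_top_iff]
  intro v _
  have h3 := W.add_mem (W.smul_mem (v 0) hall.1) (W.smul_mem (v 1) hall.2)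
  convert h3 using 1
  ext i
  fin_cases i <;> simp

lemma mA_eq : mA = (10 : ℚ) • 1 + (2 / 3 : ℚ) • mX + (-26 / 3 : ℚ) • mY := by decide +kernel

lemma mB_eq : mB = (2 / 3 : ℚ) • mY + (-2 / 3 : ℚ) • mZ := by decide +kernel

lemma mC_eq : mC = mA + (8 : ℚ) • mB := by decide +kernel

lemma A_mem : IsComb (φ mX) (φ mY) (φ mA) := by
  refine ⟨10, 2 / 3, -26 / 3, 0, ?_⟩
  rw [mA_eq, map_add, map_add, map_smul, map_smul, map_smul, map_one]
  module

lemma B_mem : IsComb (φ mY) (φ mZ) (φ mB) := by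
  refine ⟨0, 2 / 3, -2 / 3, 0, ?_⟩
  rw [mB_eq, map_add, map_smul, map_smul]
  module

lemma C_not_mem : ¬ IsComb (φ mZ) (φ mX) (φ mC) := by
  rintro ⟨a, b, c, e, h⟩
  have h' : mC = a • 1 + b • mZ + c • mX + e • (mZ * mX) := by
    apply φ.injective
    rw [h]
    simp only [map_add, map_smul, map_mul, map_one]
  have e00 := congrFun (congrFun h' 0) 0
  have e01 := congrFun (congrFun h' 0) 1
  have e10 := congrFun (congrFun h' 1) 0
  have e11 := congrFun (congrFun h' 1) 1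
  simp [mC, mX, mZ] at e00 e01 e10 e11
  linarith

/-- the example in dimension two -/
theorem example_one : ∃ A As Ae X Xinv Y Z : End ℚ (Fin 2 → ℚ),
    Setup 1 (2 : ℚ) A As Ae X Xinv Y Z ∧ (∃ τ, IsDagger A As τ) ∧
      ∀ τ, IsDagger A As τ → ¬ IsComb Z X Ae ∧ ¬ IsComb Z X (τ Ae) := by
  have hT : IsLeonardTriple 1 (φ mA) (φ mB) (φ mC) := ⟨basisA, basisB, basisC⟩
  refine ⟨φ mA, φ mB, φ mC, φ mX, φ mXi, φ mY, φ mZ, ?_, exists_dagger hT.1, ?_⟩
  · exact {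
      dim := by simp
      q_ne_zero := by norm_num
      q_not_root := fun n hn => by
        have : (1 : ℚ) < 2 ^ n := one_lt_pow₀ (by norm_num) hn.ne'
        exact this.ne'
      pair := by
        obtain ⟨b, h1, h2, -⟩ := basisA
        obtain ⟨b', h1', h2', -⟩ := basisB
        exact ⟨⟨b', h2', h1'⟩, ⟨b, h2, h1⟩⟩
      ratio := fun b θ _ _ _ i h2 hi => by omega
      equitable := equitable
      irreducible := irreducible
      A_mem := A_mem
      As_mem := B_mem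
      triple := hT }
  · intro τ hτ
    refine ⟨C_not_mem, ?_⟩
    have : τ (φ mC) = φ mC := by
      rw [mC_eq, map_add, map_smul, hτ.map_add, hτ.map_smul, hτ.map_A, hτ.map_As]
    rw [this]
    exact C_not_mem

end Pool.LT.Low
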